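import Mathlib

open scoped RealInnerProductSpace
open Set Filter Topology

namespace Pool.Agent.Helper420.KdVWp

/-- Abstract setting. `H` is a real Hilbert space (think `L²(0,L)`), `K` is the bounded inverse of
the skew-adjoint operator `A = -∂ₓ³` (with boundary conditions), and `B f g = (K f) * (K g)ₓ`.
Think `N0 f = sup |K f|`, `N1 f = sup |(K f)ₓ|`, `M1 f = ‖(K f)ₓ‖_{L²}`. -/
structure Setting (H : Type*) [NormedAddCommGroup H] [InnerProductSpace ℝ H] where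
  K : H →L[ℝ] H
  B : H →L[ℝ] H →L[ℝ] H
  N0 : H → ℝ
  N1 : H → ℝ
  M1 : H → ℝ
  C : ℝ
  C_one : 1 ≤ C
  N0_nonneg : ∀ f, 0 ≤ N0 f
  N1_nonneg : ∀ f, 0 ≤ N1 f
  M1_nonneg : ∀ f, 0 ≤ M1 f
  skew : ∀ f g, ⟪K f, g⟫ = -⟪f, K g⟫
  inj : ∀ f, K f = 0 → f = 0
  B1 : ∀ f g, ‖B f g‖ ≤ N0 f * M1 g
  B2 : ∀ f g, ‖B f g‖ ≤ ‖K f‖ * N1 g
  B3 : ∀ f g, |⟪B f g + B g f, K g⟫| ≤ N1 f * ‖K g‖ ^ 2
  I0 : ∀ f, N0 f ^ 4 ≤ C ^ 4 * ‖K f‖ ^ 3 * ‖f‖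
  I1 : ∀ f, M1 f ^ 2 ≤ C ^ 2 * ‖K f‖ * ‖f‖
  I2 : ∀ f, N1 f ^ 4 ≤ C ^ 4 * ‖K f‖ * ‖f‖ ^ 3
  R : ∀ h, ∃ q, B (K h) (K h) = K q ∧ ‖q‖ ≤ C * ‖K h‖ * ‖h‖

variable {H : Type*} [NormedAddCommGroup H] [InnerProductSpace ℝ H]

/-- Solution `f` on `[0,T]` of the regularised problem with parameter `ε`, with first and second
time derivatives `p`, `r`. -/
structure RSol (S : Setting H) (ε T : ℝ) (f p r : ℝ → H) : Prop where
  df : ∀ t ∈ Icc 0 T, HasDerivWithinAt f (p t) (Icc 0 T) t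
  dp : ∀ t ∈ Icc 0 T, HasDerivWithinAt p (r t) (Icc 0 T) t
  ep : ∀ t ∈ Icc 0 T, S.K (p t) - ε • p t = f t - S.B (f t) (f t)
  er : ∀ t ∈ Icc 0 T, S.K (r t) - ε • r t = p t - (S.B (f t) (p t) + S.B (p t) (f t))

/-- The core energy inequality, valid for every `ε ∈ [0,1]`. -/
lemma core (S : Setting H) {a : ℝ} (ha : 0 ≤ a) {ε : ℝ} (hε0 : 0 ≤ ε) (hε1 : ε ≤ 1) {f : H}
    (h0 : S.N0 f ≤ a) (h1 : S.N1 f ≤ a) (π : H) :
    ⟪π - (S.B f π + S.B π f), S.K π - ε • π⟫ ≤ (a + a ^ 2 + a ^ 4 * S.C ^ 4) * ‖S.K π‖ ^ 2 := by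
  have hsk : ⟪π, S.K π⟫ = 0 := by
    have h := S.skew π π
    rw [real_inner_comm] at h
    linarith
  have hB3 := S.B3 f π
  have hD : ‖S.B f π + S.B π f‖ ≤ a * (S.M1 π + ‖S.K π‖) := by
    calc ‖S.B f π + S.B π f‖ ≤ ‖S.B f π‖ + ‖S.B π f‖ := norm_add_le _ _
      _ ≤ S.N0 f * S.M1 π + ‖S.K π‖ * S.N1 f := add_le_add (S.B1 _ _) (S.B2 _ _)
      _ ≤ a * S.M1 π + ‖S.K π‖ * a := by
        gcongr
        exact S.M1_nonneg _
      _ = _ := by ring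
  set k := ‖S.K π‖ with hk
  set n := ‖π‖ with hn
  set m := S.M1 π with hm
  have hk0 : 0 ≤ k := norm_nonneg _
  have hn0 : 0 ≤ n := norm_nonneg _
  have hm0 : 0 ≤ m := S.M1_nonneg _
  have e1 : ⟪π - (S.B f π + S.B π f), S.K π - ε • π⟫
      = -⟪S.B f π + S.B π f, S.K π⟫ - ε * n ^ 2 + ε * ⟪S.B f π + S.B π f, π⟫ := by
    rw [inner_sub_left, inner_sub_right, inner_sub_right, hsk, inner_smul_right, inner_smul_right,
      real_inner_self_eq_norm_sq]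
    ring
  have e2 : -⟪S.B f π + S.B π f, S.K π⟫ ≤ a * k ^ 2 := by
    have h2 := (abs_le.1 hB3).1
    have h3 : S.N1 f * k ^ 2 ≤ a * k ^ 2 := by gcongr
    linarith
  have e3 : ⟪S.B f π + S.B π f, π⟫ ≤ a * (m + k) * n := by
    calc ⟪S.B f π + S.B π f, π⟫ ≤ ‖S.B f π + S.B π f‖ * n := real_inner_le_norm _ _
      _ ≤ a * (m + k) * n := by gcongr
  have e4 : a * m * n ≤ n ^ 2 / 4 + a ^ 2 * m ^ 2 := by nlinarith [sq_nonneg (n / 2 - a * m)]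
  have e5 : a ^ 2 * m ^ 2 ≤ n ^ 2 / 4 + a ^ 4 * S.C ^ 4 * k ^ 2 := by
    have h4 : a ^ 2 * m ^ 2 ≤ a ^ 2 * (S.C ^ 2 * k * n) := by
      have := S.I1 π
      gcongr
    nlinarith [sq_nonneg (n / 2 - a ^ 2 * S.C ^ 2 * k)]
  have e6 : a * k * n ≤ n ^ 2 / 4 + a ^ 2 * k ^ 2 := by nlinarith [sq_nonneg (n / 2 - a * k)]
  have e7 : ⟪S.B f π + S.B π f, π⟫ - n ^ 2 ≤ (a ^ 4 * S.C ^ 4 + a ^ 2) * k ^ 2 := by
    have : a * (m + k) * n = a * m * n + a * k * n := by ring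
    nlinarith [sq_nonneg n]
  have e8 : ε * (⟪S.B f π + S.B π f, π⟫ - n ^ 2) ≤ (a ^ 4 * S.C ^ 4 + a ^ 2) * k ^ 2 := by
    have h5 : 0 ≤ (a ^ 4 * S.C ^ 4 + a ^ 2) * k ^ 2 := by positivity
    calc ε * (⟪S.B f π + S.B π f, π⟫ - n ^ 2) ≤ ε * ((a ^ 4 * S.C ^ 4 + a ^ 2) * k ^ 2) := by gcongr
      _ ≤ 1 * ((a ^ 4 * S.C ^ 4 + a ^ 2) * k ^ 2) := by gcongr
      _ = _ := one_mul _
  rw [e1]
  nlinarith

/-- `‖K π‖ ≤ ‖K π - ε π‖` and `ε ‖π‖ ≤ ‖K π - ε π‖`. -/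
lemma norm_sq_eq (S : Setting H) (ε : ℝ) (π : H) :
    ‖S.K π - ε • π‖ ^ 2 = ‖S.K π‖ ^ 2 + ε ^ 2 * ‖π‖ ^ 2 := by
  have hsk : ⟪π, S.K π⟫ = 0 := by
    have h := S.skew π π
    rw [real_inner_comm] at h
    linarith
  rw [norm_sub_sq_real, inner_smul_right, real_inner_comm, hsk, norm_smul, mul_pow,
    Real.norm_eq_abs, sq_abs]
  ring

lemma norm_K_le (S : Setting H) (ε : ℝ) (π : H) : ‖S.K π‖ ≤ ‖S.K π - ε • π‖ := by
  have h := norm_sq_eq S ε π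
  apply le_of_sq_le_sq _ (norm_nonneg _)
  nlinarith [mul_nonneg (sq_nonneg ε) (sq_nonneg ‖π‖)]

/-! ### job 19 -/

/-- static estimate -/
lemma static_est (S : Setting H) {V W : ℝ} {f : H} (hV : ‖S.K f‖ ≤ V)
    (hW : ‖f - S.B f f‖ ≤ W) :
    ‖f‖ ≤ 2 * W + 16 * (S.C ^ 8 * V ^ 5) ∧
    S.N0 f ≤ S.C * (V + (2 * W + 16 * (S.C ^ 8 * V ^ 5))) ∧
    S.N1 f ≤ S.C * (V + (2 * W + 16 * (S.C ^ 8 * V ^ 5))) := by
  have hC1 := S.C_one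
  have hC0 : 0 ≤ S.C := by linarith
  have hk0 : 0 ≤ ‖S.K f‖ := norm_nonneg _
  have hV0 : 0 ≤ V := hk0.trans hV
  have hW0 : 0 ≤ W := (norm_nonneg _).trans hW
  set x := ‖f‖ with hx
  have hx0 : 0 ≤ x := norm_nonneg _
  set β := S.N0 f * S.M1 f with hβ
  have hn0 := S.N0_nonneg f
  have hm0 := S.M1_nonneg f
  have hβ0 : 0 ≤ β := mul_nonneg hn0 hm0
  set A := S.C ^ 8 * V ^ 5 with hA
  have hA0 : 0 ≤ A := by positivity
  have h1 : x ≤ W + β := by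
    calc x = ‖(f - S.B f f) + S.B f f‖ := by rw [hx]; congr 1; abel
      _ ≤ ‖f - S.B f f‖ + ‖S.B f f‖ := norm_add_le _ _
      _ ≤ W + β := add_le_add hW (S.B1 f f)
  have h2 : β ^ 4 ≤ A * x ^ 3 := by
    have e1 := S.I0 f
    have e2 := S.I1 f
    have e3 : S.N0 f ^ 4 ≤ S.C ^ 4 * V ^ 3 * x := e1.trans (by gcongr)
    have e4 : S.M1 f ^ 2 ≤ S.C ^ 2 * V * x := e2.trans (by gcongr)
    calc β ^ 4 = S.N0 f ^ 4 * (S.M1 f ^ 2) ^ 2 := by rw [hβ]; ring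
      _ ≤ (S.C ^ 4 * V ^ 3 * x) * (S.C ^ 2 * V * x) ^ 2 := by gcongr
      _ = A * x ^ 3 := by rw [hA]; ring
  have h3 : x ≤ 2 * W + 16 * A := by
    by_cases hc : β ≤ x / 2
    · linarith
    · push Not at hc
      have hx1 : x < 2 * β := by linarith
      have hxp : 0 < x ∨ x = 0 := by
        rcases hx0.lt_or_eq with h | h
        · exact Or.inl h
        · exact Or.inr h.symm
      rcases hxp with hxp | hxp
      · have e1 : x ^ 4 ≤ (2 * β) ^ 4 := by gcongr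
        have e2 : x ^ 3 * x ≤ x ^ 3 * (16 * A) := by nlinarith
        have e3 : x ≤ 16 * A := le_of_mul_le_mul_left e2 (by positivity)
        linarith
      · rw [hxp]; positivity
  set F := 2 * W + 16 * A with hF
  have hF0 : 0 ≤ F := by positivity
  refine ⟨h3, ?_, ?_⟩
  · have e1 : S.N0 f ^ 4 ≤ (S.C * (V + F)) ^ 4 := by
      calc S.N0 f ^ 4 ≤ S.C ^ 4 * ‖S.K f‖ ^ 3 * x := S.I0 f
        _ ≤ S.C ^ 4 * (V + F) ^ 3 * (V + F) := by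
            have : ‖S.K f‖ ≤ V + F := by linarith
            have : x ≤ V + F := by linarith
            gcongr
        _ = _ := by ring
    exact le_of_pow_le_pow_left₀ (by norm_num) (by positivity) e1
  · have e1 : S.N1 f ^ 4 ≤ (S.C * (V + F)) ^ 4 := by
      calc S.N1 f ^ 4 ≤ S.C ^ 4 * ‖S.K f‖ * x ^ 3 := S.I2 f
        _ ≤ S.C ^ 4 * (V + F) * (V + F) ^ 3 := by
            have : ‖S.K f‖ ≤ V + F := by linarith
            have : x ≤ V + F := by linarith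
            gcongr
        _ = _ := by ring
    exact le_of_pow_le_pow_left₀ (by norm_num) (by positivity) e1

/-- Lemma A: a priori bound on a time interval depending only on `R`, uniform in `ε ∈ (0,1]`. -/
lemma apriori (S : Setting H) {R : ℝ} (hR : 0 ≤ R) :
    ∃ T, 0 < T ∧ ∃ M, R ≤ M ∧ ∀ ε : ℝ, 0 < ε → ε ≤ 1 → ∀ τ, 0 < τ → τ ≤ T → ∀ f p : ℝ → H,
      ‖f 0‖ ≤ R →
      (∀ t ∈ Icc 0 τ, HasDerivWithinAt f (p t) (Icc 0 τ) t) →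
      (∀ t ∈ Icc 0 τ, S.K (p t) - ε • p t = f t - S.B (f t) (f t)) →
      ∀ t ∈ Icc 0 τ, ‖f t‖ ≤ M := by
  have hC1 := S.C_one
  have hC0 : 0 ≤ S.C := by linarith
  set E0 : ℝ := (R + ‖S.B‖ * R ^ 2) ^ 2 with hE0
  have hE00 : 0 ≤ E0 := by positivity
  set Z : ℝ := E0 + 1 with hZ
  have hZ0 : 0 < Z := by positivity
  set W : ℝ := Real.sqrt Z with hW
  have hW0 : 0 ≤ W := Real.sqrt_nonneg _
  have hWZ : W ^ 2 = Z := Real.sq_sqrt hZ0.le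
  set V : ℝ := (‖S.K‖ + 1) * R + W with hV
  have hV0 : 0 ≤ V := by positivity
  set F : ℝ := 2 * W + 16 * (S.C ^ 8 * V ^ 5) with hF
  have hF0 : 0 ≤ F := by positivity
  set a : ℝ := S.C * (V + F) with ha
  have ha0 : 0 ≤ a := by positivity
  set Ca : ℝ := a + a ^ 2 + a ^ 4 * S.C ^ 4 with hCa
  have hCa0 : 0 ≤ Ca := by positivity
  set Λ : ℝ := (2 * Ca + 1) * Z + 1 with hΛ
  have hΛ0 : 0 < Λ := by positivity
  have hWle : ∀ x : ℝ, x ^ 2 ≤ Z → x ≤ W := fun x hx => Real.le_sqrt_of_sq_le hx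
  clear_value Λ Ca a F V W Z E0
  refine ⟨1 / Λ, by positivity, max R F, le_max_left _ _, ?_⟩
  intro ε hε0 hε1 τ hτ0 hτT f p hf0 hdf hep
  set w : ℝ → H := fun t => f t - S.B (f t) (f t) with hw
  set u : ℝ → H := fun t => S.K (f t) - ε • f t with hu
  set E : ℝ → ℝ := fun t => ‖w t‖ ^ 2 + ‖u t - u 0‖ ^ 2 with hE
  set w' : ℝ → H := fun t => p t - (S.B (f t) (p t) + S.B (p t) (f t)) with hw'
  set E' : ℝ → ℝ := fun t => 2 * ⟪w t, w' t⟫ + 2 * ⟪u t - u 0, w t⟫ with hE'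
  have hdw : ∀ t ∈ Icc 0 τ, HasDerivWithinAt w (w' t) (Icc 0 τ) t := by
    intro t ht
    have h1 := hdf t ht
    have h2 : HasDerivWithinAt (fun s => S.B (f s)) (S.B (p t)) (Icc 0 τ) t :=
      (S.B.hasFDerivAt (x := f t)).comp_hasDerivWithinAt t h1
    have h3 : HasDerivWithinAt (fun s => S.B (f s) (f s)) (S.B (p t) (f t) + S.B (f t) (p t))
        (Icc 0 τ) t := h2.clm_apply h1
    have h4 := h1.sub h3
    rw [add_comm] at h4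
    exact h4
  have hdu : ∀ t ∈ Icc 0 τ, HasDerivWithinAt u (w t) (Icc 0 τ) t := by
    intro t ht
    have h1 := hdf t ht
    have h2 : HasDerivWithinAt (fun s => S.K (f s)) (S.K (p t)) (Icc 0 τ) t :=
      (S.K.hasFDerivAt (x := f t)).comp_hasDerivWithinAt t h1
    have h3 := h2.sub (h1.const_smul ε)
    rw [hep t ht] at h3
    exact h3
  have hdE : ∀ t ∈ Icc 0 τ, HasDerivWithinAt E (E' t) (Icc 0 τ) t := by
    intro t ht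
    exact (hdw t ht).norm_sq.add ((hdu t ht).sub_const (u 0)).norm_sq
  have h0mem : (0 : ℝ) ∈ Icc 0 τ := ⟨le_rfl, hτ0.le⟩
  have hK0 : ‖u 0‖ ≤ (‖S.K‖ + 1) * R := by
    calc ‖u 0‖ ≤ ‖S.K (f 0)‖ + ‖ε • f 0‖ := norm_sub_le _ _
      _ ≤ ‖S.K‖ * R + 1 * R := by
          apply add_le_add
          · exact (S.K.le_opNorm _).trans (by gcongr)
          · rw [norm_smul, Real.norm_eq_abs, abs_of_pos hε0]
            gcongr
      _ = _ := by ring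
  have hEdef : ∀ t, E t = ‖w t‖ ^ 2 + ‖u t - u 0‖ ^ 2 := fun t => rfl
  have static : ∀ t ∈ Icc 0 τ, E t ≤ Z → ‖f t‖ ≤ F ∧ S.N0 (f t) ≤ a ∧ S.N1 (f t) ≤ a := by
    intro t ht hEt
    have h1 : ‖w t‖ ≤ W := by
      apply hWle
      have : 0 ≤ ‖u t - u 0‖ ^ 2 := by positivity
      rw [hEdef] at hEt
      linarith
    have h2 : ‖u t - u 0‖ ≤ W := by
      apply hWle
      have : 0 ≤ ‖w t‖ ^ 2 := by positivity
      rw [hEdef] at hEt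
      linarith
    have h3 : ‖S.K (f t)‖ ≤ V := by
      calc ‖S.K (f t)‖ ≤ ‖u t‖ := norm_K_le S ε (f t)
        _ = ‖u 0 + (u t - u 0)‖ := by congr 1; abel
        _ ≤ ‖u 0‖ + ‖u t - u 0‖ := norm_add_le _ _
        _ ≤ V := by rw [hV]; exact add_le_add hK0 h2
    have h4 := static_est S h3 h1
    rw [← hF, ← ha] at h4
    exact h4
  have hbound : ∀ t ∈ Icc 0 τ, E t ≤ Z → E' t < Λ := by
    intro t ht hEt
    obtain ⟨_, h0, h1⟩ := static t ht hEt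
    have hc := core S ha0 hε0.le hε1 h0 h1 (p t)
    rw [← hCa] at hc
    have hwp : w t = S.K (p t) - ε • p t := (hep t ht).symm
    have e1 : ⟪w t, w' t⟫ ≤ Ca * ‖w t‖ ^ 2 := by
      rw [real_inner_comm, hwp]
      refine hc.trans ?_
      have := norm_K_le S ε (p t)
      gcongr
    have e2 : 2 * ⟪u t - u 0, w t⟫ ≤ ‖u t - u 0‖ ^ 2 + ‖w t‖ ^ 2 := by
      have h5 := real_inner_le_norm (u t - u 0) (w t)
      nlinarith [sq_nonneg (‖u t - u 0‖ - ‖w t‖)]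
    have e3 : E' t ≤ (2 * Ca + 1) * E t := by
      have h6 : 0 ≤ Ca * ‖u t - u 0‖ ^ 2 := by positivity
      have h7 : (2 * Ca + 1) * (‖w t‖ ^ 2 + ‖u t - u 0‖ ^ 2) = 2 * (Ca * ‖w t‖ ^ 2) + ‖w t‖ ^ 2 +
          2 * (Ca * ‖u t - u 0‖ ^ 2) + ‖u t - u 0‖ ^ 2 := by ring
      change 2 * ⟪w t, w' t⟫ + 2 * ⟪u t - u 0, w t⟫ ≤ (2 * Ca + 1) * (‖w t‖ ^ 2 + ‖u t - u 0‖ ^ 2)
      rw [h7]
      linarith
    have e4 : (2 * Ca + 1) * E t ≤ (2 * Ca + 1) * Z := by gcongr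
    have e5 : Λ = (2 * Ca + 1) * Z + 1 := hΛ
    linarith
  have hE0' : E 0 ≤ E0 := by
    rw [hEdef, sub_self, norm_zero]
    have h1 : ‖w 0‖ ≤ R + ‖S.B‖ * R ^ 2 := by
      calc ‖w 0‖ ≤ ‖f 0‖ + ‖S.B (f 0) (f 0)‖ := norm_sub_le _ _
        _ ≤ R + ‖S.B‖ * R ^ 2 := by
            apply add_le_add hf0
            have := S.B.le_opNorm₂ (f 0) (f 0)
            refine this.trans ?_
            rw [pow_two, ← mul_assoc]
            gcongr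
    have h2 : ‖w 0‖ ^ 2 ≤ E0 := by
      rw [hE0]; gcongr
    linarith
  have hfence : ∀ ⦃t⦄, t ∈ Icc 0 τ → E t ≤ E0 + Λ * t := by
    refine image_le_of_deriv_right_lt_deriv_boundary (f' := E') (B := fun t => E0 + Λ * t)
      (B' := fun _ => Λ) ?_ ?_ ?_ ?_ ?_
    · intro t ht
      exact (hdE t ht).continuousWithinAt
    · intro t ht
      have h1 := hdE t ⟨ht.1, ht.2.le⟩
      have h2 : HasDerivWithinAt E (E' t) (Icc t τ) t :=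
        h1.mono (Icc_subset_Icc_left ht.1)
      exact h2.mono_of_mem_nhdsWithin (Icc_mem_nhdsGE ht.2)
    · simpa using hE0'
    · intro t
      simpa using ((hasDerivAt_id t).const_mul Λ).const_add E0
    · intro t ht hEq
      apply hbound t ⟨ht.1, ht.2.le⟩
      rw [hEq, hZ]
      have : Λ * t ≤ 1 := by
        have h3 : t ≤ 1 / Λ := ht.2.le.trans hτT
        calc Λ * t ≤ Λ * (1 / Λ) := by gcongr
          _ = 1 := by field_simp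
      linarith
  intro t ht
  have hEt : E t ≤ Z := by
    refine (hfence ht).trans ?_
    have : Λ * t ≤ 1 := by
      have h3 : t ≤ 1 / Λ := ht.2.trans hτT
      calc Λ * t ≤ Λ * (1 / Λ) := by gcongr
        _ = 1 := by field_simp
    linarith
  exact (static t ht hEt).1.trans (le_max_right _ _)

/-! ### job 20 -/

/-- Lemma B: if `f 0 = K g₀` then the time derivative `p` is bounded by `c (1 + ‖g₀‖)`, with `c`
independent of `ε`. -/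
lemma bound_p (S : Setting H) {M T : ℝ} (hM : 0 ≤ M) (hT : 0 ≤ T) :
    ∃ c, 0 ≤ c ∧ ∀ ε, 0 < ε → ε ≤ 1 → ∀ f p r : ℝ → H, RSol S ε T f p r →
      (∀ t ∈ Icc 0 T, ‖f t‖ ≤ M) → ∀ g₀ : H, f 0 = S.K g₀ →
      ∀ t ∈ Icc 0 T, ‖p t‖ ≤ c * (1 + ‖g₀‖) := by
  obtain ⟨C, hC⟩ : ∃ C, C = S.C := ⟨_, rfl⟩
  have hC1 : 1 ≤ C := by rw [hC]; exact S.C_one
  have hC0 : 0 ≤ C := by linarith
  obtain ⟨nK, hnK⟩ : ∃ x, x = ‖S.K‖ := ⟨_, rfl⟩
  obtain ⟨nB, hnB⟩ : ∃ x, x = ‖S.B‖ := ⟨_, rfl⟩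
  have hnK0 : 0 ≤ nK := by rw [hnK]; exact norm_nonneg S.K
  have hnB0 : 0 ≤ nB := by rw [hnB]; exact norm_nonneg S.B
  obtain ⟨a, ha⟩ : ∃ x, x = C * (nK + 1) * (M + 1) := ⟨_, rfl⟩
  have ha0 : 0 ≤ a := by rw [ha]; positivity
  obtain ⟨Ca, hCa⟩ : ∃ x, x = a + a ^ 2 + a ^ 4 * C ^ 4 := ⟨_, rfl⟩
  have hCa0 : 0 ≤ Ca := by rw [hCa]; positivity
  obtain ⟨Mw, hMw⟩ : ∃ x, x = M + nB * M ^ 2 := ⟨_, rfl⟩
  have hMw0 : 0 ≤ Mw := by rw [hMw]; positivity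
  obtain ⟨c1, hc1⟩ : ∃ x, x = a ^ 2 * C ^ 2 * Mw + 2 * a * Mw := ⟨_, rfl⟩
  have hc10 : 0 ≤ c1 := by rw [hc1]; positivity
  obtain ⟨c1', hc1'⟩ : ∃ x, x = c1 + C ^ 8 * Mw ^ 5 := ⟨_, rfl⟩
  have hc1'0 : 0 ≤ c1' := by rw [hc1']; positivity
  obtain ⟨c2, hc2⟩ : ∃ x, x = 2 * Ca + 8 + 4 * c1' := ⟨_, rfl⟩
  have hc20 : 0 ≤ c2 := by rw [hc2]; positivity
  obtain ⟨c3, hc3⟩ : ∃ x, x = (1 + 2 * nB * M) * (1 + C * M) := ⟨_, rfl⟩
  have hc30 : 0 ≤ c3 := by rw [hc3]; positivity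
  refine ⟨2 * Real.exp (c2 * T) * (1 + c3) + c1, by positivity, ?_⟩
  intro ε hε0 hε1 f p r hsol hfM g₀ hg₀
  -- bilinear bound
  have hB : ∀ x y, ‖S.B x y‖ ≤ nB * ‖x‖ * ‖y‖ := by
    intro x y; rw [hnB]; exact S.B.le_opNorm₂ x y
  have hK : ∀ x, ‖S.K x‖ ≤ nK * ‖x‖ := by
    intro x; rw [hnK]; exact S.K.le_opNorm x
  -- bounds on N0 f and N1 f
  have hN0 : ∀ x, ‖x‖ ≤ M → S.N0 x ≤ a := by
    intro x hx
    have h1 := S.I0 x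
    have h2 : S.N0 x ^ 4 ≤ a ^ 4 := by
      refine h1.trans ?_
      have hKx : ‖S.K x‖ ≤ (nK + 1) * (M + 1) := by
        refine (hK x).trans ?_
        have := norm_nonneg x
        nlinarith
      have hx' : ‖x‖ ≤ (nK + 1) * (M + 1) := by nlinarith
      have h3 : ‖S.K x‖ ^ 3 * ‖x‖ ≤ ((nK + 1) * (M + 1)) ^ 3 * ((nK + 1) * (M + 1)) := by
        gcongr
      calc S.C ^ 4 * ‖S.K x‖ ^ 3 * ‖x‖ = C ^ 4 * (‖S.K x‖ ^ 3 * ‖x‖) := by rw [hC]; ring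
        _ ≤ C ^ 4 * (((nK + 1) * (M + 1)) ^ 3 * ((nK + 1) * (M + 1))) := by gcongr
        _ = a ^ 4 := by rw [ha]; ring
    exact le_of_pow_le_pow_left₀ (by norm_num) ha0 h2
  have hN1 : ∀ x, ‖x‖ ≤ M → S.N1 x ≤ a := by
    intro x hx
    have h1 := S.I2 x
    have h2 : S.N1 x ^ 4 ≤ a ^ 4 := by
      refine h1.trans ?_
      have hKx : ‖S.K x‖ ≤ (nK + 1) * (M + 1) := by
        refine (hK x).trans ?_
        have := norm_nonneg x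
        nlinarith
      have hx' : ‖x‖ ≤ (nK + 1) * (M + 1) := by nlinarith
      have h3 : ‖S.K x‖ * ‖x‖ ^ 3 ≤ ((nK + 1) * (M + 1)) * ((nK + 1) * (M + 1)) ^ 3 := by
        gcongr
      calc S.C ^ 4 * ‖S.K x‖ * ‖x‖ ^ 3 = C ^ 4 * (‖S.K x‖ * ‖x‖ ^ 3) := by rw [hC]; ring
        _ ≤ C ^ 4 * (((nK + 1) * (M + 1)) * ((nK + 1) * (M + 1)) ^ 3) := by gcongr
        _ = a ^ 4 := by rw [ha]; ring
    exact le_of_pow_le_pow_left₀ (by norm_num) ha0 h2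
  -- bound on K p
  have hKp : ∀ t ∈ Icc 0 T, ‖S.K (p t)‖ ≤ Mw := by
    intro t ht
    refine (norm_K_le S ε (p t)).trans ?_
    rw [hsol.ep t ht]
    calc ‖f t - S.B (f t) (f t)‖ ≤ ‖f t‖ + ‖S.B (f t) (f t)‖ := norm_sub_le _ _
      _ ≤ Mw := by
        rw [hMw]
        have h1 := hB (f t) (f t)
        have h2 := hfM t ht
        have h3 : nB * ‖f t‖ * ‖f t‖ ≤ nB * M * M := by gcongr
        nlinarith
  -- the auxiliary function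
  obtain ⟨z, hz⟩ : ∃ z : ℝ → H, ∀ t, z t = p t - (S.B (f t) (p t) + S.B (p t) (f t)) :=
    ⟨fun t => p t - (S.B (f t) (p t) + S.B (p t) (f t)), fun _ => rfl⟩
  have hzfun : z = fun t => p t - (S.B (f t) (p t) + S.B (p t) (f t)) := funext hz
  -- p in terms of z
  have hpz : ∀ t ∈ Icc 0 T, ‖p t‖ ≤ 2 * ‖z t‖ + c1 := by
    intro t ht
    have hkp := hKp t ht
    have h0 := hN0 (f t) (hfM t ht)
    have h1 := hN1 (f t) (hfM t ht)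
    have hD : ‖S.B (f t) (p t) + S.B (p t) (f t)‖ ≤ a * S.M1 (p t) + a * Mw := by
      calc ‖S.B (f t) (p t) + S.B (p t) (f t)‖
          ≤ ‖S.B (f t) (p t)‖ + ‖S.B (p t) (f t)‖ := norm_add_le _ _
        _ ≤ S.N0 (f t) * S.M1 (p t) + ‖S.K (p t)‖ * S.N1 (f t) :=
          add_le_add (S.B1 _ _) (S.B2 _ _)
        _ ≤ a * S.M1 (p t) + Mw * a := by
          have := S.M1_nonneg (p t)
          have := S.N1_nonneg (f t)
          gcongr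
        _ = _ := by ring
    have hM1 : a * S.M1 (p t) ≤ ‖p t‖ / 2 + a ^ 2 * C ^ 2 * Mw / 2 := by
      have h2 : S.M1 (p t) ^ 2 ≤ C ^ 2 * Mw * ‖p t‖ := by
        refine (S.I1 (p t)).trans ?_
        rw [← hC]
        have := norm_nonneg (p t)
        gcongr
      have h3 : (a * S.M1 (p t)) ^ 2 ≤ (a ^ 2 * C ^ 2 * Mw) * ‖p t‖ := by
        calc (a * S.M1 (p t)) ^ 2 = a ^ 2 * S.M1 (p t) ^ 2 := by ring
          _ ≤ a ^ 2 * (C ^ 2 * Mw * ‖p t‖) := by gcongr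
          _ = _ := by ring
      have h4 : (a * S.M1 (p t)) ^ 2 ≤ (‖p t‖ / 2 + a ^ 2 * C ^ 2 * Mw / 2) ^ 2 := by
        nlinarith [sq_nonneg (‖p t‖ - a ^ 2 * C ^ 2 * Mw)]
      have h5 : 0 ≤ ‖p t‖ / 2 + a ^ 2 * C ^ 2 * Mw / 2 := by positivity
      exact le_of_sq_le_sq h4 h5
    have hsplit : ‖p t‖ ≤ ‖z t‖ + ‖S.B (f t) (p t) + S.B (p t) (f t)‖ := by
      have : p t = z t + (S.B (f t) (p t) + S.B (p t) (f t)) := by
        rw [hz]; abel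
      calc ‖p t‖ = ‖z t + (S.B (f t) (p t) + S.B (p t) (f t))‖ := by rw [← this]
        _ ≤ _ := norm_add_le _ _
    have : c1 = a ^ 2 * C ^ 2 * Mw + 2 * a * Mw := hc1
    linarith
  -- bound on B(p,p)
  have hβ : ∀ t ∈ Icc 0 T, ‖S.B (p t) (p t)‖ ≤ 2 * ‖z t‖ + c1' := by
    intro t ht
    have hkp := hKp t ht
    have hp := hpz t ht
    obtain ⟨β, hβdef⟩ : ∃ β, β = S.N0 (p t) * S.M1 (p t) := ⟨_, rfl⟩
    have hβ0 : 0 ≤ β := by rw [hβdef]; exact mul_nonneg (S.N0_nonneg _) (S.M1_nonneg _)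
    have hβ4 : β ^ 4 ≤ C ^ 8 * Mw ^ 5 * ‖p t‖ ^ 3 := by
      have h1 : S.N0 (p t) ^ 4 ≤ C ^ 4 * Mw ^ 3 * ‖p t‖ := by
        refine (S.I0 (p t)).trans ?_
        rw [← hC]
        gcongr
      have h2 : S.M1 (p t) ^ 2 ≤ C ^ 2 * Mw * ‖p t‖ := by
        refine (S.I1 (p t)).trans ?_
        rw [← hC]
        gcongr
      have h3 : S.M1 (p t) ^ 4 ≤ (C ^ 2 * Mw * ‖p t‖) ^ 2 := by
        have : S.M1 (p t) ^ 4 = (S.M1 (p t) ^ 2) ^ 2 := by ring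
        rw [this]
        gcongr
      calc β ^ 4 = S.N0 (p t) ^ 4 * S.M1 (p t) ^ 4 := by rw [hβdef]; ring
        _ ≤ (C ^ 4 * Mw ^ 3 * ‖p t‖) * (C ^ 2 * Mw * ‖p t‖) ^ 2 := by
          have := S.M1_nonneg (p t)
          gcongr
        _ = _ := by ring
    have hβle : β ≤ ‖p t‖ + C ^ 8 * Mw ^ 5 := by
      by_cases hc : β ≤ ‖p t‖
      · have : 0 ≤ C ^ 8 * Mw ^ 5 := by positivity
        linarith
      · push Not at hc
        have hp0 : 0 ≤ ‖p t‖ := norm_nonneg _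
        have hβpos : 0 < β := lt_of_le_of_lt hp0 hc
        have h5 : ‖p t‖ ^ 3 ≤ β ^ 3 := by gcongr
        have h6 : β ^ 4 ≤ C ^ 8 * Mw ^ 5 * β ^ 3 := by
          refine hβ4.trans ?_
          gcongr
        have h7 : β * β ^ 3 ≤ (C ^ 8 * Mw ^ 5) * β ^ 3 := by
          calc β * β ^ 3 = β ^ 4 := by ring
            _ ≤ _ := h6
        have h8 := le_of_mul_le_mul_right h7 (by positivity)
        linarith
    have hb1 : ‖S.B (p t) (p t)‖ ≤ β := by rw [hβdef]; exact S.B1 _ _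
    have : c1' = c1 + C ^ 8 * Mw ^ 5 := hc1'
    linarith
  -- derivative of z
  have hzd : ∀ t ∈ Icc 0 T, HasDerivWithinAt z
      (r t - (S.B (f t) (r t) + S.B (r t) (f t)) - (2 : ℝ) • S.B (p t) (p t)) (Icc 0 T) t := by
    intro t ht
    have hf := hsol.df t ht
    have hp := hsol.dp t ht
    have hBf : HasDerivWithinAt (fun s => S.B (f s)) (S.B (p t)) (Icc 0 T) t :=
      S.B.hasFDerivAt.comp_hasDerivWithinAt t hf
    have hBp : HasDerivWithinAt (fun s => S.B (p s)) (S.B (r t)) (Icc 0 T) t :=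
      S.B.hasFDerivAt.comp_hasDerivWithinAt t hp
    have h1 : HasDerivWithinAt (fun s => S.B (f s) (p s))
        (S.B (p t) (p t) + S.B (f t) (r t)) (Icc 0 T) t := hBf.clm_apply hp
    have h2 : HasDerivWithinAt (fun s => S.B (p s) (f s))
        (S.B (r t) (f t) + S.B (p t) (p t)) (Icc 0 T) t := hBp.clm_apply hf
    have h3 := hp.sub (h1.add h2)
    rw [hzfun]
    refine h3.congr_deriv ?_
    rw [two_smul]
    abel
  have hzsq : ∀ t ∈ Icc 0 T, HasDerivWithinAt (fun s => ‖z s‖ ^ 2)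
      (2 * ⟪z t, r t - (S.B (f t) (r t) + S.B (r t) (f t)) - (2 : ℝ) • S.B (p t) (p t)⟫)
      (Icc 0 T) t := by
    intro t ht
    exact (hzd t ht).norm_sq
  have hineq : ∀ t ∈ Icc 0 T,
      2 * ⟪z t, r t - (S.B (f t) (r t) + S.B (r t) (f t)) - (2 : ℝ) • S.B (p t) (p t)⟫ ≤
        c2 * (1 + ‖z t‖ ^ 2) := by
    intro t ht
    have hzr : z t = S.K (r t) - ε • r t := by rw [hz]; exact (hsol.er t ht).symm
    have hcore := core S ha0 hε0.le hε1 (hN0 (f t) (hfM t ht)) (hN1 (f t) (hfM t ht)) (r t)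
    rw [← hzr, ← hC, ← hCa] at hcore
    have hKr : ‖S.K (r t)‖ ≤ ‖z t‖ := by
      rw [hzr]; exact norm_K_le S ε (r t)
    have hKr2 : ‖S.K (r t)‖ ^ 2 ≤ ‖z t‖ ^ 2 := by gcongr
    have hinner : ⟪z t, r t - (S.B (f t) (r t) + S.B (r t) (f t)) - (2 : ℝ) • S.B (p t) (p t)⟫ =
        ⟪r t - (S.B (f t) (r t) + S.B (r t) (f t)), z t⟫ - 2 * ⟪z t, S.B (p t) (p t)⟫ := by
      rw [inner_sub_right, inner_smul_right, real_inner_comm]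
    have hcs : -⟪z t, S.B (p t) (p t)⟫ ≤ ‖z t‖ * ‖S.B (p t) (p t)‖ := by
      have := abs_real_inner_le_norm (z t) (S.B (p t) (p t))
      have := neg_abs_le ⟪z t, S.B (p t) (p t)⟫
      linarith
    have hbb := hβ t ht
    have hz0 : 0 ≤ ‖z t‖ := norm_nonneg _
    have h9 : ‖z t‖ * ‖S.B (p t) (p t)‖ ≤ ‖z t‖ * (2 * ‖z t‖ + c1') := by gcongr
    have h10 : Ca * ‖S.K (r t)‖ ^ 2 ≤ Ca * ‖z t‖ ^ 2 := by gcongr
    have h11 : ⟪r t - (S.B (f t) (r t) + S.B (r t) (f t)), z t⟫ ≤ Ca * ‖S.K (r t)‖ ^ 2 := hcore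
    rw [hinner]
    have h12 : c1' * ‖z t‖ ≤ c1' * (1 + ‖z t‖ ^ 2) := by
      apply mul_le_mul_of_nonneg_left _ hc1'0
      nlinarith [sq_nonneg (‖z t‖ - 1)]
    have : c2 = 2 * Ca + 8 + 4 * c1' := hc2
    rw [this]
    nlinarith [sq_nonneg ‖z t‖]
  -- Gronwall
  have hanti : AntitoneOn (fun t => Real.exp (-(c2 * t)) * (1 + ‖z t‖ ^ 2)) (Icc 0 T) := by
    have hder : ∀ t ∈ Icc 0 T, HasDerivWithinAt
        (fun t => Real.exp (-(c2 * t)) * (1 + ‖z t‖ ^ 2))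
        (Real.exp (-(c2 * t)) * (-c2) * (1 + ‖z t‖ ^ 2) + Real.exp (-(c2 * t)) *
          (2 * ⟪z t, r t - (S.B (f t) (r t) + S.B (r t) (f t)) - (2 : ℝ) • S.B (p t) (p t)⟫))
        (Icc 0 T) t := by
      intro t ht
      have h1 : HasDerivAt (fun t : ℝ => Real.exp (-(c2 * t))) (Real.exp (-(c2 * t)) * (-c2)) t := by
        have h2 : HasDerivAt (fun t : ℝ => -(c2 * t)) (-c2) t := by
          have h3 := ((hasDerivAt_id t).const_mul c2).neg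
          rw [mul_one] at h3
          exact h3
        exact h2.exp
      exact h1.hasDerivWithinAt.mul ((hzsq t ht).const_add 1)
    apply antitoneOn_of_hasDerivWithinAt_nonpos (convex_Icc 0 T)
      (fun t ht => (hder t ht).continuousWithinAt)
      (fun t ht => (hder t (interior_subset ht)).mono interior_subset)
    intro t ht
    have h1 := hineq t (interior_subset ht)
    have h2 : 0 < Real.exp (-(c2 * t)) := Real.exp_pos _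
    nlinarith
  -- initial value
  have h0T : (0 : ℝ) ∈ Icc 0 T := ⟨le_rfl, hT⟩
  have hp0 : ‖p 0‖ ≤ (1 + C * M) * ‖g₀‖ := by
    obtain ⟨q, hq1, hq2⟩ := S.R g₀
    have hf0 : ‖S.K g₀‖ ≤ M := by rw [← hg₀]; exact hfM 0 h0T
    have e1 : S.K (p 0) - ε • p 0 = S.K (g₀ - q) := by
      rw [hsol.ep 0 h0T, hg₀, hq1, map_sub]
    have e2 : S.K (p 0 - (g₀ - q)) = ε • p 0 := by
      rw [map_sub, ← e1]; abel
    have e3 : ⟪S.K (p 0 - (g₀ - q)), p 0 - (g₀ - q)⟫ = 0 := by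
      have h := S.skew (p 0 - (g₀ - q)) (p 0 - (g₀ - q))
      have h' := real_inner_comm (S.K (p 0 - (g₀ - q))) (p 0 - (g₀ - q))
      linarith
    rw [e2, inner_smul_left] at e3
    have e4 : ⟪p 0, p 0 - (g₀ - q)⟫ = 0 := by
      rcases mul_eq_zero.mp e3 with h | h
      · exact absurd h (by simpa using hε0.ne')
      · exact h
    rw [inner_sub_right, real_inner_self_eq_norm_sq] at e4
    have e5 : ‖p 0‖ ^ 2 ≤ ‖p 0‖ * ‖g₀ - q‖ := by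
      have := real_inner_le_norm (p 0) (g₀ - q)
      linarith
    have e6 : ‖p 0‖ ≤ ‖g₀ - q‖ := by
      by_cases hz : ‖p 0‖ = 0
      · rw [hz]; exact norm_nonneg _
      · have hpos : 0 < ‖p 0‖ := lt_of_le_of_ne (norm_nonneg _) (Ne.symm hz)
        have : ‖p 0‖ * ‖p 0‖ ≤ ‖p 0‖ * ‖g₀ - q‖ := by nlinarith
        exact le_of_mul_le_mul_left this hpos
    have e7 : ‖q‖ ≤ C * M * ‖g₀‖ := by
      refine hq2.trans ?_
      rw [← hC]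
      gcongr
    calc ‖p 0‖ ≤ ‖g₀ - q‖ := e6
      _ ≤ ‖g₀‖ + ‖q‖ := norm_sub_le _ _
      _ ≤ (1 + C * M) * ‖g₀‖ := by linarith
  have hz0 : ‖z 0‖ ≤ c3 * ‖g₀‖ := by
    have h1 : ‖z 0‖ ≤ (1 + 2 * nB * M) * ‖p 0‖ := by
      have h2 := hB (f 0) (p 0)
      have h3 := hB (p 0) (f 0)
      have h4 := hfM 0 h0T
      have h5 : nB * ‖f 0‖ * ‖p 0‖ ≤ nB * M * ‖p 0‖ := by gcongr
      have h6 : nB * ‖p 0‖ * ‖f 0‖ ≤ nB * ‖p 0‖ * M := by gcongr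
      calc ‖z 0‖ ≤ ‖p 0‖ + ‖S.B (f 0) (p 0) + S.B (p 0) (f 0)‖ := by
            rw [hz]; exact norm_sub_le _ _
        _ ≤ ‖p 0‖ + (‖S.B (f 0) (p 0)‖ + ‖S.B (p 0) (f 0)‖) := by
          gcongr; exact norm_add_le _ _
        _ ≤ (1 + 2 * nB * M) * ‖p 0‖ := by nlinarith
    calc ‖z 0‖ ≤ (1 + 2 * nB * M) * ‖p 0‖ := h1
      _ ≤ (1 + 2 * nB * M) * ((1 + C * M) * ‖g₀‖) := by gcongr
      _ = c3 * ‖g₀‖ := by rw [hc3]; ring
  -- conclusion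
  intro t ht
  have h1 := hanti h0T ht ht.1
  simp only [mul_zero, neg_zero, Real.exp_zero, one_mul] at h1
  have hexp : Real.exp (-(c2 * t)) * Real.exp (c2 * t) = 1 := by
    rw [← Real.exp_add]; simp
  have hexpT : Real.exp (c2 * t) ≤ Real.exp (c2 * T) := by
    apply Real.exp_le_exp.mpr
    exact mul_le_mul_of_nonneg_left ht.2 hc20
  have hE1 : 1 ≤ Real.exp (c2 * T) := Real.one_le_exp (by positivity)
  have h2 : 1 + ‖z t‖ ^ 2 ≤ Real.exp (c2 * T) * (1 + ‖z 0‖ ^ 2) := by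
    have h3 : 1 + ‖z t‖ ^ 2 ≤ Real.exp (c2 * t) * (1 + ‖z 0‖ ^ 2) := by
      have hpos : 0 < Real.exp (c2 * t) := Real.exp_pos _
      have := mul_le_mul_of_nonneg_left h1 hpos.le
      calc 1 + ‖z t‖ ^ 2 = Real.exp (c2 * t) * (Real.exp (-(c2 * t)) * (1 + ‖z t‖ ^ 2)) := by
            rw [← mul_assoc, mul_comm (Real.exp (c2 * t)), hexp, one_mul]
        _ ≤ _ := this
    refine h3.trans ?_
    gcongr
  have hzt : ‖z t‖ ≤ Real.exp (c2 * T) * (1 + ‖z 0‖) := by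
    have hz0' : 0 ≤ ‖z 0‖ := norm_nonneg _
    have h4 : ‖z t‖ ^ 2 ≤ (Real.exp (c2 * T) * (1 + ‖z 0‖)) ^ 2 := by
      calc ‖z t‖ ^ 2 ≤ Real.exp (c2 * T) * (1 + ‖z 0‖ ^ 2) := by linarith
        _ ≤ Real.exp (c2 * T) ^ 2 * (1 + ‖z 0‖) ^ 2 := by
          apply mul_le_mul
          · nlinarith
          · nlinarith
          · positivity
          · positivity
        _ = _ := by ring
    exact le_of_sq_le_sq h4 (by positivity)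
  have hpt := hpz t ht
  have hg0 : 0 ≤ ‖g₀‖ := norm_nonneg _
  have hEpos : 0 < Real.exp (c2 * T) := Real.exp_pos _
  calc ‖p t‖ ≤ 2 * ‖z t‖ + c1 := hpt
    _ ≤ 2 * (Real.exp (c2 * T) * (1 + ‖z 0‖)) + c1 := by linarith
    _ ≤ 2 * (Real.exp (c2 * T) * (1 + c3 * ‖g₀‖)) + c1 := by gcongr
    _ ≤ (2 * Real.exp (c2 * T) * (1 + c3) + c1) * (1 + ‖g₀‖) := by
      have e1 : (2 * Real.exp (c2 * T) * (1 + c3) + c1) * (1 + ‖g₀‖) -
          (2 * (Real.exp (c2 * T) * (1 + c3 * ‖g₀‖)) + c1) =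
          2 * Real.exp (c2 * T) * (c3 + ‖g₀‖) + c1 * ‖g₀‖ := by ring
      have e2 : 0 ≤ 2 * Real.exp (c2 * T) * (c3 + ‖g₀‖) + c1 * ‖g₀‖ := by positivity
      linarith

/-! ### job 21 -/


/-- Gronwall inequality in differential form on `[0,T]`. -/
lemma gronwall_C {T A b : ℝ} (hA : 0 ≤ A) (hb : 0 ≤ b) {u u' : ℝ → ℝ}
    (hd : ∀ t ∈ Icc 0 T, HasDerivWithinAt u (u' t) (Icc 0 T) t)
    (hu : ∀ t ∈ Icc 0 T, u' t ≤ A * u t + b) :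
    ∀ t ∈ Icc 0 T, u t ≤ Real.exp (A * t) * (u 0 + b * t) := by
  intro t ht
  have hT : 0 ≤ T := ht.1.trans ht.2
  set v : ℝ → ℝ := fun s => Real.exp (-(A * s)) * u s - b * s with hv
  have hdv : ∀ s ∈ Icc 0 T, HasDerivWithinAt v
      ((Real.exp (-(A * s)) * (-(A * 1))) * u s + Real.exp (-(A * s)) * u' s - b * 1) (Icc 0 T) s := by
    intro s hs
    have h1 : HasDerivWithinAt (fun s : ℝ => Real.exp (-(A * s)))
        (Real.exp (-(A * s)) * (-(A * 1))) (Icc 0 T) s :=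
      (((hasDerivWithinAt_id s _).const_mul A).neg).exp
    exact (h1.mul (hd s hs)).sub ((hasDerivWithinAt_id s _).const_mul b)
  have hanti : AntitoneOn v (Icc 0 T) := by
    apply antitoneOn_of_deriv_nonpos (convex_Icc 0 T)
    · intro s hs
      exact (hdv s hs).continuousWithinAt
    · intro s hs
      rw [interior_Icc] at hs ⊢
      exact ((hdv s (Ioo_subset_Icc_self hs)).mono Ioo_subset_Icc_self).differentiableWithinAt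
    · intro s hs
      rw [interior_Icc] at hs
      have h1 := (hdv s (Ioo_subset_Icc_self hs)).hasDerivAt (Icc_mem_nhds hs.1 hs.2)
      rw [h1.deriv]
      have h2 := hu s (Ioo_subset_Icc_self hs)
      have h3 : Real.exp (-(A * s)) ≤ 1 := by
        apply Real.exp_le_one_iff.2
        have := mul_nonneg hA hs.1.le
        linarith
      have h4 : 0 < Real.exp (-(A * s)) := Real.exp_pos _
      have h5 : Real.exp (-(A * s)) * (u' s - A * u s) ≤ Real.exp (-(A * s)) * b := by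
        apply mul_le_mul_of_nonneg_left _ h4.le
        linarith
      have h6 : Real.exp (-(A * s)) * b ≤ 1 * b := mul_le_mul_of_nonneg_right h3 hb
      nlinarith
  have h := hanti (left_mem_Icc.2 hT) ht ht.1
  simp only [hv, mul_zero, neg_zero, Real.exp_zero, one_mul, sub_zero] at h
  have h1 : Real.exp (-(A * t)) * u t ≤ u 0 + b * t := by linarith
  have h2 : 0 < Real.exp (A * t) := Real.exp_pos _
  calc u t = Real.exp (A * t) * (Real.exp (-(A * t)) * u t) := by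
        rw [← mul_assoc, ← Real.exp_add]; simp
    _ ≤ _ := mul_le_mul_of_nonneg_left h1 h2.le

lemma bil_sub (S : Setting H) (f g : H) :
    S.B f f - S.B g g = S.B ((1 / 2 : ℝ) • (f + g)) (f - g) + S.B (f - g) ((1 / 2 : ℝ) • (f + g)) := by
  simp only [map_add, map_sub, map_smul, _root_.add_apply, _root_.sub_apply, _root_.smul_apply]
  module


lemma le_succ_sq {x : ℝ} (hx : 0 ≤ x) : x ≤ (x + 1) ^ 2 := by nlinarith

lemma a_bound (S : Setting H) {M : ℝ} (hM : 0 ≤ M) {f : H} (hf : ‖f‖ ≤ M) :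
    S.N0 f ≤ S.C * (‖S.K‖ + 1) * (M + 1) ∧ S.N1 f ≤ S.C * (‖S.K‖ + 1) * (M + 1) := by
  have hC := S.C_one
  have hC0 : 0 ≤ S.C := by linarith
  have hK0 : 0 ≤ ‖S.K‖ := norm_nonneg _
  have hKf : ‖S.K f‖ ≤ (‖S.K‖ + 1) * (M + 1) := by
    calc ‖S.K f‖ ≤ ‖S.K‖ * ‖f‖ := S.K.le_opNorm f
      _ ≤ (‖S.K‖ + 1) * (M + 1) := by gcongr <;> linarith
  have hf' : ‖f‖ ≤ (‖S.K‖ + 1) * (M + 1) := by
    calc ‖f‖ ≤ 1 * (M + 1) := by linarith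
      _ ≤ (‖S.K‖ + 1) * (M + 1) := by gcongr; linarith
  set y := (‖S.K‖ + 1) * (M + 1) with hy
  have hy0 : 0 ≤ y := by positivity
  have e : S.C * (‖S.K‖ + 1) * (M + 1) = S.C * y := by rw [hy]; ring
  rw [e]
  constructor
  · rw [← pow_le_pow_iff_left₀ (S.N0_nonneg f) (by positivity) (n := 4) (by norm_num)]
    calc S.N0 f ^ 4 ≤ S.C ^ 4 * ‖S.K f‖ ^ 3 * ‖f‖ := S.I0 f
      _ ≤ S.C ^ 4 * y ^ 3 * y := by gcongr
      _ = (S.C * y) ^ 4 := by ring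
  · rw [← pow_le_pow_iff_left₀ (S.N1_nonneg f) (by positivity) (n := 4) (by norm_num)]
    calc S.N1 f ^ 4 ≤ S.C ^ 4 * ‖S.K f‖ * ‖f‖ ^ 3 := S.I2 f
      _ ≤ S.C ^ 4 * y * y ^ 3 := by gcongr
      _ = (S.C * y) ^ 4 := by ring

lemma interp_bound (S : Setting H) {M c κ : ℝ} (hM : 0 ≤ M) (hc : 0 ≤ c) (hκ : 0 < κ)
    {e : H} (he : ‖e‖ ≤ 2 * M) (hKe : ‖S.K e‖ ≤ c * κ ^ 4) :
    S.N0 e ≤ S.C * (c + 1) * (2 * M + 1) * κ ^ 3 ∧ S.N1 e ≤ S.C * (c + 1) * (2 * M + 1) * κ ∧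
      S.M1 e ≤ S.C * (c + 1) * (2 * M + 1) * κ ^ 2 := by
  have hC := S.C_one
  have hC0 : 0 ≤ S.C := by linarith
  set y := (c + 1) * (2 * M + 1) with hy
  have hy0 : 0 ≤ y := by positivity
  have hcy : c ≤ y := by nlinarith [mul_nonneg hc hM]
  have hMy : 2 * M ≤ y := by nlinarith [mul_nonneg hc hM]
  have e1 : S.C * (c + 1) * (2 * M + 1) = S.C * y := by rw [hy]; ring
  have hKe' : ‖S.K e‖ ≤ y * κ ^ 4 := hKe.trans (by gcongr)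
  have he' : ‖e‖ ≤ y := he.trans hMy
  rw [e1]
  refine ⟨?_, ?_, ?_⟩
  · rw [← pow_le_pow_iff_left₀ (S.N0_nonneg e) (by positivity) (n := 4) (by norm_num)]
    calc S.N0 e ^ 4 ≤ S.C ^ 4 * ‖S.K e‖ ^ 3 * ‖e‖ := S.I0 e
      _ ≤ S.C ^ 4 * (y * κ ^ 4) ^ 3 * y := by gcongr
      _ = (S.C * y * κ ^ 3) ^ 4 := by ring
  · rw [← pow_le_pow_iff_left₀ (S.N1_nonneg e) (by positivity) (n := 4) (by norm_num)]
    calc S.N1 e ^ 4 ≤ S.C ^ 4 * ‖S.K e‖ * ‖e‖ ^ 3 := S.I2 e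
      _ ≤ S.C ^ 4 * (y * κ ^ 4) * y ^ 3 := by gcongr
      _ = (S.C * y * κ) ^ 4 := by ring
  · rw [← pow_le_pow_iff_left₀ (S.M1_nonneg e) (by positivity) (n := 2) (by norm_num)]
    calc S.M1 e ^ 2 ≤ S.C ^ 2 * ‖S.K e‖ * ‖e‖ := S.I1 e
      _ ≤ S.C ^ 2 * (y * κ ^ 4) * y := by gcongr
      _ = (S.C * y * κ ^ 2) ^ 2 := by ring

lemma B_norm_le (S : Setting H) {M : ℝ} {f g : H} (hf : ‖f‖ ≤ M) :
    ‖S.B f g‖ ≤ ‖S.B‖ * M * ‖g‖ ∧ ‖S.B g f‖ ≤ ‖S.B‖ * M * ‖g‖ := by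
  constructor
  · calc ‖S.B f g‖ ≤ ‖S.B‖ * ‖f‖ * ‖g‖ := S.B.le_opNorm₂ f g
      _ ≤ _ := by gcongr
  · calc ‖S.B g f‖ ≤ ‖S.B‖ * ‖g‖ * ‖f‖ := S.B.le_opNorm₂ g f
      _ ≤ ‖S.B‖ * ‖g‖ * M := by gcongr
      _ = _ := by ring

/-- Lemma C: comparison of two solutions of the regularised problem with the same `ε`, the second
one being smoother. -/
lemma bona_smith (S : Setting H) {M T Λ : ℝ} (hM : 0 ≤ M) (hT : 0 ≤ T) (hΛ : 0 ≤ Λ) :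
    ∃ c, 0 ≤ c ∧ ∀ ε κ, 0 < ε → ε ≤ 1 → 0 < κ → κ ≤ 1 →
      ∀ f₁ p₁ r₁ f₂ p₂ r₂ : ℝ → H, RSol S ε T f₁ p₁ r₁ → RSol S ε T f₂ p₂ r₂ →
      (∀ t ∈ Icc 0 T, ‖f₁ t‖ ≤ M) → (∀ t ∈ Icc 0 T, ‖f₂ t‖ ≤ M) →
      (∀ t ∈ Icc 0 T, ‖p₂ t‖ ≤ Λ / κ ^ 4) →
      ‖S.K (f₁ 0 - f₂ 0) - ε • (f₁ 0 - f₂ 0)‖ ≤ Λ * κ ^ 4 →
      ∀ t ∈ Icc 0 T, ‖f₁ t - f₂ t‖ ≤ c * (‖f₁ 0 - f₂ 0‖ + κ) := by
  have hC := S.C_one
  have hC0 : 0 ≤ S.C := by linarith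
  obtain ⟨a, ha⟩ : ∃ x : ℝ, x = S.C * (‖S.K‖ + 1) * (M + 1) := ⟨_, rfl⟩
  have ha0 : 0 ≤ a := by rw [ha]; positivity
  obtain ⟨Ca, hCa⟩ : ∃ x : ℝ, x = a + a ^ 2 + a ^ 4 * S.C ^ 4 := ⟨_, rfl⟩
  have hCa0 : 0 ≤ Ca := by rw [hCa]; positivity
  obtain ⟨c1, hc1⟩ : ∃ x : ℝ, x = Real.exp (2 * Ca * T) * Λ := ⟨_, rfl⟩
  have hc10 : 0 ≤ c1 := by rw [hc1]; positivity
  obtain ⟨c2, hc2⟩ : ∃ x : ℝ, x = S.C * (c1 + 1) * (2 * M + 1) := ⟨_, rfl⟩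
  have hc20 : 0 ≤ c2 := by rw [hc2]; positivity
  obtain ⟨Mw, hMw⟩ : ∃ x : ℝ, x = M + ‖S.B‖ * M * M := ⟨_, rfl⟩
  have hMw0 : 0 ≤ Mw := by rw [hMw]; positivity
  obtain ⟨c3, hc3⟩ : ∃ x : ℝ, x = S.C * (Mw + 1) * (Λ + 1) := ⟨_, rfl⟩
  have hc30 : 0 ≤ c3 := by rw [hc3]; positivity
  obtain ⟨c4, hc4⟩ : ∃ x : ℝ, x = c2 * c3 + Mw * c2 := ⟨_, rfl⟩
  have hc40 : 0 ≤ c4 := by rw [hc4]; positivity
  obtain ⟨c5, hc5⟩ : ∃ x : ℝ, x = Real.exp ((2 * Ca + 1) * T) * (1 + c4 * (T + 1)) := ⟨_, rfl⟩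
  have hc50 : 0 ≤ c5 := by rw [hc5]; positivity
  have hab : ∀ f : H, ‖f‖ ≤ M → S.N0 f ≤ a ∧ S.N1 f ≤ a := by
    intro f hf; rw [ha]; exact a_bound S hM hf
  have hib : ∀ κ : ℝ, 0 < κ → ∀ e : H, ‖e‖ ≤ 2 * M → ‖S.K e‖ ≤ c1 * κ ^ 4 →
      S.N0 e ≤ c2 * κ ^ 3 ∧ S.N1 e ≤ c2 * κ ∧ S.M1 e ≤ c2 * κ ^ 2 := by
    intro κ hκ e he hKe; rw [hc2]; exact interp_bound S hM hc10 hκ he hKe
  have hcore : ∀ ε : ℝ, 0 ≤ ε → ε ≤ 1 → ∀ f : H, ‖f‖ ≤ M → ∀ π : H,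
      ⟪π - (S.B f π + S.B π f), S.K π - ε • π⟫ ≤ Ca * ‖S.K π - ε • π‖ ^ 2 := by
    intro ε hε0 hε1 f hf π
    have h3 := core S ha0 hε0 hε1 (hab f hf).1 (hab f hf).2 π
    rw [← hCa] at h3
    refine h3.trans ?_
    have h4 := norm_K_le S ε π
    gcongr
  refine ⟨c5 * (1 + 2 * ‖S.B‖ * M) + a * (c2 + c1), by positivity, ?_⟩
  intro ε κ hε hε1 hκ hκ1 f₁ p₁ r₁ f₂ p₂ r₂ h1 h2 hf1 hf2 hp2 h0
  have h0T : (0 : ℝ) ∈ Icc 0 T := left_mem_Icc.2 hT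
  -- the mean
  have hs : ∀ t ∈ Icc 0 T, ‖(1 / 2 : ℝ) • (f₁ t + f₂ t)‖ ≤ M := by
    intro t ht
    rw [norm_smul]
    have h3 := norm_add_le (f₁ t) (f₂ t)
    have h4 := hf1 t ht
    have h5 := hf2 t ht
    norm_num
    linarith
  have he2 : ∀ t ∈ Icc 0 T, ‖f₁ t - f₂ t‖ ≤ 2 * M := by
    intro t ht
    have h3 := norm_sub_le (f₁ t) (f₂ t)
    have h4 := hf1 t ht
    have h5 := hf2 t ht
    linarith
  -- Step 1
  have hΔd : ∀ t ∈ Icc 0 T, HasDerivWithinAt (fun t => S.K (f₁ t - f₂ t) - ε • (f₁ t - f₂ t))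
      (S.K (p₁ t - p₂ t) - ε • (p₁ t - p₂ t)) (Icc 0 T) t := by
    intro t ht
    have h3 := (h1.df t ht).sub (h2.df t ht)
    exact (S.K.hasFDerivAt.comp_hasDerivWithinAt t h3).sub (h3.const_smul ε)
  have hW : ∀ t ∈ Icc 0 T, S.K (p₁ t - p₂ t) - ε • (p₁ t - p₂ t) =
      (f₁ t - f₂ t) - (S.B ((1 / 2 : ℝ) • (f₁ t + f₂ t)) (f₁ t - f₂ t) +
        S.B (f₁ t - f₂ t) ((1 / 2 : ℝ) • (f₁ t + f₂ t))) := by
    intro t ht
    have h3 := h1.ep t ht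
    have h4 := h2.ep t ht
    have h5 := bil_sub S (f₁ t) (f₂ t)
    rw [← h5]
    rw [map_sub, smul_sub]
    calc S.K (p₁ t) - S.K (p₂ t) - (ε • p₁ t - ε • p₂ t)
        = (S.K (p₁ t) - ε • p₁ t) - (S.K (p₂ t) - ε • p₂ t) := by abel
      _ = _ := by rw [h3, h4]; abel
  have hstep1 : ∀ t ∈ Icc 0 T, ‖S.K (f₁ t - f₂ t) - ε • (f₁ t - f₂ t)‖ ≤ c1 * κ ^ 4 := by
    have hg := gronwall_C (A := 2 * Ca) (b := 0) (T := T) (by positivity) le_rfl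
      (u := fun t => ‖S.K (f₁ t - f₂ t) - ε • (f₁ t - f₂ t)‖ ^ 2)
      (fun t ht => (hΔd t ht).norm_sq) (by
        intro t ht
        rw [hW t ht, real_inner_comm]
        have h3 := hcore ε hε.le hε1 _ (hs t ht) (f₁ t - f₂ t)
        simp only [add_zero]
        linarith)
    intro t ht
    have h3 := hg t ht
    simp only [zero_mul, add_zero] at h3
    rw [← pow_le_pow_iff_left₀ (norm_nonneg _) (by positivity) (n := 2) (by norm_num)]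
    have h4 : Real.exp (2 * Ca * t) ≤ Real.exp (2 * Ca * T) ^ 2 := by
      rw [← Real.exp_nat_mul]
      apply Real.exp_le_exp.2
      have h5 : 2 * Ca * t ≤ 2 * Ca * T := by
        have := ht.2
        gcongr
      have h6 : 0 ≤ 2 * Ca * T := by positivity
      push_cast
      linarith
    calc ‖S.K (f₁ t - f₂ t) - ε • (f₁ t - f₂ t)‖ ^ 2
        ≤ Real.exp (2 * Ca * t) * ‖S.K (f₁ 0 - f₂ 0) - ε • (f₁ 0 - f₂ 0)‖ ^ 2 := h3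
      _ ≤ Real.exp (2 * Ca * T) ^ 2 * (Λ * κ ^ 4) ^ 2 := by gcongr
      _ = (c1 * κ ^ 4) ^ 2 := by rw [hc1]; ring
  have hKe : ∀ t ∈ Icc 0 T, ‖S.K (f₁ t - f₂ t)‖ ≤ c1 * κ ^ 4 := fun t ht =>
    (norm_K_le S ε _).trans (hstep1 t ht)
  -- Step 2
  have hWd : ∀ t ∈ Icc 0 T, HasDerivWithinAt (fun t => S.K (p₁ t - p₂ t) - ε • (p₁ t - p₂ t))
      (S.K (r₁ t - r₂ t) - ε • (r₁ t - r₂ t)) (Icc 0 T) t := by
    intro t ht
    have h3 := (h1.dp t ht).sub (h2.dp t ht)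
    exact (S.K.hasFDerivAt.comp_hasDerivWithinAt t h3).sub (h3.const_smul ε)
  have hR : ∀ t ∈ Icc 0 T, S.K (r₁ t - r₂ t) - ε • (r₁ t - r₂ t) =
      ((p₁ t - p₂ t) - (S.B (f₁ t) (p₁ t - p₂ t) + S.B (p₁ t - p₂ t) (f₁ t))) -
        (S.B (f₁ t - f₂ t) (p₂ t) + S.B (p₂ t) (f₁ t - f₂ t)) := by
    intro t ht
    have h3 := h1.er t ht
    have h4 := h2.er t ht
    have h5 : S.K (r₁ t - r₂ t) - ε • (r₁ t - r₂ t) =
        (S.K (r₁ t) - ε • r₁ t) - (S.K (r₂ t) - ε • r₂ t) := by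
      rw [map_sub, smul_sub]; abel
    rw [h5, h3, h4]
    simp only [map_sub, _root_.sub_apply]
    abel
  have hD2 : ∀ t ∈ Icc 0 T, ‖S.B (f₁ t - f₂ t) (p₂ t) + S.B (p₂ t) (f₁ t - f₂ t)‖ ≤ c4 * κ := by
    intro t ht
    obtain ⟨i0, i1, i2⟩ := hib κ hκ _ (he2 t ht) (hKe t ht)
    have hKp : ‖S.K (p₂ t)‖ ≤ Mw := by
      calc ‖S.K (p₂ t)‖ ≤ ‖S.K (p₂ t) - ε • p₂ t‖ := norm_K_le S ε _
        _ = ‖f₂ t - S.B (f₂ t) (f₂ t)‖ := by rw [h2.ep t ht]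
        _ ≤ ‖f₂ t‖ + ‖S.B (f₂ t) (f₂ t)‖ := norm_sub_le _ _
        _ ≤ ‖f₂ t‖ + ‖S.B‖ * M * ‖f₂ t‖ := by
            gcongr
            exact (B_norm_le S (hf2 t ht)).1
        _ ≤ M + ‖S.B‖ * M * M := by
            have := hf2 t ht
            gcongr
        _ = Mw := hMw.symm
    have hMp : S.M1 (p₂ t) ≤ c3 / κ ^ 2 := by
      rw [← pow_le_pow_iff_left₀ (S.M1_nonneg _) (by positivity) (n := 2) (by norm_num)]
      calc S.M1 (p₂ t) ^ 2 ≤ S.C ^ 2 * ‖S.K (p₂ t)‖ * ‖p₂ t‖ := S.I1 _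
        _ ≤ S.C ^ 2 * Mw * (Λ / κ ^ 4) := by
            have := hp2 t ht
            gcongr
        _ ≤ S.C ^ 2 * ((Mw + 1) ^ 2) * ((Λ + 1) ^ 2 / κ ^ 4) := by
            gcongr
            · exact le_succ_sq hMw0
            · exact le_succ_sq hΛ
        _ = (c3 / κ ^ 2) ^ 2 := by rw [hc3]; field_simp
    calc ‖S.B (f₁ t - f₂ t) (p₂ t) + S.B (p₂ t) (f₁ t - f₂ t)‖
        ≤ ‖S.B (f₁ t - f₂ t) (p₂ t)‖ + ‖S.B (p₂ t) (f₁ t - f₂ t)‖ := norm_add_le _ _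
      _ ≤ S.N0 (f₁ t - f₂ t) * S.M1 (p₂ t) + ‖S.K (p₂ t)‖ * S.N1 (f₁ t - f₂ t) :=
          add_le_add (S.B1 _ _) (S.B2 _ _)
      _ ≤ (c2 * κ ^ 3) * (c3 / κ ^ 2) + Mw * (c2 * κ) := by
          have := S.M1_nonneg (p₂ t)
          have := S.N1_nonneg (f₁ t - f₂ t)
          gcongr
      _ = c4 * κ := by rw [hc4]; field_simp
  have hstep2 : ∀ t ∈ Icc 0 T, ‖S.K (p₁ t - p₂ t) - ε • (p₁ t - p₂ t)‖ ≤
      c5 * (‖S.K (p₁ 0 - p₂ 0) - ε • (p₁ 0 - p₂ 0)‖ + κ) := by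
    have hg := gronwall_C (A := 2 * Ca + 1) (b := (c4 * κ) ^ 2) (T := T) (by positivity)
      (by positivity)
      (u := fun t => ‖S.K (p₁ t - p₂ t) - ε • (p₁ t - p₂ t)‖ ^ 2)
      (fun t ht => (hWd t ht).norm_sq) (by
        intro t ht
        rw [hR t ht, real_inner_comm, inner_sub_left]
        have h3 := hcore ε hε.le hε1 _ (hf1 t ht) (p₁ t - p₂ t)
        have h7 := (abs_le.1 (abs_real_inner_le_norm
          (S.B (f₁ t - f₂ t) (p₂ t) + S.B (p₂ t) (f₁ t - f₂ t))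
          (S.K (p₁ t - p₂ t) - ε • (p₁ t - p₂ t)))).1
        have h8 := hD2 t ht
        set X := ‖S.K (p₁ t - p₂ t) - ε • (p₁ t - p₂ t)‖ with hX
        have hX0 : 0 ≤ X := norm_nonneg _
        have h9 : ‖S.B (f₁ t - f₂ t) (p₂ t) + S.B (p₂ t) (f₁ t - f₂ t)‖ * X ≤ c4 * κ * X := by
          gcongr
        have h10 : 2 * (c4 * κ) * X ≤ (c4 * κ) ^ 2 + X ^ 2 := two_mul_le_add_sq _ _
        linarith)
    intro t ht
    have h3 := hg t ht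
    rw [← pow_le_pow_iff_left₀ (norm_nonneg _) (by positivity) (n := 2) (by norm_num)]
    set X := ‖S.K (p₁ 0 - p₂ 0) - ε • (p₁ 0 - p₂ 0)‖ with hX
    have hX0 : 0 ≤ X := norm_nonneg _
    have ht0 := ht.1
    have h4 : Real.exp ((2 * Ca + 1) * t) ≤ Real.exp ((2 * Ca + 1) * T) ^ 2 := by
      rw [← Real.exp_nat_mul]
      apply Real.exp_le_exp.2
      have h5 : (2 * Ca + 1) * t ≤ (2 * Ca + 1) * T := by
        have := ht.2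
        gcongr
      have h6 : 0 ≤ (2 * Ca + 1) * T := by positivity
      push_cast
      linarith
    have h5 : X ^ 2 + (c4 * κ) ^ 2 * t ≤ ((1 + c4 * (T + 1)) * (X + κ)) ^ 2 := by
      have h6 : (c4 * κ) ^ 2 * t ≤ (c4 * (T + 1)) ^ 2 * (X + κ) ^ 2 := by
        have h7 : t ≤ (T + 1) ^ 2 := by
          have := ht.2
          have := sq_nonneg T
          have : (T + 1) ^ 2 = T ^ 2 + 2 * T + 1 := by ring
          linarith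
        calc (c4 * κ) ^ 2 * t ≤ (c4 * κ) ^ 2 * (T + 1) ^ 2 := by gcongr
          _ = (c4 * (T + 1)) ^ 2 * κ ^ 2 := by ring
          _ ≤ (c4 * (T + 1)) ^ 2 * (X + κ) ^ 2 := by gcongr; linarith
      have h7 : X ^ 2 ≤ (X + κ) ^ 2 := by gcongr; linarith
      have h8 : 0 ≤ 2 * (c4 * (T + 1)) * (X + κ) ^ 2 := by positivity
      calc X ^ 2 + (c4 * κ) ^ 2 * t ≤ (X + κ) ^ 2 + (c4 * (T + 1)) ^ 2 * (X + κ) ^ 2 +
            2 * (c4 * (T + 1)) * (X + κ) ^ 2 := by linarith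
        _ = ((1 + c4 * (T + 1)) * (X + κ)) ^ 2 := by ring
    calc ‖S.K (p₁ t - p₂ t) - ε • (p₁ t - p₂ t)‖ ^ 2
        ≤ Real.exp ((2 * Ca + 1) * t) * (X ^ 2 + (c4 * κ) ^ 2 * t) := h3
      _ ≤ Real.exp ((2 * Ca + 1) * T) ^ 2 * ((1 + c4 * (T + 1)) * (X + κ)) ^ 2 := by gcongr
      _ = (c5 * (X + κ)) ^ 2 := by rw [hc5]; ring
  have hW0 : ‖S.K (p₁ 0 - p₂ 0) - ε • (p₁ 0 - p₂ 0)‖ ≤ (1 + 2 * ‖S.B‖ * M) * ‖f₁ 0 - f₂ 0‖ := by
    rw [hW 0 h0T]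
    obtain ⟨b1, b2⟩ := B_norm_le S (g := f₁ 0 - f₂ 0) (hs 0 h0T)
    calc _ ≤ ‖f₁ 0 - f₂ 0‖ + ‖S.B ((1 / 2 : ℝ) • (f₁ 0 + f₂ 0)) (f₁ 0 - f₂ 0) +
        S.B (f₁ 0 - f₂ 0) ((1 / 2 : ℝ) • (f₁ 0 + f₂ 0))‖ := norm_sub_le _ _
      _ ≤ ‖f₁ 0 - f₂ 0‖ + (‖S.B‖ * M * ‖f₁ 0 - f₂ 0‖ + ‖S.B‖ * M * ‖f₁ 0 - f₂ 0‖) := by
          gcongr
          exact (norm_add_le _ _).trans (add_le_add b1 b2)
      _ = _ := by ring
  -- Step 3
  intro t ht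
  obtain ⟨i0, i1, i2⟩ := hib κ hκ _ (he2 t ht) (hKe t ht)
  obtain ⟨a0, a1⟩ := hab _ (hs t ht)
  have h3 := hW t ht
  have h4 : f₁ t - f₂ t = (S.K (p₁ t - p₂ t) - ε • (p₁ t - p₂ t)) +
      (S.B ((1 / 2 : ℝ) • (f₁ t + f₂ t)) (f₁ t - f₂ t) +
        S.B (f₁ t - f₂ t) ((1 / 2 : ℝ) • (f₁ t + f₂ t))) := by
    rw [h3]; abel
  have hκ2 : κ ^ 2 ≤ κ := by
    calc κ ^ 2 ≤ κ ^ 1 := pow_le_pow_of_le_one hκ.le hκ1 (by norm_num)
      _ = κ := pow_one κ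
  have hκ4 : κ ^ 4 ≤ κ := by
    calc κ ^ 4 ≤ κ ^ 1 := pow_le_pow_of_le_one hκ.le hκ1 (by norm_num)
      _ = κ := pow_one κ
  calc ‖f₁ t - f₂ t‖ = ‖(S.K (p₁ t - p₂ t) - ε • (p₁ t - p₂ t)) +
      (S.B ((1 / 2 : ℝ) • (f₁ t + f₂ t)) (f₁ t - f₂ t) +
        S.B (f₁ t - f₂ t) ((1 / 2 : ℝ) • (f₁ t + f₂ t)))‖ := by rw [← h4]
    _ ≤ ‖S.K (p₁ t - p₂ t) - ε • (p₁ t - p₂ t)‖ +
        (‖S.B ((1 / 2 : ℝ) • (f₁ t + f₂ t)) (f₁ t - f₂ t)‖ +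
        ‖S.B (f₁ t - f₂ t) ((1 / 2 : ℝ) • (f₁ t + f₂ t))‖) := by
        refine (norm_add_le _ _).trans ?_
        gcongr
        exact norm_add_le _ _
    _ ≤ c5 * ((1 + 2 * ‖S.B‖ * M) * ‖f₁ 0 - f₂ 0‖ + κ) +
        (a * (c2 * κ ^ 2) + (c1 * κ ^ 4) * a) := by
        have k1 := hstep2 t ht
        have k2 : S.N0 ((1 / 2 : ℝ) • (f₁ t + f₂ t)) * S.M1 (f₁ t - f₂ t) ≤ a * (c2 * κ ^ 2) := by
          have := S.M1_nonneg (f₁ t - f₂ t)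
          gcongr
        have k3 : ‖S.K (f₁ t - f₂ t)‖ * S.N1 ((1 / 2 : ℝ) • (f₁ t + f₂ t)) ≤
            (c1 * κ ^ 4) * a := by
          have := hKe t ht
          have := S.N1_nonneg ((1 / 2 : ℝ) • (f₁ t + f₂ t))
          gcongr
        have k4 := S.B1 ((1 / 2 : ℝ) • (f₁ t + f₂ t)) (f₁ t - f₂ t)
        have k5 := S.B2 (f₁ t - f₂ t) ((1 / 2 : ℝ) • (f₁ t + f₂ t))
        have k6 : c5 * (‖S.K (p₁ 0 - p₂ 0) - ε • (p₁ 0 - p₂ 0)‖ + κ) ≤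
            c5 * ((1 + 2 * ‖S.B‖ * M) * ‖f₁ 0 - f₂ 0‖ + κ) := by gcongr
        linarith
    _ ≤ c5 * ((1 + 2 * ‖S.B‖ * M) * ‖f₁ 0 - f₂ 0‖ + (1 + 2 * ‖S.B‖ * M) * κ) +
        (a * (c2 * (‖f₁ 0 - f₂ 0‖ + κ)) + (c1 * (‖f₁ 0 - f₂ 0‖ + κ)) * a) := by
        have hn : 0 ≤ ‖f₁ 0 - f₂ 0‖ := norm_nonneg _
        have k7 : κ ≤ (1 + 2 * ‖S.B‖ * M) * κ := by
          have : 0 ≤ 2 * ‖S.B‖ * M * κ := by positivity
          linarith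
        have k8 : κ ^ 2 ≤ ‖f₁ 0 - f₂ 0‖ + κ := by linarith
        have k9 : κ ^ 4 ≤ ‖f₁ 0 - f₂ 0‖ + κ := by linarith
        gcongr
    _ = _ := by ring

/-! ### job 22 -/


lemma gron22 {φ φ' : ℝ → ℝ} {c d T : ℝ}
    (hφ : ∀ t ∈ Icc 0 T, HasDerivWithinAt φ (φ' t) (Icc 0 T) t)
    (h : ∀ t ∈ Icc 0 T, φ' t ≤ c * (φ t + d)) :
    ∀ t ∈ Icc 0 T, φ t + d ≤ (φ 0 + d) * Real.exp (c * t) := by
  have hg : ∀ t ∈ Icc (0 : ℝ) T, HasDerivWithinAt (fun t => (φ t + d) * Real.exp (-(c * t)))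
      (φ' t * Real.exp (-(c * t)) + (φ t + d) * (Real.exp (-(c * t)) * (-(c * 1))))
      (Icc 0 T) t := by
    intro t ht
    have h1 := (hφ t ht).add_const d
    have h2 : HasDerivAt (fun t : ℝ => Real.exp (-(c * t))) (Real.exp (-(c * t)) * (-(c * 1))) t :=
      (((hasDerivAt_id t).const_mul c).neg).exp
    exact h1.mul h2.hasDerivWithinAt
  have hanti : AntitoneOn (fun t => (φ t + d) * Real.exp (-(c * t))) (Icc 0 T) := by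
    apply antitoneOn_of_deriv_nonpos (convex_Icc 0 T)
    · intro t ht
      exact (hg t ht).continuousWithinAt
    · intro t ht
      rw [interior_Icc] at ht
      have := (hg t (Ioo_subset_Icc_self ht)).hasDerivAt (Icc_mem_nhds ht.1 ht.2)
      exact this.differentiableAt.differentiableWithinAt
    · intro t ht
      rw [interior_Icc] at ht
      have h1 := (hg t (Ioo_subset_Icc_self ht)).hasDerivAt (Icc_mem_nhds ht.1 ht.2)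
      rw [h1.deriv]
      have h2 := h t (Ioo_subset_Icc_self ht)
      have h3 : 0 < Real.exp (-(c * t)) := Real.exp_pos _
      nlinarith
  intro t ht
  have h0 : (0 : ℝ) ∈ Icc 0 T := ⟨le_refl _, ht.1.trans ht.2⟩
  have h1 := hanti h0 ht ht.1
  simp only [mul_zero, neg_zero, Real.exp_zero, mul_one] at h1
  have h3 : Real.exp (-(c * t)) * Real.exp (c * t) = 1 := by
    rw [← Real.exp_add]; simp
  have h4 : 0 < Real.exp (c * t) := Real.exp_pos _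
  calc φ t + d = (φ t + d) * Real.exp (-(c * t)) * Real.exp (c * t) := by
        rw [mul_assoc, h3, mul_one]
    _ ≤ (φ 0 + d) * Real.exp (c * t) := by gcongr

lemma N0_le22 (S : Setting H) {k n b : ℝ} {f : H} (hb : 0 ≤ b) (hk : ‖S.K f‖ ≤ k) (hn : ‖f‖ ≤ n)
    (h : S.C ^ 4 * k ^ 3 * n ≤ b ^ 4) : S.N0 f ≤ b := by
  have hC := S.C_one
  have h1 := S.I0 f
  have hk0 : 0 ≤ k := (norm_nonneg _).trans hk
  have h2 : S.C ^ 4 * ‖S.K f‖ ^ 3 * ‖f‖ ≤ S.C ^ 4 * k ^ 3 * n := by gcongr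
  exact le_of_pow_le_pow_left₀ (n := 4) (by norm_num) hb (h1.trans (h2.trans h))

lemma N1_le22 (S : Setting H) {k n b : ℝ} {f : H} (hb : 0 ≤ b) (hk : ‖S.K f‖ ≤ k) (hn : ‖f‖ ≤ n)
    (h : S.C ^ 4 * k * n ^ 3 ≤ b ^ 4) : S.N1 f ≤ b := by
  have hC := S.C_one
  have h1 := S.I2 f
  have hk0 : 0 ≤ k := (norm_nonneg _).trans hk
  have h2 : S.C ^ 4 * ‖S.K f‖ * ‖f‖ ^ 3 ≤ S.C ^ 4 * k * n ^ 3 := by gcongr
  exact le_of_pow_le_pow_left₀ (n := 4) (by norm_num) hb (h1.trans (h2.trans h))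

lemma M1_le22 (S : Setting H) {k n b : ℝ} {f : H} (hb : 0 ≤ b) (hk : ‖S.K f‖ ≤ k) (hn : ‖f‖ ≤ n)
    (h : S.C ^ 2 * k * n ≤ b ^ 2) : S.M1 f ≤ b := by
  have hC := S.C_one
  have h1 := S.I1 f
  have hk0 : 0 ≤ k := (norm_nonneg _).trans hk
  have h2 : S.C ^ 2 * ‖S.K f‖ * ‖f‖ ≤ S.C ^ 2 * k * n := by gcongr
  exact le_of_pow_le_pow_left₀ (n := 2) (by norm_num) hb (h1.trans (h2.trans h))


lemma bil22 (S : Setting H) (u v : H) :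
    (u - S.B u u) - (v - S.B v v) = (u - v) -
      (S.B ((1 / 2 : ℝ) • (u + v)) (u - v) + S.B (u - v) ((1 / 2 : ℝ) • (u + v))) := by
  simp only [map_sub, map_add, map_smul, sub_apply,
    add_apply, smul_apply]
  module

lemma bil22' (S : Setting H) (u v p q : H) :
    (p - (S.B u p + S.B p u)) - (q - (S.B v q + S.B q v)) = (p - q) -
      (S.B u (p - q) + S.B (p - q) u) - (S.B (u - v) q + S.B q (u - v)) := by
  simp only [map_sub, sub_apply]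
  abel

/-- energy inequality with error -/
lemma en22 (S : Setting H) {a E : ℝ} {s e ρ Δ X : H} (ha : 0 ≤ a) (h1 : S.N1 s ≤ a)
    (hΔ : Δ = S.K e - ρ) (hX : X = e - (S.B s e + S.B e s)) (hE : ‖ρ‖ * ‖X‖ ≤ E) :
    ⟪Δ, X⟫ ≤ 2 * a * ‖Δ‖ ^ 2 + 2 * a * ‖ρ‖ ^ 2 + E := by
  have hsk : ⟪e, S.K e⟫ = 0 := by
    have h := S.skew e e
    rw [real_inner_comm] at h
    linarith
  have hB3 := (abs_le.1 (S.B3 s e)).1
  have h2 : S.N1 s * ‖S.K e‖ ^ 2 ≤ a * ‖S.K e‖ ^ 2 := by gcongr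
  have h3 : ⟪Δ, X⟫ = - ⟪S.B s e + S.B e s, S.K e⟫ - ⟪ρ, X⟫ := by
    rw [hΔ, inner_sub_left]
    rw [hX, inner_sub_right (S.K e), real_inner_comm, hsk, real_inner_comm (S.B s e + S.B e s)]
    ring
  have h4 : - ⟪ρ, X⟫ ≤ ‖ρ‖ * ‖X‖ := by
    have := abs_real_inner_le_norm ρ X
    exact (neg_le_abs _).trans this
  have h5 : ‖S.K e‖ ≤ ‖Δ‖ + ‖ρ‖ := by
    have : S.K e = Δ + ρ := by rw [hΔ]; abel
    rw [this]; exact norm_add_le _ _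
  have h6 : ‖S.K e‖ ^ 2 ≤ 2 * ‖Δ‖ ^ 2 + 2 * ‖ρ‖ ^ 2 := by
    have h7 : ‖S.K e‖ ^ 2 ≤ (‖Δ‖ + ‖ρ‖) ^ 2 := by gcongr
    nlinarith [sq_nonneg (‖Δ‖ - ‖ρ‖)]
  have h8 : a * ‖S.K e‖ ^ 2 ≤ a * (2 * ‖Δ‖ ^ 2 + 2 * ‖ρ‖ ^ 2) := by gcongr
  rw [h3]
  nlinarith

lemma nB22 (S : Setting H) (u v : H) : ‖S.B u v + S.B v u‖ ≤ 2 * ‖S.B‖ * ‖u‖ * ‖v‖ := by
  have h1 := S.B.le_opNorm₂ u v
  have h2 := S.B.le_opNorm₂ v u
  calc ‖S.B u v + S.B v u‖ ≤ ‖S.B u v‖ + ‖S.B v u‖ := norm_add_le _ _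
    _ ≤ ‖S.B‖ * ‖u‖ * ‖v‖ + ‖S.B‖ * ‖v‖ * ‖u‖ := add_le_add h1 h2
    _ = _ := by ring

lemma der22 (S : Setting H) {ε T : ℝ} {f p : ℝ → H} {t : ℝ}
    (h : HasDerivWithinAt f (p t) (Icc 0 T) t) :
    HasDerivWithinAt (fun t => S.K (f t) - ε • f t) (S.K (p t) - ε • p t) (Icc 0 T) t := by
  have h1 := (S.K.hasFDerivAt (x := f t)).comp_hasDerivWithinAt t h
  exact h1.sub (h.const_smul ε)

/-- Lemma D: comparison of two solutions of the regularised problem with different parameters and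
the same initial value. -/
lemma cauchy_eps (S : Setting H) {M T P : ℝ} (hM : 0 ≤ M) (hT : 0 ≤ T) (hP : 0 ≤ P) :
    ∃ c, 0 ≤ c ∧ ∀ ε η κ, 0 < ε → ε ≤ κ ^ 8 → 0 < η → η ≤ κ ^ 8 → 0 < κ → κ ≤ 1 →
      ∀ f₁ p₁ r₁ f₂ p₂ r₂ : ℝ → H, RSol S ε T f₁ p₁ r₁ → RSol S η T f₂ p₂ r₂ →
      f₁ 0 = f₂ 0 →
      (∀ t ∈ Icc 0 T, ‖f₁ t‖ ≤ M) → (∀ t ∈ Icc 0 T, ‖f₂ t‖ ≤ M) →
      (∀ t ∈ Icc 0 T, ‖p₁ t‖ ≤ P) → (∀ t ∈ Icc 0 T, ‖p₂ t‖ ≤ P) →
      ∀ t ∈ Icc 0 T, ‖f₁ t - f₂ t‖ ≤ c * κ := by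
  have hC : 1 ≤ S.C := S.C_one
  have hC0 : 0 ≤ S.C := zero_le_one.trans hC
  obtain ⟨nK, hnK⟩ : ∃ x, x = ‖S.K‖ := ⟨_, rfl⟩
  obtain ⟨nB, hnB⟩ : ∃ x, x = ‖S.B‖ := ⟨_, rfl⟩
  have hnK0 : 0 ≤ nK := hnK ▸ norm_nonneg _
  have hnB0 : 0 ≤ nB := by rw [hnB]; exact S.B.opNorm_nonneg
  have hKle : ∀ f : H, ‖S.K f‖ ≤ nK * ‖f‖ := fun f => hnK ▸ S.K.le_opNorm f
  have hBle : ∀ u v : H, ‖S.B u v + S.B v u‖ ≤ 2 * nB * ‖u‖ * ‖v‖ := fun u v => hnB ▸ nB22 S u v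
  obtain ⟨a, ha⟩ : ∃ x, x = S.C * (nK + 1) * M := ⟨_, rfl⟩
  have ha0 : 0 ≤ a := by rw [ha]; positivity
  have hN0 : ∀ f : H, ‖f‖ ≤ M → S.N0 f ≤ a := by
    intro f hf
    refine N0_le22 S (k := nK * M) (n := M) ha0 ((hKle f).trans (by gcongr)) hf ?_
    rw [ha]
    have : nK ^ 3 ≤ (nK + 1) ^ 4 := by nlinarith [pow_nonneg hnK0 2, pow_nonneg hnK0 3, pow_nonneg hnK0 4]
    calc S.C ^ 4 * (nK * M) ^ 3 * M = S.C ^ 4 * nK ^ 3 * M ^ 4 := by ring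
      _ ≤ S.C ^ 4 * (nK + 1) ^ 4 * M ^ 4 := by gcongr
      _ = _ := by ring
  have hN1 : ∀ f : H, ‖f‖ ≤ M → S.N1 f ≤ a := by
    intro f hf
    refine N1_le22 S (k := nK * M) (n := M) ha0 ((hKle f).trans (by gcongr)) hf ?_
    rw [ha]
    have : nK ≤ (nK + 1) ^ 4 := by nlinarith [pow_nonneg hnK0 2, pow_nonneg hnK0 3, pow_nonneg hnK0 4]
    calc S.C ^ 4 * (nK * M) * M ^ 3 = S.C ^ 4 * nK * M ^ 4 := by ring
      _ ≤ S.C ^ 4 * (nK + 1) ^ 4 * M ^ 4 := by gcongr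
      _ = _ := by ring
  obtain ⟨m, hm⟩ : ∃ x, x = S.C * (nK + 1) * P := ⟨_, rfl⟩
  have hm0 : 0 ≤ m := by rw [hm]; positivity
  have hM1 : ∀ f : H, ‖f‖ ≤ P → S.M1 f ≤ m := by
    intro f hf
    refine M1_le22 S (k := nK * P) (n := P) hm0 ((hKle f).trans (by gcongr)) hf ?_
    rw [hm]
    have : nK ≤ (nK + 1) ^ 2 := by nlinarith [pow_nonneg hnK0 2]
    calc S.C ^ 2 * (nK * P) * P = S.C ^ 2 * nK * P ^ 2 := by ring
      _ ≤ S.C ^ 2 * (nK + 1) ^ 2 * P ^ 2 := by gcongr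
      _ = _ := by ring
  -- constants
  obtain ⟨c1, hc1⟩ : ∃ x, x = 4 * a + 16 * a * M ^ 2 + 8 * M ^ 2 * (1 + 2 * nB * M) := ⟨_, rfl⟩
  have hc10 : 0 ≤ c1 := by rw [hc1]; positivity
  obtain ⟨c2, hc2⟩ : ∃ x, x = (4 * M ^ 2 + 1) * Real.exp (c1 * T) := ⟨_, rfl⟩
  have hc20 : 0 ≤ c2 := by rw [hc2]; positivity
  have hc21 : 1 ≤ c2 := by
    rw [hc2]
    have h1 : 1 ≤ Real.exp (c1 * T) := Real.one_le_exp (by positivity)
    nlinarith [sq_nonneg M]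
  obtain ⟨c3, hc3⟩ : ∃ x, x = c2 + 2 * M := ⟨_, rfl⟩
  have hc30 : 0 ≤ c3 := by rw [hc3]; positivity
  obtain ⟨b, hb⟩ : ∃ x, x = S.C * (c3 + 2 * M) := ⟨_, rfl⟩
  have hb0 : 0 ≤ b := by rw [hb]; positivity
  obtain ⟨d, hd⟩ : ∃ x, x = b * (m + nK * P) := ⟨_, rfl⟩
  have hd0 : 0 ≤ d := by rw [hd]; positivity
  obtain ⟨c4, hc4⟩ : ∃ x, x = 4 * a + 1 + (16 * a * P ^ 2 + 8 * P ^ 2 * (1 + 2 * nB * M) + d ^ 2) :=
    ⟨_, rfl⟩
  have hc40 : 0 ≤ c4 := by rw [hc4]; positivity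
  refine ⟨Real.exp (c4 * T) + a * (b + c3), by positivity, ?_⟩
  intro ε η κ hε hεκ hη hηκ hκ hκ1 f₁ p₁ r₁ f₂ p₂ r₂ H1 H2 hf0 hf1 hf2 hp1 hp2
  have hκ0 : 0 ≤ κ := hκ.le
  have hk82 : κ ^ 8 ≤ κ ^ 2 := pow_le_pow_of_le_one hκ0 hκ1 (by norm_num)
  have hk168 : κ ^ 16 ≤ κ ^ 8 := pow_le_pow_of_le_one hκ0 hκ1 (by norm_num)
  have hk31 : κ ^ 3 ≤ κ := by
    have := pow_le_pow_of_le_one hκ0 hκ1 (show 1 ≤ 3 by norm_num); simpa using this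
  have hk21 : κ ^ 2 ≤ κ := by
    have := pow_le_pow_of_le_one hκ0 hκ1 (show 1 ≤ 2 by norm_num); simpa using this
  have hk41 : κ ^ 4 ≤ κ := by
    have := pow_le_pow_of_le_one hκ0 hκ1 (show 1 ≤ 4 by norm_num); simpa using this
  have hk84 : κ ^ 8 ≤ κ ^ 4 := pow_le_pow_of_le_one hκ0 hκ1 (by norm_num)
  -- the error terms
  have hρ : ∀ (x y : H) (L : ℝ), 0 ≤ L → ‖x‖ ≤ L → ‖y‖ ≤ L → ‖ε • x - η • y‖ ≤ 2 * L * κ ^ 8 := by
    intro x y L hL hx hy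
    calc ‖ε • x - η • y‖ ≤ ‖ε • x‖ + ‖η • y‖ := norm_sub_le _ _
      _ = ε * ‖x‖ + η * ‖y‖ := by
        rw [norm_smul, norm_smul, Real.norm_of_nonneg hε.le, Real.norm_of_nonneg hη.le]
      _ ≤ κ ^ 8 * L + κ ^ 8 * L := by gcongr
      _ = _ := by ring
  have h0T : (0 : ℝ) ∈ Icc 0 T := ⟨le_refl _, hT⟩
  -- Step 1
  have hstep1 : ∀ t ∈ Icc 0 T,
      ‖(S.K (f₁ t) - ε • f₁ t) - (S.K (f₂ t) - η • f₂ t)‖ ^ 2 ≤ c2 * κ ^ 8 := by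
    have hder : ∀ t ∈ Icc 0 T, HasDerivWithinAt
        (fun t => (S.K (f₁ t) - ε • f₁ t) - (S.K (f₂ t) - η • f₂ t))
        ((S.K (p₁ t) - ε • p₁ t) - (S.K (p₂ t) - η • p₂ t)) (Icc 0 T) t :=
      fun t ht => (der22 S (H1.df t ht)).sub (der22 S (H2.df t ht))
    have hg := gron22 (φ := fun t => ‖(S.K (f₁ t) - ε • f₁ t) - (S.K (f₂ t) - η • f₂ t)‖ ^ 2)
      (φ' := fun t => 2 * ⟪(S.K (f₁ t) - ε • f₁ t) - (S.K (f₂ t) - η • f₂ t),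
        (S.K (p₁ t) - ε • p₁ t) - (S.K (p₂ t) - η • p₂ t)⟫) (c := c1) (d := κ ^ 8) (T := T)
      (fun t ht => (hder t ht).norm_sq) ?_
    · intro t ht
      have h1 := hg t ht
      have h2 : ‖(S.K (f₁ 0) - ε • f₁ 0) - (S.K (f₂ 0) - η • f₂ 0)‖ ^ 2 ≤ 4 * M ^ 2 * κ ^ 8 := by
        have h3 : (S.K (f₁ 0) - ε • f₁ 0) - (S.K (f₂ 0) - η • f₂ 0) =
            - (ε • f₁ 0 - η • f₂ 0) := by
          rw [hf0]; abel
        rw [h3, norm_neg]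
        have h4 := hρ (f₁ 0) (f₂ 0) M hM (hf1 0 h0T) (hf2 0 h0T)
        calc ‖ε • f₁ 0 - η • f₂ 0‖ ^ 2 ≤ (2 * M * κ ^ 8) ^ 2 := by gcongr
          _ = 4 * M ^ 2 * κ ^ 16 := by ring
          _ ≤ 4 * M ^ 2 * κ ^ 8 := by gcongr
      have h5 : Real.exp (c1 * t) ≤ Real.exp (c1 * T) := by
        apply Real.exp_le_exp.2
        exact mul_le_mul_of_nonneg_left ht.2 hc10
      calc ‖(S.K (f₁ t) - ε • f₁ t) - (S.K (f₂ t) - η • f₂ t)‖ ^ 2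
          ≤ ‖(S.K (f₁ t) - ε • f₁ t) - (S.K (f₂ t) - η • f₂ t)‖ ^ 2 + κ ^ 8 := by
            have : 0 ≤ κ ^ 8 := by positivity
            linarith
        _ ≤ _ := h1
        _ ≤ (4 * M ^ 2 * κ ^ 8 + κ ^ 8) * Real.exp (c1 * T) := by
            gcongr
        _ = c2 * κ ^ 8 := by rw [hc2]; ring
    · intro t ht
      have hX : (S.K (p₁ t) - ε • p₁ t) - (S.K (p₂ t) - η • p₂ t) = (f₁ t - f₂ t) -
          (S.B ((1 / 2 : ℝ) • (f₁ t + f₂ t)) (f₁ t - f₂ t) +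
            S.B (f₁ t - f₂ t) ((1 / 2 : ℝ) • (f₁ t + f₂ t))) := by
        rw [H1.ep t ht, H2.ep t ht]; exact bil22 S _ _
      have hs : ‖(1 / 2 : ℝ) • (f₁ t + f₂ t)‖ ≤ M := by
        rw [norm_smul, Real.norm_of_nonneg (by norm_num)]
        have := norm_add_le (f₁ t) (f₂ t)
        have := hf1 t ht
        have := hf2 t ht
        linarith
      have he : ‖f₁ t - f₂ t‖ ≤ 2 * M := by
        have := norm_sub_le (f₁ t) (f₂ t)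
        have := hf1 t ht
        have := hf2 t ht
        linarith
      have hr := hρ (f₁ t) (f₂ t) M hM (hf1 t ht) (hf2 t ht)
      have hXn : ‖(S.K (p₁ t) - ε • p₁ t) - (S.K (p₂ t) - η • p₂ t)‖ ≤
          2 * M * (1 + 2 * nB * M) := by
        rw [hX]
        calc _ ≤ ‖f₁ t - f₂ t‖ + ‖S.B ((1 / 2 : ℝ) • (f₁ t + f₂ t)) (f₁ t - f₂ t) +
            S.B (f₁ t - f₂ t) ((1 / 2 : ℝ) • (f₁ t + f₂ t))‖ := norm_sub_le _ _
          _ ≤ ‖f₁ t - f₂ t‖ + 2 * nB * ‖(1 / 2 : ℝ) • (f₁ t + f₂ t)‖ * ‖f₁ t - f₂ t‖ := by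
            gcongr; exact hBle _ _
          _ ≤ 2 * M + 2 * nB * M * (2 * M) := by gcongr
          _ = _ := by ring
      have hen := en22 S (a := a) (E := 4 * M ^ 2 * (1 + 2 * nB * M) * κ ^ 8)
        (s := (1 / 2 : ℝ) • (f₁ t + f₂ t)) (e := f₁ t - f₂ t) (ρ := ε • f₁ t - η • f₂ t)
        (Δ := (S.K (f₁ t) - ε • f₁ t) - (S.K (f₂ t) - η • f₂ t))
        (X := (S.K (p₁ t) - ε • p₁ t) - (S.K (p₂ t) - η • p₂ t)) ha0 (hN1 _ hs)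
        (by rw [map_sub]; abel) hX
        (by
          calc _ ≤ (2 * M * κ ^ 8) * (2 * M * (1 + 2 * nB * M)) := by gcongr
            _ = _ := by ring)
      have hr2 : ‖ε • f₁ t - η • f₂ t‖ ^ 2 ≤ 4 * M ^ 2 * κ ^ 8 := by
        calc ‖ε • f₁ t - η • f₂ t‖ ^ 2 ≤ (2 * M * κ ^ 8) ^ 2 := by gcongr
          _ = 4 * M ^ 2 * κ ^ 16 := by ring
          _ ≤ 4 * M ^ 2 * κ ^ 8 := by gcongr
      have hr3 : 2 * a * ‖ε • f₁ t - η • f₂ t‖ ^ 2 ≤ 2 * a * (4 * M ^ 2 * κ ^ 8) := by gcongr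
      set Y := ‖(S.K (f₁ t) - ε • f₁ t) - (S.K (f₂ t) - η • f₂ t)‖ ^ 2 with hY
      have hY0 : 0 ≤ Y := sq_nonneg _
      have hκ8 : 0 ≤ κ ^ 8 := by positivity
      calc _ ≤ 2 * (2 * a * Y + 2 * a * (4 * M ^ 2 * κ ^ 8) +
            4 * M ^ 2 * (1 + 2 * nB * M) * κ ^ 8) := by linarith
        _ = 4 * a * Y + (16 * a * M ^ 2 + 8 * M ^ 2 * (1 + 2 * nB * M)) * κ ^ 8 := by ring
        _ ≤ c1 * Y + c1 * κ ^ 8 := by
          rw [hc1]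
          gcongr
          · have : 0 ≤ 16 * a * M ^ 2 := by positivity
            have : 0 ≤ 8 * M ^ 2 * (1 + 2 * nB * M) := by positivity
            linarith
          · linarith
        _ = c1 * (Y + κ ^ 8) := by ring
  have hKe : ∀ t ∈ Icc 0 T, ‖S.K (f₁ t - f₂ t)‖ ≤ c3 * κ ^ 4 := by
    intro t ht
    have h1 : ‖(S.K (f₁ t) - ε • f₁ t) - (S.K (f₂ t) - η • f₂ t)‖ ≤ c2 * κ ^ 4 := by
      apply le_of_sq_le_sq _ (by positivity)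
      calc _ ≤ c2 * κ ^ 8 := hstep1 t ht
        _ ≤ (c2 * c2) * κ ^ 8 := by gcongr; nlinarith
        _ = _ := by ring
    have h2 := hρ (f₁ t) (f₂ t) M hM (hf1 t ht) (hf2 t ht)
    have h3 : S.K (f₁ t - f₂ t) = ((S.K (f₁ t) - ε • f₁ t) - (S.K (f₂ t) - η • f₂ t)) +
        (ε • f₁ t - η • f₂ t) := by rw [map_sub]; abel
    rw [h3]
    calc _ ≤ ‖(S.K (f₁ t) - ε • f₁ t) - (S.K (f₂ t) - η • f₂ t)‖ + ‖ε • f₁ t - η • f₂ t‖ :=
          norm_add_le _ _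
      _ ≤ c2 * κ ^ 4 + 2 * M * κ ^ 8 := by gcongr
      _ ≤ c2 * κ ^ 4 + 2 * M * κ ^ 4 := by gcongr
      _ = _ := by rw [hc3]; ring
  have hen2 : ∀ t ∈ Icc 0 T, ‖f₁ t - f₂ t‖ ≤ 2 * M := by
    intro t ht
    have := norm_sub_le (f₁ t) (f₂ t)
    have := hf1 t ht
    have := hf2 t ht
    linarith
  have hcM3 : c3 ^ 3 * (2 * M) ≤ (c3 + 2 * M) ^ 4 := by
    have h1 : c3 ^ 3 ≤ (c3 + 2 * M) ^ 3 := by gcongr; linarith
    calc c3 ^ 3 * (2 * M) ≤ (c3 + 2 * M) ^ 3 * (c3 + 2 * M) := by gcongr; linarith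
      _ = _ := by ring
  have hcM1 : c3 * (2 * M) ^ 3 ≤ (c3 + 2 * M) ^ 4 := by
    have h1 : (2 * M) ^ 3 ≤ (c3 + 2 * M) ^ 3 := by gcongr; linarith
    calc c3 * (2 * M) ^ 3 ≤ (c3 + 2 * M) * (c3 + 2 * M) ^ 3 := by gcongr; linarith
      _ = _ := by ring
  have hcM2 : c3 * (2 * M) ≤ (c3 + 2 * M) ^ 2 := by nlinarith
  have heN0 : ∀ t ∈ Icc 0 T, S.N0 (f₁ t - f₂ t) ≤ b * κ ^ 3 := by
    intro t ht
    refine N0_le22 S (k := c3 * κ ^ 4) (n := 2 * M) (by positivity) (hKe t ht) (hen2 t ht) ?_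
    rw [hb]
    calc S.C ^ 4 * (c3 * κ ^ 4) ^ 3 * (2 * M) = S.C ^ 4 * (c3 ^ 3 * (2 * M)) * κ ^ 12 := by ring
      _ ≤ S.C ^ 4 * ((c3 + 2 * M) ^ 4) * κ ^ 12 := by gcongr
      _ = _ := by ring
  have heN1 : ∀ t ∈ Icc 0 T, S.N1 (f₁ t - f₂ t) ≤ b * κ := by
    intro t ht
    refine N1_le22 S (k := c3 * κ ^ 4) (n := 2 * M) (by positivity) (hKe t ht) (hen2 t ht) ?_
    rw [hb]
    calc S.C ^ 4 * (c3 * κ ^ 4) * (2 * M) ^ 3 = S.C ^ 4 * (c3 * (2 * M) ^ 3) * κ ^ 4 := by ring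
      _ ≤ S.C ^ 4 * ((c3 + 2 * M) ^ 4) * κ ^ 4 := by gcongr
      _ = _ := by ring
  have heM1 : ∀ t ∈ Icc 0 T, S.M1 (f₁ t - f₂ t) ≤ b * κ ^ 2 := by
    intro t ht
    refine M1_le22 S (k := c3 * κ ^ 4) (n := 2 * M) (by positivity) (hKe t ht) (hen2 t ht) ?_
    rw [hb]
    calc S.C ^ 2 * (c3 * κ ^ 4) * (2 * M) = S.C ^ 2 * (c3 * (2 * M)) * κ ^ 4 := by ring
      _ ≤ S.C ^ 2 * ((c3 + 2 * M) ^ 2) * κ ^ 4 := by gcongr
      _ = _ := by ring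
  -- Step 2
  have hstep2 : ∀ t ∈ Icc 0 T,
      ‖(S.K (p₁ t) - ε • p₁ t) - (S.K (p₂ t) - η • p₂ t)‖ ≤ Real.exp (c4 * T) * κ := by
    have hder : ∀ t ∈ Icc 0 T, HasDerivWithinAt
        (fun t => (S.K (p₁ t) - ε • p₁ t) - (S.K (p₂ t) - η • p₂ t))
        ((S.K (r₁ t) - ε • r₁ t) - (S.K (r₂ t) - η • r₂ t)) (Icc 0 T) t :=
      fun t ht => (der22 S (H1.dp t ht)).sub (der22 S (H2.dp t ht))
    have hg := gron22 (φ := fun t => ‖(S.K (p₁ t) - ε • p₁ t) - (S.K (p₂ t) - η • p₂ t)‖ ^ 2)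
      (φ' := fun t => 2 * ⟪(S.K (p₁ t) - ε • p₁ t) - (S.K (p₂ t) - η • p₂ t),
        (S.K (r₁ t) - ε • r₁ t) - (S.K (r₂ t) - η • r₂ t)⟫) (c := c4) (d := κ ^ 2) (T := T)
      (fun t ht => (hder t ht).norm_sq) ?_
    · intro t ht
      have h1 := hg t ht
      have h2 : (S.K (p₁ 0) - ε • p₁ 0) - (S.K (p₂ 0) - η • p₂ 0) = 0 := by
        rw [H1.ep 0 h0T, H2.ep 0 h0T, hf0]; abel
      have h5 : Real.exp (c4 * t) ≤ Real.exp (c4 * T) := by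
        apply Real.exp_le_exp.2
        exact mul_le_mul_of_nonneg_left ht.2 hc40
      have h6 : 1 ≤ Real.exp (c4 * T) := Real.one_le_exp (by positivity)
      simp only [h2] at h1
      rw [norm_zero] at h1
      apply le_of_sq_le_sq _ (by positivity)
      calc ‖(S.K (p₁ t) - ε • p₁ t) - (S.K (p₂ t) - η • p₂ t)‖ ^ 2
          ≤ ‖(S.K (p₁ t) - ε • p₁ t) - (S.K (p₂ t) - η • p₂ t)‖ ^ 2 + κ ^ 2 := by
            have : 0 ≤ κ ^ 2 := by positivity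
            linarith
        _ ≤ _ := h1
        _ = κ ^ 2 * Real.exp (c4 * t) := by ring
        _ ≤ κ ^ 2 * Real.exp (c4 * T) := by gcongr
        _ ≤ κ ^ 2 * (Real.exp (c4 * T) * Real.exp (c4 * T)) := by
            gcongr; nlinarith
        _ = _ := by ring
    · intro t ht
      have hX : (S.K (r₁ t) - ε • r₁ t) - (S.K (r₂ t) - η • r₂ t) =
          ((p₁ t - p₂ t) - (S.B (f₁ t) (p₁ t - p₂ t) + S.B (p₁ t - p₂ t) (f₁ t))) -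
            (S.B (f₁ t - f₂ t) (p₂ t) + S.B (p₂ t) (f₁ t - f₂ t)) := by
        rw [H1.er t ht, H2.er t ht]; exact bil22' S _ _ _ _
      have hπ : ‖p₁ t - p₂ t‖ ≤ 2 * P := by
        have := norm_sub_le (p₁ t) (p₂ t)
        have := hp1 t ht
        have := hp2 t ht
        linarith
      have hr := hρ (p₁ t) (p₂ t) P hP (hp1 t ht) (hp2 t ht)
      have hXn : ‖(p₁ t - p₂ t) - (S.B (f₁ t) (p₁ t - p₂ t) + S.B (p₁ t - p₂ t) (f₁ t))‖ ≤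
          2 * P * (1 + 2 * nB * M) := by
        calc _ ≤ ‖p₁ t - p₂ t‖ + ‖S.B (f₁ t) (p₁ t - p₂ t) + S.B (p₁ t - p₂ t) (f₁ t)‖ :=
              norm_sub_le _ _
          _ ≤ ‖p₁ t - p₂ t‖ + 2 * nB * ‖f₁ t‖ * ‖p₁ t - p₂ t‖ := by
            gcongr; exact hBle _ _
          _ ≤ 2 * P + 2 * nB * M * (2 * P) := by
            gcongr; exact hf1 t ht
          _ = _ := by ring
      have hen := en22 S (a := a) (E := 4 * P ^ 2 * (1 + 2 * nB * M) * κ ^ 8)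
        (s := f₁ t) (e := p₁ t - p₂ t) (ρ := ε • p₁ t - η • p₂ t)
        (Δ := (S.K (p₁ t) - ε • p₁ t) - (S.K (p₂ t) - η • p₂ t))
        (X := (p₁ t - p₂ t) - (S.B (f₁ t) (p₁ t - p₂ t) + S.B (p₁ t - p₂ t) (f₁ t)))
        ha0 (hN1 _ (hf1 t ht))
        (by rw [map_sub]; abel) rfl
        (by
          calc _ ≤ (2 * P * κ ^ 8) * (2 * P * (1 + 2 * nB * M)) := by gcongr
            _ = _ := by ring)
      have hDn : ‖S.B (f₁ t - f₂ t) (p₂ t) + S.B (p₂ t) (f₁ t - f₂ t)‖ ≤ d * κ := by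
        calc _ ≤ ‖S.B (f₁ t - f₂ t) (p₂ t)‖ + ‖S.B (p₂ t) (f₁ t - f₂ t)‖ := norm_add_le _ _
          _ ≤ S.N0 (f₁ t - f₂ t) * S.M1 (p₂ t) + ‖S.K (p₂ t)‖ * S.N1 (f₁ t - f₂ t) :=
            add_le_add (S.B1 _ _) (S.B2 _ _)
          _ ≤ (b * κ ^ 3) * m + (nK * P) * (b * κ) := by
            have h1 := heN0 t ht
            have h2 := heN1 t ht
            have h3 := hM1 _ (hp2 t ht)
            have h4 : ‖S.K (p₂ t)‖ ≤ nK * P := (hKle _).trans (by gcongr; exact hp2 t ht)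
            have h5 := S.M1_nonneg (p₂ t)
            have h6 := S.N1_nonneg (f₁ t - f₂ t)
            gcongr
          _ ≤ (b * κ) * m + (nK * P) * (b * κ) := by gcongr
          _ = _ := by rw [hd]; ring
      have hr2 : ‖ε • p₁ t - η • p₂ t‖ ^ 2 ≤ 4 * P ^ 2 * κ ^ 2 := by
        calc ‖ε • p₁ t - η • p₂ t‖ ^ 2 ≤ (2 * P * κ ^ 8) ^ 2 := by gcongr
          _ = 4 * P ^ 2 * κ ^ 16 := by ring
          _ ≤ 4 * P ^ 2 * κ ^ 2 :=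
            mul_le_mul_of_nonneg_left (hk168.trans hk82) (by positivity)
      have hr3 : 2 * a * ‖ε • p₁ t - η • p₂ t‖ ^ 2 ≤ 2 * a * (4 * P ^ 2 * κ ^ 2) := by gcongr
      set Z := (S.K (p₁ t) - ε • p₁ t) - (S.K (p₂ t) - η • p₂ t) with hZ
      set D := S.B (f₁ t - f₂ t) (p₂ t) + S.B (p₂ t) (f₁ t - f₂ t) with hD
      have hin : ⟪Z, (S.K (r₁ t) - ε • r₁ t) - (S.K (r₂ t) - η • r₂ t)⟫ =
          ⟪Z, (p₁ t - p₂ t) - (S.B (f₁ t) (p₁ t - p₂ t) + S.B (p₁ t - p₂ t) (f₁ t))⟫ -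
            ⟪Z, D⟫ := by
        rw [hX, inner_sub_right]
      have hin2 : - ⟪Z, D⟫ ≤ ‖Z‖ * ‖D‖ := by
        have := abs_real_inner_le_norm Z D
        exact (neg_le_abs _).trans this
      have hin3 : 2 * (‖Z‖ * ‖D‖) ≤ ‖Z‖ ^ 2 + ‖D‖ ^ 2 := by
        rw [← mul_assoc]; exact two_mul_le_add_sq _ _
      have hin4 : ‖D‖ ^ 2 ≤ d ^ 2 * κ ^ 2 := by
        calc ‖D‖ ^ 2 ≤ (d * κ) ^ 2 := by gcongr
          _ = _ := by ring
      have hκ2 : 0 ≤ κ ^ 2 := by positivity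
      have hY0 : 0 ≤ ‖Z‖ ^ 2 := sq_nonneg _
      have hE2 : 4 * P ^ 2 * (1 + 2 * nB * M) * κ ^ 8 ≤ 4 * P ^ 2 * (1 + 2 * nB * M) * κ ^ 2 := by
        gcongr
      have hfin : 2 * ⟪Z, (S.K (r₁ t) - ε • r₁ t) - (S.K (r₂ t) - η • r₂ t)⟫ ≤
          (4 * a + 1) * ‖Z‖ ^ 2 +
            (16 * a * P ^ 2 + 8 * P ^ 2 * (1 + 2 * nB * M) + d ^ 2) * κ ^ 2 := by
        rw [hin]
        linarith
      calc _ ≤ _ := hfin
        _ ≤ c4 * ‖Z‖ ^ 2 + c4 * κ ^ 2 := by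
          have g1 : 0 ≤ 16 * a * P ^ 2 := by positivity
          have g2 : 0 ≤ 8 * P ^ 2 * (1 + 2 * nB * M) := by positivity
          have g3 : 0 ≤ d ^ 2 := by positivity
          have g4 : 4 * a + 1 ≤ c4 := by rw [hc4]; linarith
          have g5 : 16 * a * P ^ 2 + 8 * P ^ 2 * (1 + 2 * nB * M) + d ^ 2 ≤ c4 := by
            rw [hc4]; linarith
          exact add_le_add (mul_le_mul_of_nonneg_right g4 hY0) (mul_le_mul_of_nonneg_right g5 hκ2)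
        _ = c4 * (‖Z‖ ^ 2 + κ ^ 2) := by ring
  -- Step 3
  intro t ht
  have h1 := hstep2 t ht
  rw [H1.ep t ht, H2.ep t ht, bil22 S] at h1
  have hs : ‖(1 / 2 : ℝ) • (f₁ t + f₂ t)‖ ≤ M := by
    rw [norm_smul, Real.norm_of_nonneg (by norm_num)]
    have := norm_add_le (f₁ t) (f₂ t)
    have := hf1 t ht
    have := hf2 t ht
    linarith
  have h2 : ‖S.B ((1 / 2 : ℝ) • (f₁ t + f₂ t)) (f₁ t - f₂ t) +
      S.B (f₁ t - f₂ t) ((1 / 2 : ℝ) • (f₁ t + f₂ t))‖ ≤ a * (b + c3) * κ := by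
    calc _ ≤ ‖S.B ((1 / 2 : ℝ) • (f₁ t + f₂ t)) (f₁ t - f₂ t)‖ +
        ‖S.B (f₁ t - f₂ t) ((1 / 2 : ℝ) • (f₁ t + f₂ t))‖ := norm_add_le _ _
      _ ≤ S.N0 ((1 / 2 : ℝ) • (f₁ t + f₂ t)) * S.M1 (f₁ t - f₂ t) +
          ‖S.K (f₁ t - f₂ t)‖ * S.N1 ((1 / 2 : ℝ) • (f₁ t + f₂ t)) :=
        add_le_add (S.B1 _ _) (S.B2 _ _)
      _ ≤ a * (b * κ ^ 2) + (c3 * κ ^ 4) * a := by
        have h3 := hN0 _ hs
        have h4 := hN1 _ hs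
        have h5 := heM1 t ht
        have h6 := hKe t ht
        have h7 := S.M1_nonneg (f₁ t - f₂ t)
        have h8 := S.N1_nonneg ((1 / 2 : ℝ) • (f₁ t + f₂ t))
        gcongr
      _ ≤ a * (b * κ) + (c3 * κ) * a := by gcongr
      _ = _ := by ring
  set D := S.B ((1 / 2 : ℝ) • (f₁ t + f₂ t)) (f₁ t - f₂ t) +
      S.B (f₁ t - f₂ t) ((1 / 2 : ℝ) • (f₁ t + f₂ t)) with hD
  calc ‖f₁ t - f₂ t‖ = ‖(f₁ t - f₂ t - D) + D‖ := by rw [sub_add_cancel]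
    _ ≤ ‖f₁ t - f₂ t - D‖ + ‖D‖ := norm_add_le _ _
    _ ≤ Real.exp (c4 * T) * κ + a * (b + c3) * κ := add_le_add h1 h2
    _ = _ := by ring

/-! ### job 18 -/

lemma ode_exists {H : Type*} [NormedAddCommGroup H] [NormedSpace ℝ H] [CompleteSpace H]
    (X : H → H) (hX : ∀ r : ℝ, ∃ k : NNReal, LipschitzOnWith k X (Metric.closedBall 0 r))
    {T : ℝ} (hT : 0 < T) {M : ℝ} (f₀ : H) (hf₀ : ‖f₀‖ ≤ M)
    (hap : ∀ τ ∈ Ioc 0 T, ∀ f : ℝ → H, f 0 = f₀ →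
      (∀ t ∈ Icc 0 τ, HasDerivWithinAt f (X (f t)) (Icc 0 τ) t) → ∀ t ∈ Icc 0 τ, ‖f t‖ ≤ M) :
    ∃ f : ℝ → H, f 0 = f₀ ∧ (∀ t ∈ Icc 0 T, HasDerivWithinAt f (X (f t)) (Icc 0 T) t) ∧
      ∀ t ∈ Icc 0 T, ‖f t‖ ≤ M := by
  have hM : 0 ≤ M := (norm_nonneg _).trans hf₀
  obtain ⟨k, hk⟩ := hX (M + 2)
  have hkd : ∀ x y : H, ‖x‖ ≤ M + 2 → ‖y‖ ≤ M + 2 → ‖X x - X y‖ ≤ k * ‖x - y‖ := by
    intro x y hx hy
    exact hk.norm_sub_le (by simpa using hx) (by simpa using hy)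
  set B : ℝ := k * (M + 2) + ‖X 0‖ with hB
  have hB0 : 0 ≤ B := by positivity
  have hXB : ∀ x : H, ‖x‖ ≤ M + 2 → ‖X x‖ ≤ B := by
    intro x hx
    have h1 := hkd x 0 hx (by simp; linarith)
    have h2 : ‖X x‖ ≤ ‖X x - X 0‖ + ‖X 0‖ := by
      simpa using norm_add_le (X x - X 0) (X 0)
    rw [sub_zero] at h1
    have h3 : (k : ℝ) * ‖x‖ ≤ k * (M + 2) := by gcongr
    linarith
  set χ : H → ℝ := fun x => max 0 (min 1 (M + 2 - ‖x‖)) with hχ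
  have hχ0 : ∀ x, 0 ≤ χ x := fun x => le_max_left _ _
  have hχ1 : ∀ x, χ x ≤ 1 := fun x => max_le zero_le_one (min_le_left _ _)
  have hχin : ∀ x, ‖x‖ ≤ M + 1 → χ x = 1 := by
    intro x hx
    simp only [hχ]
    rw [min_eq_left (by linarith), max_eq_right zero_le_one]
  have hχout : ∀ x, M + 2 ≤ ‖x‖ → χ x = 0 := by
    intro x hx
    simp only [hχ]
    apply max_eq_left
    exact (min_le_right _ _).trans (by linarith)
  have hχL : ∀ x y, |χ x - χ y| ≤ ‖x - y‖ := by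
    intro x y
    simp only [hχ]
    have h1 : |max 0 (min 1 (M + 2 - ‖x‖)) - max 0 (min 1 (M + 2 - ‖y‖))|
        ≤ |min 1 (M + 2 - ‖x‖) - min 1 (M + 2 - ‖y‖)| := by
      have := abs_max_sub_max_le_max 0 (min 1 (M + 2 - ‖x‖)) 0 (min 1 (M + 2 - ‖y‖))
      simpa using this
    have h2 : |min 1 (M + 2 - ‖x‖) - min 1 (M + 2 - ‖y‖)|
        ≤ |(M + 2 - ‖x‖) - (M + 2 - ‖y‖)| := by
      have := abs_min_sub_min_le_max 1 (M + 2 - ‖x‖) 1 (M + 2 - ‖y‖)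
      simpa using this
    have h3 : |(M + 2 - ‖x‖) - (M + 2 - ‖y‖)| ≤ ‖x - y‖ := by
      have := abs_norm_sub_norm_le y x
      rw [norm_sub_rev] at this
      convert this using 2
      ring
    exact h1.trans (h2.trans h3)
  set Y : H → H := fun x => χ x • X x with hY
  have hYB : ∀ x, ‖Y x‖ ≤ B := by
    intro x
    simp only [hY, norm_smul, Real.norm_eq_abs, abs_of_nonneg (hχ0 x)]
    by_cases hx : ‖x‖ ≤ M + 2
    · calc χ x * ‖X x‖ ≤ 1 * B := by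
            have := hχ1 x; have := hXB x hx; have := hχ0 x
            gcongr
        _ = B := one_mul _
    · rw [hχout x (by linarith), zero_mul]; exact hB0
  have hYL0 : ∀ x y, ‖x‖ ≤ M + 2 → ‖Y x - Y y‖ ≤ (B + k) * ‖x - y‖ := by
    intro x y hx
    by_cases hy : ‖y‖ ≤ M + 2
    · have e : Y x - Y y = (χ x - χ y) • X x + χ y • (X x - X y) := by
        simp only [hY]; rw [sub_smul, smul_sub]; abel
      rw [e]
      calc ‖(χ x - χ y) • X x + χ y • (X x - X y)‖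
          ≤ ‖(χ x - χ y) • X x‖ + ‖χ y • (X x - X y)‖ := norm_add_le _ _
        _ = |χ x - χ y| * ‖X x‖ + χ y * ‖X x - X y‖ := by
            rw [norm_smul, norm_smul, Real.norm_eq_abs, Real.norm_eq_abs, abs_of_nonneg (hχ0 y)]
        _ ≤ ‖x - y‖ * B + 1 * (k * ‖x - y‖) := by
            have h1 := hχL x y; have h2 := hXB x hx; have h3 := hχ1 y; have h4 := hkd x y hx hy
            gcongr
        _ = _ := by ring
    · have e : Y x - Y y = (χ x - χ y) • X x := by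
        simp only [hY]; rw [hχout y (by linarith)]; simp
      rw [e, norm_smul, Real.norm_eq_abs]
      calc |χ x - χ y| * ‖X x‖ ≤ ‖x - y‖ * B := by
            have h1 := hχL x y; have h2 := hXB x hx
            gcongr
        _ ≤ _ := by
            have : 0 ≤ (k : ℝ) * ‖x - y‖ := by positivity
            nlinarith
  have hYL : ∀ x y, ‖Y x - Y y‖ ≤ (B + k) * ‖x - y‖ := by
    intro x y
    by_cases hx : ‖x‖ ≤ M + 2
    · exact hYL0 x y hx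
    · by_cases hy : ‖y‖ ≤ M + 2
      · have := hYL0 y x hy
        rwa [norm_sub_rev, norm_sub_rev y x] at this
      · have e : Y x - Y y = 0 := by
          simp only [hY]; rw [hχout y (by linarith), hχout x (by linarith)]; simp
        rw [e, norm_zero]; positivity
  -- Picard-Lindelof for the cut-off field
  have hPL : IsPicardLindelof (fun _ : ℝ => Y) (tmin := 0) (tmax := T) ⟨0, ⟨le_refl _, hT.le⟩⟩ f₀
      (Real.toNNReal (B * T)) 0 (Real.toNNReal B) (Real.toNNReal (B + k)) := by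
    apply IsPicardLindelof.of_time_independent
    · intro x _
      rw [Real.coe_toNNReal _ hB0]
      exact hYB x
    · apply LipschitzOnWith.of_dist_le_mul
      intro x _ y _
      rw [dist_eq_norm, dist_eq_norm, Real.coe_toNNReal _ (by positivity)]
      exact hYL x y
    · rw [Real.coe_toNNReal _ hB0, Real.coe_toNNReal _ (by positivity)]
      simp [hT.le]
  obtain ⟨f, hf0, hf⟩ := hPL.exists_eq_forall_mem_Icc_hasDerivWithinAt₀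
  simp only at hf0
  have hcont : ContinuousOn f (Icc 0 T) := fun t ht => (hf t ht).continuousWithinAt
  have hlt : ∀ t ∈ Icc 0 T, ‖f t‖ < M + 1 := by
    by_contra hcon
    push Not at hcon
    set S : Set ℝ := Icc 0 T ∩ (fun t => ‖f t‖) ⁻¹' (Ici (M + 1)) with hS
    have hScl : IsClosed S := hcont.norm.preimage_isClosed_of_isClosed isClosed_Icc isClosed_Ici
    have hScomp : IsCompact S := isCompact_Icc.of_isClosed_subset hScl inter_subset_left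
    have hSne : S.Nonempty := by
      obtain ⟨t, ht, h⟩ := hcon
      exact ⟨t, ht, h⟩
    obtain ⟨τ, hτS, hτmin⟩ := hScomp.exists_isLeast hSne
    have hτT : τ ∈ Icc 0 T := hτS.1
    have hτM : M + 1 ≤ ‖f τ‖ := hτS.2
    have hτpos : 0 < τ := by
      rcases hτT.1.lt_or_eq with h | h
      · exact h
      · exfalso
        rw [← h, hf0] at hτM
        linarith
    have hbelow : ∀ s ∈ Icc 0 τ, ‖f s‖ ≤ M + 1 := by
      intro s hs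
      by_contra hc
      push Not at hc
      have hc1 : ContinuousOn (fun t => ‖f t‖) (Icc 0 s) :=
        (hcont.mono (Icc_subset_Icc_right (hs.2.trans hτT.2))).norm
      have hiv := intermediate_value_Icc hs.1 hc1
      have hmem : M + 1 ∈ Icc ‖f 0‖ ‖f s‖ := ⟨by rw [hf0]; linarith, hc.le⟩
      obtain ⟨u, hu, hfu⟩ := hiv hmem
      simp only at hfu
      have huS : u ∈ S := ⟨⟨hu.1, hu.2.trans (hs.2.trans hτT.2)⟩, hfu.ge⟩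
      have h1 := hτmin huS
      have h2 : u = s := le_antisymm hu.2 (hs.2.trans h1)
      rw [h2] at hfu
      linarith
    have hsol : ∀ t ∈ Icc 0 τ, HasDerivWithinAt f (X (f t)) (Icc 0 τ) t := by
      intro t ht
      have h1 := (hf t ⟨ht.1, ht.2.trans hτT.2⟩).mono (Icc_subset_Icc_right hτT.2)
      have h2 : Y (f t) = X (f t) := by
        simp only [hY]; rw [hχin _ (hbelow t ht), one_smul]
      rwa [h2] at h1
    have := hap τ ⟨hτpos, hτT.2⟩ f hf0 hsol τ ⟨hτpos.le, le_refl _⟩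
    linarith
  have hsol : ∀ t ∈ Icc 0 T, HasDerivWithinAt f (X (f t)) (Icc 0 T) t := by
    intro t ht
    have h1 := hf t ht
    have h2 : Y (f t) = X (f t) := by
      simp only [hY]; rw [hχin _ (hlt t ht).le, one_smul]
    rwa [h2] at h1
  exact ⟨f, hf0, hsol, hap T ⟨hT, le_refl _⟩ f hf0 hsol⟩

end Pool.Agent.Helper420.KdVWp
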