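import Pool.Agent.Helper420.KdVWp.Abs1

open scoped RealInnerProductSpace
open Set Filter Topology

namespace Pool.Agent.Helper420.KdVWp

variable {H : Type*} [NormedAddCommGroup H] [InnerProductSpace ℝ H]

lemma inner_K_self (S : Setting H) (v : H) : ⟪S.K v, v⟫ = 0 := by
  have h := S.skew v v
  have h2 := real_inner_comm v (S.K v)
  linarith

/-- the resolvent of the skew operator -/
lemma resolvent [CompleteSpace H] (S : Setting H) {ε : ℝ} (hε : 0 < ε) :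
    ∃ G : H →L[ℝ] H, (∀ u, S.K (G u) - ε • G u = u) ∧ (∀ f, G (S.K f - ε • f) = f) := by
  let A : H →L[ℝ] H := ε • ContinuousLinearMap.id ℝ H - S.K
  have hA : ∀ v, A v = ε • v - S.K v := fun v => rfl
  let b : H →ₗ[ℝ] H →ₗ[ℝ] ℝ := LinearMap.mk₂ ℝ (fun v w => ⟪A v, w⟫)
    (fun a b c => by rw [map_add, inner_add_left])
    (fun r a c => by rw [map_smul, inner_smul_left]; rfl)
    (fun a b c => by rw [inner_add_right])
    (fun r a c => by rw [inner_smul_right]; rfl)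
  let B : H →L[ℝ] H →L[ℝ] ℝ := b.mkContinuous₂ ‖A‖ (fun v w => by
    show ‖⟪A v, w⟫‖ ≤ _
    calc ‖⟪A v, w⟫‖ ≤ ‖A v‖ * ‖w‖ := norm_inner_le_norm _ _
      _ ≤ ‖A‖ * ‖v‖ * ‖w‖ := by gcongr; exact A.le_opNorm v)
  have hB : ∀ v w, B v w = ⟪A v, w⟫ := fun v w => rfl
  have hco : IsCoercive B := by
    refine ⟨ε, hε, fun u => ?_⟩
    rw [hB, hA, inner_sub_left, inner_K_self, inner_smul_left, real_inner_self_eq_norm_sq]
    simp only [conj_trivial]
    nlinarith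
  let e := hco.continuousLinearEquivOfBilin
  have he : ∀ v, e v = A v := by
    intro v
    apply ext_inner_right ℝ
    intro w
    rw [hco.continuousLinearEquivOfBilin_apply, hB]
  refine ⟨-(e.symm : H →L[ℝ] H), fun u => ?_, fun f => ?_⟩
  · have h1 : A (e.symm u) = u := by rw [← he]; simp
    rw [hA] at h1
    simp only [neg_apply, ContinuousLinearEquiv.coe_coe, map_neg, smul_neg]
    calc -S.K (e.symm u) - -(ε • e.symm u) = ε • e.symm u - S.K (e.symm u) := by abel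
      _ = u := h1
  · have h2 : S.K f - ε • f = -(e f) := by rw [he, hA]; abel
    rw [h2]
    simp

lemma norm_res_le (S : Setting H) {ε : ℝ} (hε : 0 < ε) (g : H) :
    ε * ‖g‖ ≤ ‖S.K g - ε • g‖ ∧ ‖S.K g‖ ≤ ‖S.K g - ε • g‖ := by
  have h := norm_sq_eq S ε g
  constructor
  · apply le_of_sq_le_sq _ (norm_nonneg _)
    rw [h]; nlinarith [sq_nonneg ‖S.K g‖]
  · exact norm_K_le S ε g

/-- existence for the regularised problem -/
lemma exists_rsol [CompleteSpace H] (S : Setting H) {R : ℝ} (hR : 0 ≤ R) :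
    ∃ T, 0 < T ∧ ∃ M, R ≤ M ∧ ∀ ε : ℝ, 0 < ε → ε ≤ 1 → ∀ f₀ : H, ‖f₀‖ ≤ R →
      ∃ f p r : ℝ → H, RSol S ε T f p r ∧ f 0 = f₀ ∧ ∀ t ∈ Icc 0 T, ‖f t‖ ≤ M := by
  obtain ⟨T, hT, M, hRM, hap⟩ := apriori S hR
  refine ⟨T, hT, M, hRM, fun ε hε hε1 f₀ hf₀ => ?_⟩
  obtain ⟨G, hG1, hG2⟩ := resolvent S hε
  set X : H → H := fun f => G (f - S.B f f) with hX
  have hLip : ∀ r : ℝ, ∃ k : NNReal, LipschitzOnWith k X (Metric.closedBall 0 r) := by
    intro r
    refine ⟨⟨‖G‖ * (1 + 2 * ‖S.B‖ * |r|), by positivity⟩, ?_⟩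
    apply LipschitzOnWith.of_dist_le_mul
    intro x hx y hy
    rw [Metric.mem_closedBall, dist_zero_right] at hx hy
    have hx' : ‖x‖ ≤ |r| := hx.trans (le_abs_self r)
    have hy' : ‖y‖ ≤ |r| := hy.trans (le_abs_self r)
    rw [dist_eq_norm, dist_eq_norm]
    show ‖G (x - S.B x x) - G (y - S.B y y)‖ ≤ ‖G‖ * (1 + 2 * ‖S.B‖ * |r|) * ‖x - y‖
    rw [← map_sub]
    have e1 : x - S.B x x - (y - S.B y y) = (x - y) - (S.B x (x - y) + S.B (x - y) y) := by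
      simp only [map_sub, sub_apply]
      abel
    have e2 : ‖S.B x (x - y)‖ ≤ ‖S.B‖ * |r| * ‖x - y‖ := by
      refine (S.B.le_opNorm₂ x (x - y)).trans ?_
      gcongr
    have e3 : ‖S.B (x - y) y‖ ≤ ‖S.B‖ * |r| * ‖x - y‖ := by
      refine (S.B.le_opNorm₂ (x - y) y).trans ?_
      calc ‖S.B‖ * ‖x - y‖ * ‖y‖ ≤ ‖S.B‖ * ‖x - y‖ * |r| := by gcongr
        _ = _ := by ring
    calc ‖G (x - S.B x x - (y - S.B y y))‖ ≤ ‖G‖ * ‖x - S.B x x - (y - S.B y y)‖ := G.le_opNorm _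
      _ ≤ ‖G‖ * (‖x - y‖ + (‖S.B x (x - y)‖ + ‖S.B (x - y) y‖)) := by
        rw [e1]
        gcongr
        exact (norm_sub_le _ _).trans (by gcongr; exact norm_add_le _ _)
      _ ≤ ‖G‖ * (‖x - y‖ + (‖S.B‖ * |r| * ‖x - y‖ + ‖S.B‖ * |r| * ‖x - y‖)) := by gcongr
      _ = _ := by ring
  obtain ⟨f, hf0, hfd, hfM⟩ := ode_exists X hLip hT f₀ (hf₀.trans hRM) (by
    intro τ hτ f hf0 hfd
    apply hap ε hε hε1 τ hτ.1 hτ.2 f (fun t => X (f t)) (by rw [hf0]; exact hf₀) hfd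
    intro t _
    exact hG1 _)
  refine ⟨f, fun t => X (f t), fun t => G (X (f t) - (S.B (f t) (X (f t)) + S.B (X (f t)) (f t))),
    ⟨hfd, ?_, fun t _ => hG1 _, fun t _ => hG1 _⟩, hf0, hfM⟩
  intro t ht
  have h1 := hfd t ht
  have h2 : HasDerivWithinAt (fun t => S.B (f t)) (S.B (X (f t))) (Icc 0 T) t :=
    S.B.hasFDerivAt.comp_hasDerivWithinAt t h1
  have h3 := h2.clm_apply h1
  have h4 := G.hasFDerivAt.comp_hasDerivWithinAt t (h1.sub h3)
  refine h4.congr_deriv ?_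
  rw [add_comm (S.B (X (f t)) (f t))]

/-- density of the range of `K`, quantitatively: `K (K - δ)⁻¹ f₀ → f₀` -/
lemma smoothing [CompleteSpace H] (S : Setting H) (f₀ : H) {η : ℝ} (hη : 0 < η) :
    ∃ δ₀ : ℝ, 0 < δ₀ ∧ ∀ δ : ℝ, 0 < δ → δ ≤ δ₀ → ∀ g, S.K g - δ • g = f₀ →
      ‖S.K g - f₀‖ ≤ η := by
  have hdense : (LinearMap.range (S.K : H →ₗ[ℝ] H)).topologicalClosure = ⊤ := by
    rw [Submodule.topologicalClosure_eq_top_iff, Submodule.eq_bot_iff]
    intro x hx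
    rw [Submodule.mem_orthogonal] at hx
    apply S.inj
    have h1 := hx (S.K (S.K x)) ⟨S.K x, rfl⟩
    have h2 := S.skew (S.K x) x
    rw [h1] at h2
    have h3 : ⟪S.K x, S.K x⟫ = 0 := by linarith
    exact inner_self_eq_zero.1 h3
  have hmem : f₀ ∈ closure (LinearMap.range (S.K : H →ₗ[ℝ] H) : Set H) := by
    rw [← Submodule.topologicalClosure_coe, hdense]; trivial
  obtain ⟨y, ⟨h, rfl⟩, hy⟩ := Metric.mem_closure_iff.1 hmem (η / 2) (by positivity)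
  rw [dist_eq_norm] at hy
  refine ⟨η / (4 * (‖h‖ + 1)), by positivity, fun δ hδ hδ0 g hg => ?_⟩
  -- δ g = K g - f₀ ; (K - δ)(g - h) = f₀ - K h + δ h
  have e1 : S.K (g - h) - δ • (g - h) = (f₀ - S.K h) + δ • h := by
    rw [map_sub, smul_sub, ← hg]; abel
  have h1 := (norm_res_le S hδ (g - h)).1
  rw [e1] at h1
  have e2 : S.K g - f₀ = δ • (g - h) + δ • h := by
    rw [← hg, smul_sub]; abel
  have h2 : ‖δ • h‖ = δ * ‖h‖ := by rw [norm_smul, Real.norm_of_nonneg hδ.le]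
  have h3 : ‖δ • (g - h)‖ = δ * ‖g - h‖ := by rw [norm_smul, Real.norm_of_nonneg hδ.le]
  have h4 : ‖f₀ - S.K h + δ • h‖ ≤ η / 2 + δ * ‖h‖ := by
    refine (norm_add_le _ _).trans ?_
    rw [h2]
    have : ‖f₀ - S.K h‖ ≤ η / 2 := hy.le
    linarith
  have h5 : δ * ‖h‖ ≤ η / 4 := by
    calc δ * ‖h‖ ≤ η / (4 * (‖h‖ + 1)) * (‖h‖ + 1) := by gcongr; linarith
      _ = η / 4 := by field_simp
  rw [e2]
  refine (norm_add_le _ _).trans ?_
  rw [h2, h3]
  linarith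

/-- solutions of the limit problem -/
structure Sol (S : Setting H) (T : ℝ) (f : ℝ → H) : Prop where
  cont : ContinuousOn f (Icc 0 T)
  der : ∀ t ∈ Icc 0 T, HasDerivWithinAt (fun t => S.K (f t)) (f t - S.B (f t) (f t)) (Icc 0 T) t

lemma polar (S : Setting H) (f g : H) : S.B f f - S.B g g
    = (1 / 2 : ℝ) • (S.B (f + g) (f - g) + S.B (f - g) (f + g)) := by
  simp only [map_add, map_sub, add_apply, sub_apply]
  module

/-- uniqueness -/
lemma sol_unique (S : Setting H) {T : ℝ} {f g : ℝ → H} (hf : Sol S T f) (hg : Sol S T g)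
    (h0 : f 0 = g 0) : ∀ t ∈ Icc 0 T, f t = g t := by
  by_cases hT : 0 ≤ T
  swap
  · intro t ht
    exact absurd (ht.1.trans ht.2) hT
  -- bound on N1
  have hC := S.C_one
  have hC0 : 0 ≤ S.C := by linarith
  obtain ⟨m, hm⟩ := isCompact_Icc.exists_bound_of_continuousOn (hf.cont.add hg.cont)
  set m' := max m 0 with hm'
  have hN : ∀ t ∈ Icc 0 T, S.N1 (f t + g t) ≤ S.C * (‖S.K‖ + 1) * m' := by
    intro t ht
    have h1 : ‖f t + g t‖ ≤ m' := (hm t ht).trans (le_max_left _ _)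
    have h2 : ‖S.K (f t + g t)‖ ≤ (‖S.K‖ + 1) * m' := by
      refine (S.K.le_opNorm _).trans ?_
      have : ‖S.K‖ ≤ ‖S.K‖ + 1 := by linarith
      gcongr
    have hk0 : 0 ≤ ‖S.K‖ := norm_nonneg _
    have hm0 : 0 ≤ m' := le_max_right _ _
    have h3 := S.I2 (f t + g t)
    apply le_of_pow_le_pow_left₀ (n := 4) (by norm_num) (by positivity)
    calc S.N1 (f t + g t) ^ 4 ≤ S.C ^ 4 * ‖S.K (f t + g t)‖ * ‖f t + g t‖ ^ 3 := h3
      _ ≤ S.C ^ 4 * ((‖S.K‖ + 1) * m') * m' ^ 3 := by gcongr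
      _ = S.C ^ 4 * (‖S.K‖ + 1) * m' ^ 4 := by ring
      _ ≤ S.C ^ 4 * (‖S.K‖ + 1) ^ 4 * m' ^ 4 := by
        gcongr
        exact le_self_pow₀ (by linarith) (by norm_num)
      _ = _ := by ring
  set a := S.C * (‖S.K‖ + 1) * m' with ha
  have ha0 : 0 ≤ a := by
    have : 0 ≤ m' := le_max_right _ _
    positivity
  -- energy
  set y : ℝ → H := fun t => S.K (f t - g t) with hy
  set y' : ℝ → H := fun t => (f t - S.B (f t) (f t)) - (g t - S.B (g t) (g t)) with hy'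
  have hyd : ∀ t ∈ Icc 0 T, HasDerivWithinAt y (y' t) (Icc 0 T) t := by
    intro t ht
    have := (hf.der t ht).sub (hg.der t ht)
    refine this.congr (fun s _ => ?_) ?_
    · simp [hy]
    · simp [hy]
  have hE : ∀ t ∈ Icc 0 T, HasDerivWithinAt (fun t => ‖y t‖ ^ 2) (2 * ⟪y t, y' t⟫) (Icc 0 T) t :=
    fun t ht => (hyd t ht).norm_sq
  have hin : ∀ t ∈ Icc 0 T, 2 * ⟪y t, y' t⟫ ≤ a * ‖y t‖ ^ 2 := by
    intro t ht
    have e1 : y' t = (f t - g t) - (1 / 2 : ℝ) • (S.B (f t + g t) (f t - g t)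
        + S.B (f t - g t) (f t + g t)) := by
      simp only [hy']
      rw [← polar]; abel
    have h2 := S.B3 (f t + g t) (f t - g t)
    have h3 := inner_K_self S (f t - g t)
    rw [e1, inner_sub_right, inner_smul_right, real_inner_comm (S.B _ _ + _)]
    simp only [hy]
    rw [h3]
    have h4 := (abs_le.1 h2).1
    have h5 : S.N1 (f t + g t) * ‖S.K (f t - g t)‖ ^ 2 ≤ a * ‖S.K (f t - g t)‖ ^ 2 := by
      gcongr
      exact hN t ht
    linarith
  have hcy : ContinuousOn (fun t => ‖y t‖ ^ 2) (Icc 0 T) := fun t ht => (hE t ht).continuousWithinAt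
  have hgron := le_gronwallBound_of_liminf_deriv_right_le (f := fun t => ‖y t‖ ^ 2)
    (f' := fun t => 2 * ⟪y t, y' t⟫) (δ := 0) (K := a) (ε := 0) (a := 0) (b := T) hcy ?_ ?_ ?_
  · intro t ht
    have h1 := hgron t ht
    rw [gronwallBound_ε0_δ0] at h1
    have h2 : y t = 0 := by
      have : ‖y t‖ ^ 2 = 0 := le_antisymm h1 (by positivity)
      simpa using this
    have h3 := S.inj _ h2
    exact sub_eq_zero.1 h3
  · intro t ht r hr
    have h1 := ((hE t ⟨ht.1, ht.2.le⟩).mono_of_mem_nhdsWithin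
      (Icc_mem_nhdsGE_of_mem ht) : HasDerivWithinAt _ _ (Ici t) t)
    exact h1.liminf_right_slope_le hr
  · simp [hy, h0]
  · intro t ht
    rw [add_zero]
    exact hin t ⟨ht.1, ht.2.le⟩

end Pool.Agent.Helper420.KdVWp
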