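import Pool.Agent.Helper420.KdVWp.Abs2

open scoped RealInnerProductSpace Interval
open Set Filter Topology

namespace Pool.Agent.Helper420.KdVWp

variable {H : Type*} [NormedAddCommGroup H] [InnerProductSpace ℝ H]

/-- comparison with smoothed data -/
lemma compare [CompleteSpace H] (S : Setting H) {R M T : ℝ} (hR : 0 ≤ R) (hM : 0 ≤ M) (hT : 0 ≤ T) :
    ∃ c, 0 ≤ c ∧ ∀ ε κ : ℝ, 0 < ε → ε ≤ κ ^ 4 → 0 < κ → κ ≤ 1 →
      ∀ f₀ h₀ : H, ‖f₀‖ ≤ R → S.K h₀ - κ ^ 4 • h₀ = f₀ →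
      ∀ f₁ p₁ r₁ f₂ p₂ r₂ : ℝ → H, RSol S ε T f₁ p₁ r₁ → RSol S ε T f₂ p₂ r₂ →
      ‖f₁ 0‖ ≤ R → ‖f₁ 0 - f₀‖ ≤ κ ^ 4 → f₂ 0 = S.K h₀ →
      (∀ t ∈ Icc 0 T, ‖f₁ t‖ ≤ M) → (∀ t ∈ Icc 0 T, ‖f₂ t‖ ≤ M) →
      ∀ t ∈ Icc 0 T, ‖f₁ t - f₂ t‖ ≤ c * (‖S.K h₀ - f₀‖ + 2 * κ) := by
  obtain ⟨cB, hcB, hB⟩ := bound_p S hM hT
  obtain ⟨Λ, hΛ⟩ : ∃ x : ℝ, x = max (‖S.K‖ + 1 + 3 * R) (cB * (1 + R)) := ⟨_, rfl⟩
  have hΛ1 : ‖S.K‖ + 1 + 3 * R ≤ Λ := hΛ ▸ le_max_left _ _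
  have hΛ2 : cB * (1 + R) ≤ Λ := hΛ ▸ le_max_right _ _
  have hΛ0 : 0 ≤ Λ := by
    have := norm_nonneg S.K
    linarith
  obtain ⟨c, hc, hC⟩ := bona_smith S hM hT hΛ0
  refine ⟨c, hc, ?_⟩
  intro ε κ hε hεκ hκ hκ1 f₀ h₀ hf₀ hh₀ f₁ p₁ r₁ f₂ p₂ r₂ h1 h2 h10R h10 h20 hM1 hM2 t ht
  have hκ4 : 0 < κ ^ 4 := by positivity
  have hκ41 : κ ^ 4 ≤ 1 := pow_le_one₀ hκ.le hκ1
  have hε1 : ε ≤ 1 := hεκ.trans hκ41
  have hκκ : κ ^ 4 ≤ κ := by
    calc κ ^ 4 ≤ κ ^ 1 := pow_le_pow_of_le_one hκ.le hκ1 (by norm_num)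
      _ = κ := pow_one κ
  obtain ⟨n1, n2⟩ := norm_res_le S hκ4 h₀
  rw [hh₀] at n1 n2
  have hh : ‖h₀‖ ≤ R / κ ^ 4 := by
    rw [le_div_iff₀ hκ4]; linarith
  have hp2 : ∀ t ∈ Icc 0 T, ‖p₂ t‖ ≤ Λ / κ ^ 4 := by
    intro t ht
    refine (hB ε hε hε1 f₂ p₂ r₂ h2 hM2 h₀ h20 t ht).trans ?_
    rw [le_div_iff₀ hκ4]
    calc cB * (1 + ‖h₀‖) * κ ^ 4 ≤ cB * (1 + R / κ ^ 4) * κ ^ 4 := by gcongr
      _ = cB * (κ ^ 4 + R) := by field_simp
      _ ≤ cB * (1 + R) := by gcongr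
      _ ≤ Λ := hΛ2
  have hKh : ‖S.K h₀‖ ≤ R := n2.trans hf₀
  have he0 : ‖f₁ 0 - f₂ 0‖ ≤ κ ^ 4 + ‖S.K h₀ - f₀‖ := by
    have e : f₁ 0 - f₂ 0 = (f₁ 0 - f₀) - (S.K h₀ - f₀) := by rw [h20]; abel
    rw [e]
    exact (norm_sub_le _ _).trans (by linarith)
  have he2 : ‖f₁ 0 - f₂ 0‖ ≤ 2 * R := by
    refine (norm_sub_le _ _).trans ?_
    rw [h20]; linarith
  have hsm : ‖S.K (f₁ 0 - f₂ 0) - ε • (f₁ 0 - f₂ 0)‖ ≤ Λ * κ ^ 4 := by
    have e : S.K (f₁ 0 - f₂ 0) - ε • (f₁ 0 - f₂ 0)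
        = S.K (f₁ 0 - f₀) - κ ^ 4 • S.K h₀ - ε • (f₁ 0 - f₂ 0) := by
      have e1 : f₁ 0 - f₂ 0 = (f₁ 0 - f₀) - κ ^ 4 • h₀ := by
        rw [h20, ← hh₀]; abel
      have e2 : S.K (f₁ 0 - f₂ 0) = S.K (f₁ 0 - f₀) - κ ^ 4 • S.K h₀ := by
        rw [e1, map_sub, map_smul]
      rw [e2]
    rw [e]
    refine (norm_sub_le _ _).trans ?_
    have a1 : ‖S.K (f₁ 0 - f₀) - κ ^ 4 • S.K h₀‖ ≤ ‖S.K‖ * κ ^ 4 + κ ^ 4 * R := by
      refine (norm_sub_le _ _).trans ?_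
      rw [norm_smul, Real.norm_of_nonneg hκ4.le]
      gcongr
      exact (S.K.le_opNorm _).trans (by gcongr)
    have a2 : ‖ε • (f₁ 0 - f₂ 0)‖ ≤ κ ^ 4 * (2 * R) := by
      rw [norm_smul, Real.norm_of_nonneg hε.le]
      gcongr
    calc ‖S.K (f₁ 0 - f₀) - κ ^ 4 • S.K h₀‖ + ‖ε • (f₁ 0 - f₂ 0)‖
        ≤ (‖S.K‖ * κ ^ 4 + κ ^ 4 * R) + κ ^ 4 * (2 * R) := add_le_add a1 a2
      _ = (‖S.K‖ + 3 * R) * κ ^ 4 := by ring
      _ ≤ Λ * κ ^ 4 := by gcongr; linarith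
  refine (hC ε κ hε hε1 hκ hκ1 f₁ p₁ r₁ f₂ p₂ r₂ h1 h2 hM1 hM2 hp2 hsm t ht).trans ?_
  exact mul_le_mul_of_nonneg_left (by linarith) hc

/-- the limit of the regularised solutions is a solution -/
lemma limit_sol [CompleteSpace H] (S : Setting H) {T : ℝ} (hT : 0 < T) {M : ℝ} (hM : 0 ≤ M)
    (ε : ℕ → ℝ) (hε : Tendsto ε atTop (𝓝 0)) (F p r : ℕ → ℝ → H)
    (hF : ∀ n, RSol S (ε n) T (F n) (p n) (r n)) (hFM : ∀ n, ∀ t ∈ Icc 0 T, ‖F n t‖ ≤ M)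
    (f : ℝ → H) (hf : TendstoUniformlyOn F f atTop (Icc 0 T)) : Sol S T f ∧ ∀ t ∈ Icc 0 T, ‖f t‖ ≤ M := by
  have hFc : ∀ n, ContinuousOn (F n) (Icc 0 T) := fun n t ht => ((hF n).df t ht).continuousWithinAt
  have hfc : ContinuousOn f (Icc 0 T) := hf.continuousOn (Frequently.of_forall hFc)
  have hpt : ∀ t ∈ Icc 0 T, Tendsto (fun n => F n t) atTop (𝓝 (f t)) := fun t ht => hf.tendsto_at ht
  have hfM : ∀ t ∈ Icc 0 T, ‖f t‖ ≤ M := by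
    intro t ht
    exact le_of_tendsto (hpt t ht).norm (Eventually.of_forall fun n => hFM n t ht)
  refine ⟨⟨hfc, ?_⟩, hfM⟩
  set w : ℝ → H := fun t => f t - S.B (f t) (f t) with hw
  have hcB : Continuous (fun x : H => S.B x x) := by fun_prop
  have hwc : ContinuousOn w (Icc 0 T) := hfc.sub (hcB.comp_continuousOn hfc)
  -- integral equation
  have hint : ∀ t ∈ Icc 0 T, S.K (f t) = S.K (f 0) + ∫ s in (0:ℝ)..t, w s := by
    intro t ht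
    have hsub : Icc 0 t ⊆ Icc 0 T := Icc_subset_Icc_right ht.2
    have hn : ∀ n, (S.K (F n t) - ε n • F n t) = (S.K (F n 0) - ε n • F n 0)
        + ∫ s in (0:ℝ)..t, (F n s - S.B (F n s) (F n s)) := by
      intro n
      have hd : ∀ s ∈ Icc 0 t, HasDerivWithinAt (fun s => S.K (F n s) - ε n • F n s)
          (F n s - S.B (F n s) (F n s)) (Icc 0 t) s := by
        intro s hs
        have h1 := ((hF n).df s (hsub hs)).mono hsub
        have h2 := (S.K.hasFDerivAt.comp_hasDerivWithinAt s h1).sub (h1.const_smul (ε n))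
        rw [← (hF n).ep s (hsub hs)]
        exact h2
      have hcont : ContinuousOn (fun s => F n s - S.B (F n s) (F n s)) (Icc 0 t) :=
        ((hFc n).sub (hcB.comp_continuousOn (hFc n))).mono hsub
      have := intervalIntegral.integral_eq_sub_of_hasDerivAt_of_le ht.1
        (f := fun s => S.K (F n s) - ε n • F n s) (fun s hs => (hd s hs).continuousWithinAt)
        (fun s hs => (hd s (Ioo_subset_Icc_self hs)).hasDerivAt (Icc_mem_nhds hs.1 hs.2))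
        (hcont.intervalIntegrable_of_Icc ht.1)
      rw [this]; abel
    have l1 : Tendsto (fun n => S.K (F n t) - ε n • F n t) atTop (𝓝 (S.K (f t) - (0:ℝ) • f t)) :=
      ((S.K.continuous.tendsto _).comp (hpt t ht)).sub (hε.smul (hpt t ht))
    have l2 : Tendsto (fun n => S.K (F n 0) - ε n • F n 0) atTop (𝓝 (S.K (f 0) - (0:ℝ) • f 0)) :=
      ((S.K.continuous.tendsto _).comp (hpt 0 ⟨le_rfl, hT.le⟩)).sub (hε.smul (hpt 0 ⟨le_rfl, hT.le⟩))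
    have l3 : Tendsto (fun n => ∫ s in (0:ℝ)..t, (F n s - S.B (F n s) (F n s))) atTop
        (𝓝 (∫ s in (0:ℝ)..t, w s)) := by
      rw [tendsto_iff_norm_sub_tendsto_zero]
      rw [Metric.tendstoUniformlyOn_iff] at hf
      rw [Metric.tendsto_atTop]
      intro θ hθ
      set K := (1 + 2 * ‖S.B‖ * M) with hK
      have hK0 : 0 < K := by positivity
      obtain ⟨N, hN⟩ := eventually_atTop.1 (hf (θ / (2 * K * T)) (by positivity))
      refine ⟨N, fun n hn => ?_⟩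
      rw [dist_zero_right, norm_norm]
      have i1 : IntervalIntegrable (fun s => F n s - S.B (F n s) (F n s)) MeasureTheory.volume 0 t :=
        (((hFc n).sub (hcB.comp_continuousOn (hFc n))).mono hsub).intervalIntegrable_of_Icc ht.1
      have i2 : IntervalIntegrable w MeasureTheory.volume 0 t :=
        (hwc.mono hsub).intervalIntegrable_of_Icc ht.1
      rw [← intervalIntegral.integral_sub i1 i2]
      have hb : ∀ s ∈ Ι 0 t, ‖(F n s - S.B (F n s) (F n s)) - w s‖ ≤ K * (θ / (2 * K * T)) := by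
        intro s hs
        rw [uIoc_of_le ht.1] at hs
        have hsI : s ∈ Icc 0 T := ⟨hs.1.le, hs.2.trans ht.2⟩
        have hd := hN n hn s hsI
        rw [dist_comm, dist_eq_norm] at hd
        have e1 : (F n s - S.B (F n s) (F n s)) - w s
            = (F n s - f s) - (S.B (F n s) (F n s - f s) + S.B (F n s - f s) (f s)) := by
          simp only [hw, map_sub, sub_apply]
          abel
        have e2 : ‖S.B (F n s) (F n s - f s)‖ ≤ ‖S.B‖ * M * ‖F n s - f s‖ := by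
          refine (S.B.le_opNorm₂ _ _).trans ?_
          gcongr
          exact hFM n s hsI
        have e3 : ‖S.B (F n s - f s) (f s)‖ ≤ ‖S.B‖ * M * ‖F n s - f s‖ := by
          refine (S.B.le_opNorm₂ _ _).trans ?_
          calc ‖S.B‖ * ‖F n s - f s‖ * ‖f s‖ ≤ ‖S.B‖ * ‖F n s - f s‖ * M := by
                gcongr; exact hfM s hsI
            _ = _ := by ring
        rw [e1]
        calc ‖(F n s - f s) - (S.B (F n s) (F n s - f s) + S.B (F n s - f s) (f s))‖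
            ≤ ‖F n s - f s‖ + (‖S.B (F n s) (F n s - f s)‖ + ‖S.B (F n s - f s) (f s)‖) :=
              (norm_sub_le _ _).trans (by gcongr; exact norm_add_le _ _)
          _ ≤ ‖F n s - f s‖ + (‖S.B‖ * M * ‖F n s - f s‖ + ‖S.B‖ * M * ‖F n s - f s‖) := by gcongr
          _ = K * ‖F n s - f s‖ := by rw [hK]; ring
          _ ≤ K * (θ / (2 * K * T)) := by gcongr
      have hle := intervalIntegral.norm_integral_le_of_norm_le_const hb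
      refine lt_of_le_of_lt hle ?_
      rw [sub_zero, abs_of_nonneg ht.1]
      calc K * (θ / (2 * K * T)) * t ≤ K * (θ / (2 * K * T)) * T := by gcongr; exact ht.2
        _ = θ / 2 := by field_simp
        _ < θ := by linarith
    have l4 := l2.add l3
    have := tendsto_nhds_unique (l1.congr hn) l4
    simpa using this
  -- derivative
  intro t ht
  let wt : ℝ → H := fun s => w (projIcc 0 T hT.le s)
  have hwt : Continuous wt := hwc.comp_continuous (by fun_prop) (fun s => (projIcc 0 T hT.le s).2)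
  have hd : HasDerivAt (fun t => S.K (f 0) + ∫ s in (0:ℝ)..t, wt s) (wt t) t :=
    (intervalIntegral.integral_hasDerivAt_right (hwt.intervalIntegrable _ _)
      (hwt.stronglyMeasurableAtFilter _ _) hwt.continuousAt).const_add _
  have hwtt : ∀ s ∈ Icc 0 T, wt s = w s := by
    intro s hs
    simp only [wt]
    rw [projIcc_of_mem hT.le hs]
  show HasDerivWithinAt (fun t => S.K (f t)) (w t) (Icc 0 T) t
  rw [← hwtt t ht]
  refine hd.hasDerivWithinAt.congr (fun s hs => ?_) ?_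
  · rw [hint s hs]
    congr 1
    apply intervalIntegral.integral_congr
    intro x hx
    rw [uIcc_of_le hs.1] at hx
    exact (hwtt x ⟨hx.1, hx.2.trans hs.2⟩).symm
  · rw [hint t ht]
    congr 1
    apply intervalIntegral.integral_congr
    intro x hx
    rw [uIcc_of_le ht.1] at hx
    exact (hwtt x ⟨hx.1, hx.2.trans ht.2⟩).symm

/-- **abstract well-posedness** -/
theorem abstract_wp [CompleteSpace H] (S : Setting H) {R : ℝ} (hR : 0 ≤ R) :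
    ∃ T, 0 < T ∧ ∃ M, R ≤ M ∧
      (∀ f₀ : H, ‖f₀‖ ≤ R → ∃ f, Sol S T f ∧ f 0 = f₀ ∧ ∀ t ∈ Icc 0 T, ‖f t‖ ≤ M) ∧
      (∀ f₀ : H, ‖f₀‖ ≤ R → ∀ θ : ℝ, 0 < θ → ∃ δ : ℝ, 0 < δ ∧ ∀ g₀ : H, ‖g₀‖ ≤ R → ‖g₀ - f₀‖ ≤ δ →
        ∀ f g, Sol S T f → Sol S T g → f 0 = f₀ → g 0 = g₀ →
          ∀ t ∈ Icc 0 T, ‖f t - g t‖ ≤ θ) := by
  obtain ⟨T, hT, M, hRM, hex⟩ := exists_rsol S hR
  have hM : 0 ≤ M := hR.trans hRM
  obtain ⟨c, hc, hcomp⟩ := compare S hR hM hT.le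
  obtain ⟨cB, hcB, hB⟩ := bound_p S hM hT.le
  -- choice of the smoothing parameter
  have hsm : ∀ f₀ : H, ‖f₀‖ ≤ R → ∀ θ : ℝ, 0 < θ → ∃ κ : ℝ, 0 < κ ∧ κ ≤ 1 ∧ ∃ h₀ : H,
      S.K h₀ - κ ^ 4 • h₀ = f₀ ∧ ‖S.K h₀‖ ≤ R ∧ c * (‖S.K h₀ - f₀‖ + 2 * κ) ≤ θ := by
    intro f₀ hf₀ θ hθ
    obtain ⟨δ₀, hδ₀, hs⟩ := smoothing S f₀ (η := θ / (2 * (c + 1))) (by positivity)
    set κ := min (min 1 δ₀) (θ / (4 * (c + 1))) with hκ
    have hκ0 : 0 < κ := by positivity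
    have hκ1 : κ ≤ 1 := (min_le_left _ _).trans (min_le_left _ _)
    have hκδ : κ ≤ δ₀ := (min_le_left _ _).trans (min_le_right _ _)
    have hκθ : κ ≤ θ / (4 * (c + 1)) := min_le_right _ _
    have hκ4 : κ ^ 4 ≤ κ := by
      calc κ ^ 4 ≤ κ ^ 1 := pow_le_pow_of_le_one hκ0.le hκ1 (by norm_num)
        _ = κ := pow_one κ
    obtain ⟨G, hG1, hG2⟩ := resolvent S (ε := κ ^ 4) (by positivity)
    refine ⟨κ, hκ0, hκ1, G f₀, hG1 f₀, ?_, ?_⟩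
    · have := (norm_res_le S (ε := κ ^ 4) (by positivity) (G f₀)).2
      rw [hG1] at this
      exact this.trans hf₀
    · have h1 := hs (κ ^ 4) (by positivity) (hκ4.trans hκδ) (G f₀) (hG1 f₀)
      calc c * (‖S.K (G f₀) - f₀‖ + 2 * κ)
          ≤ c * (θ / (2 * (c + 1)) + 2 * (θ / (4 * (c + 1)))) := by gcongr
        _ = c / (c + 1) * θ := by field_simp; ring
        _ ≤ 1 * θ := by
          gcongr
          rw [div_le_one (by positivity)]; linarith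
        _ = θ := one_mul θ
  -- existence, with approximation property
  have hexist : ∀ f₀ : H, ‖f₀‖ ≤ R → ∃ f, Sol S T f ∧ f 0 = f₀ ∧ (∀ t ∈ Icc 0 T, ‖f t‖ ≤ M) ∧
      ∀ θ : ℝ, 0 < θ → ∃ N : ℕ, ∀ n ≥ N, ∀ F p r : ℝ → H, RSol S (1 / ((n:ℝ) + 1)) T F p r → F 0 = f₀ →
        (∀ t ∈ Icc 0 T, ‖F t‖ ≤ M) → ∀ t ∈ Icc 0 T, ‖F t - f t‖ ≤ θ := by
    intro f₀ hf₀
    have he : ∀ n : ℕ, 0 < 1 / ((n:ℝ) + 1) ∧ 1 / ((n:ℝ) + 1) ≤ 1 := by
      intro n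
      refine ⟨by positivity, ?_⟩
      rw [div_le_one (by positivity)]
      linarith [Nat.cast_nonneg (α := ℝ) n]
    choose F p r hF hF0 hFM using fun n : ℕ => hex (1 / ((n:ℝ) + 1)) (he n).1 (he n).2 f₀ hf₀
    have hlim0 : Tendsto (fun n : ℕ => 1 / ((n:ℝ) + 1)) atTop (𝓝 0) := tendsto_one_div_add_atTop_nhds_zero_nat
    -- Cauchy
    have hcau : ∀ θ : ℝ, 0 < θ → ∃ N : ℕ, ∀ n ≥ N, ∀ m ≥ N, ∀ F p r F' p' r' : ℝ → H,
        RSol S (1 / ((n:ℝ) + 1)) T F p r → RSol S (1 / ((m:ℝ) + 1)) T F' p' r' →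
        F 0 = f₀ → F' 0 = f₀ → (∀ t ∈ Icc 0 T, ‖F t‖ ≤ M) → (∀ t ∈ Icc 0 T, ‖F' t‖ ≤ M) →
        ∀ t ∈ Icc 0 T, ‖F t - F' t‖ ≤ θ := by
      intro θ hθ
      obtain ⟨κ, hκ0, hκ1, h₀, hh₀, hKh, hcκ⟩ := hsm f₀ hf₀ (θ / 3) (by positivity)
      obtain ⟨cP, hcP, hP⟩ := cauchy_eps S hM hT.le (P := cB * (1 + ‖h₀‖)) (by positivity)
      set κ' := min κ (θ / (3 * (cP + 1))) with hκ'
      have hκ'0 : 0 < κ' := by positivity
      have hκ'κ : κ' ≤ κ := min_le_left _ _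
      have hκ'1 : κ' ≤ 1 := hκ'κ.trans hκ1
      have hκ'θ : cP * κ' ≤ θ / 3 := by
        calc cP * κ' ≤ cP * (θ / (3 * (cP + 1))) := by gcongr; exact min_le_right _ _
          _ = cP / (cP + 1) * (θ / 3) := by field_simp
          _ ≤ 1 * (θ / 3) := by
            gcongr
            rw [div_le_one (by positivity)]; linarith
          _ = θ / 3 := one_mul _
      have hκ84 : κ' ^ 8 ≤ κ ^ 4 := by
        calc κ' ^ 8 ≤ κ' ^ 4 := pow_le_pow_of_le_one hκ'0.le hκ'1 (by norm_num)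
          _ ≤ κ ^ 4 := by gcongr
      obtain ⟨N, hN⟩ := eventually_atTop.1 (hlim0.eventually (gt_mem_nhds (show 0 < κ' ^ 8 by positivity)))
      refine ⟨N, fun n hn m hm F p r F' p' r' hF hF' hF0 hF0' hFM hFM' t ht => ?_⟩
      have en := (hN n hn).le
      have em := (hN m hm).le
      obtain ⟨F2, p2, r2, hF2, hF20, hF2M⟩ := hex (1 / ((n:ℝ) + 1)) (he n).1 (he n).2 (S.K h₀) hKh
      obtain ⟨F3, p3, r3, hF3, hF30, hF3M⟩ := hex (1 / ((m:ℝ) + 1)) (he m).1 (he m).2 (S.K h₀) hKh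
      have hz : ‖f₀ - f₀‖ ≤ κ ^ 4 := by rw [sub_self, norm_zero]; positivity
      have d1 := hcomp (1 / ((n:ℝ) + 1)) κ (he n).1 (en.trans hκ84) hκ0 hκ1 f₀ h₀ hf₀ hh₀
        F p r F2 p2 r2 hF hF2 (by rw [hF0]; exact hf₀) (by rw [hF0]; exact hz) hF20 hFM hF2M t ht
      have d2 := hcomp (1 / ((m:ℝ) + 1)) κ (he m).1 (em.trans hκ84) hκ0 hκ1 f₀ h₀ hf₀ hh₀
        F' p' r' F3 p3 r3 hF' hF3 (by rw [hF0']; exact hf₀) (by rw [hF0']; exact hz) hF30 hFM' hF3M t ht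
      have d3 := hP (1 / ((n:ℝ) + 1)) (1 / ((m:ℝ) + 1)) κ' (he n).1 en (he m).1 em hκ'0 hκ'1
        F2 p2 r2 F3 p3 r3 hF2 hF3 (by rw [hF20, hF30]) hF2M hF3M
        (hB _ (he n).1 (he n).2 F2 p2 r2 hF2 hF2M h₀ hF20)
        (hB _ (he m).1 (he m).2 F3 p3 r3 hF3 hF3M h₀ hF30) t ht
      have e : F t - F' t = (F t - F2 t) + (F2 t - F3 t) - (F' t - F3 t) := by abel
      rw [e]
      calc ‖(F t - F2 t) + (F2 t - F3 t) - (F' t - F3 t)‖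
          ≤ ‖(F t - F2 t) + (F2 t - F3 t)‖ + ‖F' t - F3 t‖ := norm_sub_le _ _
        _ ≤ ‖F t - F2 t‖ + ‖F2 t - F3 t‖ + ‖F' t - F3 t‖ := by gcongr; exact norm_add_le _ _
        _ ≤ θ / 3 + θ / 3 + θ / 3 := by
          gcongr
          · exact d1.trans hcκ
          · exact d3.trans hκ'θ
          · exact d2.trans hcκ
        _ = θ := by ring
    have hUC : UniformCauchySeqOn F atTop (Icc 0 T) := by
      rw [Metric.uniformCauchySeqOn_iff]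
      intro θ hθ
      obtain ⟨N, hN⟩ := hcau (θ / 2) (by positivity)
      refine ⟨N, fun m hm n hn t ht => ?_⟩
      rw [dist_eq_norm]
      have := hN m hm n hn (F m) (p m) (r m) (F n) (p n) (r n) (hF m) (hF n) (hF0 m) (hF0 n)
        (hFM m) (hFM n) t ht
      linarith
    have hptl : ∀ t : ℝ, ∃ y : H, t ∈ Icc 0 T → Tendsto (fun n => F n t) atTop (𝓝 y) := by
      intro t
      by_cases ht : t ∈ Icc 0 T
      · obtain ⟨y, hy⟩ := cauchySeq_tendsto_of_complete (hUC.cauchySeq ht)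
        exact ⟨y, fun _ => hy⟩
      · exact ⟨0, fun h => absurd h ht⟩
    choose f hf using hptl
    have hUf : TendstoUniformlyOn F f atTop (Icc 0 T) :=
      hUC.tendstoUniformlyOn_of_tendsto (fun t ht => hf t ht)
    obtain ⟨hsol, hfM⟩ := limit_sol S hT hM (fun n : ℕ => 1 / ((n:ℝ) + 1)) hlim0 F p r hF hFM f hUf
    refine ⟨f, hsol, ?_, hfM, ?_⟩
    · have h0 : (0:ℝ) ∈ Icc 0 T := ⟨le_rfl, hT.le⟩
      refine tendsto_nhds_unique (hf 0 h0) ?_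
      simp only [hF0]
      exact tendsto_const_nhds
    · intro θ hθ
      obtain ⟨N, hN⟩ := hcau θ hθ
      refine ⟨N, fun n hn F' p' r' hF' hF0' hFM' t ht => ?_⟩
      have l1 : Tendsto (fun m => ‖F' t - F m t‖) atTop (𝓝 ‖F' t - f t‖) :=
        (tendsto_const_nhds.sub (hf t ht)).norm
      apply le_of_tendsto l1
      filter_upwards [eventually_ge_atTop N] with m hm
      exact hN n hn m hm F' p' r' (F m) (p m) (r m) hF' (hF m) hF0' (hF0 m) hFM' (hFM m) t ht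
  refine ⟨T, hT, M, hRM, ?_, ?_⟩
  · intro f₀ hf₀
    obtain ⟨f, h1, h2, h3, _⟩ := hexist f₀ hf₀
    exact ⟨f, h1, h2, h3⟩
  · intro f₀ hf₀ θ hθ
    obtain ⟨κ, hκ0, hκ1, h₀, hh₀, hKh, hcκ⟩ := hsm f₀ hf₀ (θ / 4) (by positivity)
    refine ⟨κ ^ 4, by positivity, fun g₀ hg₀ hgf f g hf hg hf0 hg0 t ht => ?_⟩
    obtain ⟨f', hf', hf'0, hf'M, hfa⟩ := hexist f₀ hf₀
    obtain ⟨g', hg', hg'0, hg'M, hga⟩ := hexist g₀ hg₀
    have ef : f t = f' t := sol_unique S hf hf' (by rw [hf0, hf'0]) t ht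
    have eg : g t = g' t := sol_unique S hg hg' (by rw [hg0, hg'0]) t ht
    obtain ⟨N1, hN1⟩ := hfa (θ / 4) (by positivity)
    obtain ⟨N2, hN2⟩ := hga (θ / 4) (by positivity)
    have hlim0 : Tendsto (fun n : ℕ => 1 / ((n:ℝ) + 1)) atTop (𝓝 0) := tendsto_one_div_add_atTop_nhds_zero_nat
    obtain ⟨N3, hN3⟩ := eventually_atTop.1 (hlim0.eventually (gt_mem_nhds (show 0 < κ ^ 4 by positivity)))
    set n := max N1 (max N2 N3) with hn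
    have he : 0 < 1 / ((n:ℝ) + 1) ∧ 1 / ((n:ℝ) + 1) ≤ 1 := by
      refine ⟨by positivity, ?_⟩
      rw [div_le_one (by positivity)]
      linarith [Nat.cast_nonneg (α := ℝ) n]
    have hnκ : 1 / ((n:ℝ) + 1) ≤ κ ^ 4 := (hN3 n ((le_max_right _ _).trans (le_max_right _ _))).le
    obtain ⟨F1, p1, r1, hF1, hF10, hF1M⟩ := hex (1 / ((n:ℝ) + 1)) he.1 he.2 f₀ hf₀
    obtain ⟨F2, p2, r2, hF2, hF20, hF2M⟩ := hex (1 / ((n:ℝ) + 1)) he.1 he.2 g₀ hg₀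
    obtain ⟨F3, p3, r3, hF3, hF30, hF3M⟩ := hex (1 / ((n:ℝ) + 1)) he.1 he.2 (S.K h₀) hKh
    have a1 := hN1 n (le_max_left _ _) F1 p1 r1 hF1 hF10 hF1M t ht
    have a2 := hN2 n ((le_max_left _ _).trans (le_max_right _ _)) F2 p2 r2 hF2 hF20 hF2M t ht
    have hz : ‖f₀ - f₀‖ ≤ κ ^ 4 := by rw [sub_self, norm_zero]; positivity
    have d1 := hcomp (1 / ((n:ℝ) + 1)) κ he.1 hnκ hκ0 hκ1 f₀ h₀ hf₀ hh₀
        F1 p1 r1 F3 p3 r3 hF1 hF3 (by rw [hF10]; exact hf₀) (by rw [hF10]; exact hz) hF30 hF1M hF3M t ht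
    have d2 := hcomp (1 / ((n:ℝ) + 1)) κ he.1 hnκ hκ0 hκ1 f₀ h₀ hf₀ hh₀
        F2 p2 r2 F3 p3 r3 hF2 hF3 (by rw [hF20]; exact hg₀) (by rw [hF20]; exact hgf) hF30 hF2M hF3M t ht
    rw [ef, eg]
    have e : f' t - g' t = -(F1 t - f' t) + (F1 t - F3 t) - (F2 t - F3 t) + (F2 t - g' t) := by abel
    rw [e]
    calc ‖-(F1 t - f' t) + (F1 t - F3 t) - (F2 t - F3 t) + (F2 t - g' t)‖
        ≤ ‖-(F1 t - f' t) + (F1 t - F3 t) - (F2 t - F3 t)‖ + ‖F2 t - g' t‖ := norm_add_le _ _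
      _ ≤ ‖-(F1 t - f' t) + (F1 t - F3 t)‖ + ‖F2 t - F3 t‖ + ‖F2 t - g' t‖ := by
        gcongr; exact norm_sub_le _ _
      _ ≤ ‖F1 t - f' t‖ + ‖F1 t - F3 t‖ + ‖F2 t - F3 t‖ + ‖F2 t - g' t‖ := by
        gcongr
        refine (norm_add_le _ _).trans ?_
        rw [norm_neg]
      _ ≤ θ / 4 + θ / 4 + θ / 4 + θ / 4 := by
        gcongr
        · exact d1.trans hcκ
        · exact d2.trans hcκ
      _ = θ := by ring

end Pool.Agent.Helper420.KdVWp
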