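import Pool.Agent.Helper420.KdVWp.Ops

open MeasureTheory Set Filter Topology
open scoped RealInnerProductSpace Interval ENNReal

namespace Pool.Agent.Helper420.KdVWp

variable {L : ℝ}

/-- fundamental theorem of calculus on `[0,L]`, one-sided at the end points -/
lemma prim_deriv (hL : 0 < L) {g : ℝ → ℝ} (hg : ContinuousOn g (Icc 0 L)) :
    ∀ x ∈ Icc 0 L, HasDerivWithinAt (prim g) (g x) (Icc 0 L) x := by
  intro x hx
  let gt : ℝ → ℝ := fun s => g (projIcc 0 L hL.le s)
  have hgt : Continuous gt := hg.comp_continuous (by fun_prop) (fun s => (projIcc 0 L hL.le s).2)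
  have hd : HasDerivAt (fun t => ∫ s in (0:ℝ)..t, gt s) (gt x) x :=
    intervalIntegral.integral_hasDerivAt_right (hgt.intervalIntegrable _ _)
      (hgt.stronglyMeasurableAtFilter _ _) hgt.continuousAt
  have hgtt : ∀ s ∈ Icc 0 L, gt s = g s := by
    intro s hs
    simp only [gt]
    rw [projIcc_of_mem hL.le hs]
  rw [← hgtt x hx]
  have hcongr : ∀ s ∈ Icc 0 L, prim g s = ∫ y in (0:ℝ)..s, gt y := by
    intro s hs
    unfold prim
    apply intervalIntegral.integral_congr
    intro y hy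
    rw [uIcc_of_le hs.1] at hy
    exact (hgtt y ⟨hy.1, hy.2.trans hs.2⟩).symm
  exact hd.hasDerivWithinAt.congr hcongr (hcongr x hx)

lemma ftc' (hL : 0 < L) {G g : ℝ → ℝ} (hG : ∀ x ∈ Icc 0 L, HasDerivWithinAt G (g x) (Icc 0 L) x)
    (hg : ContinuousOn g (Icc 0 L)) {x : ℝ} (hx : x ∈ Icc 0 L) :
    ∫ y in (0:ℝ)..x, g y = G x - G 0 := by
  have hsub : Icc 0 x ⊆ Icc 0 L := Icc_subset_Icc_right hx.2
  apply intervalIntegral.integral_eq_sub_of_hasDerivAt_of_le hx.1
    (fun y hy => (hG y (hsub hy)).continuousWithinAt.mono hsub)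
  · intro y hy
    exact (hG y (hsub (Ioo_subset_Icc_self hy))).hasDerivAt (Icc_mem_nhds hy.1 (hy.2.trans_le hx.2))
  · exact (hg.mono hsub).intervalIntegrable_of_Icc hx.1

section
variable {f : ℝ → ℝ}

lemma du1 (hL : 0 < L) (hf : IntervalIntegrable f volume 0 L) :
    ∀ x ∈ Icc 0 L, HasDerivWithinAt (u1 L f) (u2 L f x) (Icc 0 L) x := by
  intro x hx
  have h := u2_cont hf
  rw [uIcc_of_le hL.le] at h
  exact (prim_deriv hL h x hx).sub_const _

lemma du0 (hL : 0 < L) (hf : IntervalIntegrable f volume 0 L) :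
    ∀ x ∈ Icc 0 L, HasDerivWithinAt (u0 L f) (u1 L f x) (Icc 0 L) x := by
  intro x hx
  have h := u1_cont hf
  rw [uIcc_of_le hL.le] at h
  exact prim_deriv hL h x hx

lemma du2 (hL : 0 < L) (hf : ContinuousOn f (Icc 0 L)) :
    ∀ x ∈ Icc 0 L, HasDerivWithinAt (u2 L f) (-f x) (Icc 0 L) x := by
  intro x hx
  exact (prim_deriv hL hf x hx).const_sub _

lemma u0_zero : u0 L f 0 = 0 := by simp [u0, prim]

lemma u0_L (hL : 0 < L) (hf : IntervalIntegrable f volume 0 L) : u0 L f L = 0 := int_u1 hL hf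

lemma u1_L (hL : 0 < L) (hf : IntervalIntegrable f volume 0 L) : u1 L f L = u1 L f 0 := by
  have h := int_u2 hL hf
  unfold u1
  have e1 : prim (u2 L f) L = 0 := h
  have e2 : prim (u2 L f) 0 = 0 := by simp [prim]
  rw [e1, e2]

lemma u2_eq (x : ℝ) : u2 L f x = u2 L f 0 - ∫ y in (0:ℝ)..x, f y := by
  unfold u2
  have : prim f 0 = 0 := by simp [prim]
  rw [this, sub_zero]; rfl

end

/-- characterisation of `u0 L q` -/
lemma char (hL : 0 < L) {v v1 v2 q : ℝ → ℝ} 
    (h1 : ∀ x ∈ Icc 0 L, HasDerivWithinAt v (v1 x) (Icc 0 L) x)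
    (h2 : ∀ x ∈ Icc 0 L, HasDerivWithinAt v1 (v2 x) (Icc 0 L) x)
    (h3 : ∀ x ∈ Icc 0 L, v2 x = v2 0 - ∫ y in (0:ℝ)..x, q y)
    (hc : ContinuousOn v2 (Icc 0 L))
    (b0 : v 0 = 0) (bL : v L = 0) (b1 : v1 0 = v1 L) :
    ∀ x ∈ Icc 0 L, v x = u0 L q x ∧ v1 x = u1 L q x ∧ v2 x = u2 L q x := by
  have hL' : L ∈ Icc 0 L := ⟨hL.le, le_rfl⟩
  have c1 : ContinuousOn v1 (Icc 0 L) := fun x hx => (h2 x hx).continuousWithinAt
  have e1 : ∀ x ∈ Icc 0 L, v2 x = u2 L q x := by
    have i1 : ∫ y in (0:ℝ)..L, v2 y = 0 := by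
      rw [ftc' hL h2 hc hL', b1, sub_self]
    have i2 : ∫ y in (0:ℝ)..L, v2 y = ∫ y in (0:ℝ)..L, (v2 0 - prim q y) := by
      apply intervalIntegral.integral_congr
      intro y hy
      rw [uIcc_of_le hL.le] at hy
      exact h3 y hy
    have hp : ContinuousOn (prim q) (Icc 0 L) := by
      have : ContinuousOn (fun x => v2 0 - v2 x) (Icc 0 L) := continuousOn_const.sub hc
      refine this.congr (fun x hx => ?_)
      show prim q x = v2 0 - v2 x
      rw [h3 x hx]; unfold prim; ring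
    rw [i2, intervalIntegral.integral_sub intervalIntegrable_const (hp.intervalIntegrable_of_Icc hL.le),
      intervalIntegral.integral_const, sub_zero, smul_eq_mul] at i1
    have e : v2 0 = mean L (prim q) := by
      unfold mean
      field_simp
      linarith
    intro x hx
    rw [h3 x hx, e]; rfl
  have e2 : ∀ x ∈ Icc 0 L, v1 x = v1 0 + prim (u2 L q) x := by
    intro x hx
    have := ftc' hL h2 hc hx
    have i : ∫ y in (0:ℝ)..x, v2 y = prim (u2 L q) x := by
      unfold prim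
      apply intervalIntegral.integral_congr
      intro y hy
      rw [uIcc_of_le hx.1] at hy
      exact e1 y ⟨hy.1, hy.2.trans hx.2⟩
    rw [← i, this]; ring
  have e3 : ∀ x ∈ Icc 0 L, v1 x = u1 L q x := by
    have i1 : ∫ y in (0:ℝ)..L, v1 y = 0 := by
      rw [ftc' hL h1 c1 hL', bL, b0, sub_self]
    have i2 : ∫ y in (0:ℝ)..L, v1 y = ∫ y in (0:ℝ)..L, (v1 0 + prim (u2 L q) y) := by
      apply intervalIntegral.integral_congr
      intro y hy
      rw [uIcc_of_le hL.le] at hy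
      exact e2 y hy
    have hp : ContinuousOn (prim (u2 L q)) (Icc 0 L) := by
      have : ContinuousOn (fun x => v1 x - v1 0) (Icc 0 L) := c1.sub continuousOn_const
      refine this.congr (fun x hx => ?_)
      show prim (u2 L q) x = v1 x - v1 0
      rw [e2 x hx]; ring
    rw [i2, intervalIntegral.integral_add intervalIntegrable_const (hp.intervalIntegrable_of_Icc hL.le),
      intervalIntegral.integral_const, sub_zero, smul_eq_mul] at i1
    have e : v1 0 = -mean L (prim (u2 L q)) := by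
      unfold mean
      field_simp
      linarith
    intro x hx
    rw [e2 x hx, e]; unfold u1; ring
  intro x hx
  refine ⟨?_, e3 x hx, e1 x hx⟩
  have := ftc' hL h1 c1 hx
  have i : ∫ y in (0:ℝ)..x, v1 y = u0 L q x := by
    unfold u0 prim
    apply intervalIntegral.integral_congr
    intro y hy
    rw [uIcc_of_le hx.1] at hy
    exact e3 y ⟨hy.1, hy.2.trans hx.2⟩
  rw [← i, this, b0, sub_zero]

/-! ### inner products and norms -/

lemma inner_HL (hL : 0 < L) (f g : HL L) : ⟪f, g⟫ = ∫ x in (0:ℝ)..L, f x * g x := by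
  rw [L2.inner_def, intervalIntegral.integral_of_le hL.le]
  apply integral_congr_ae
  exact Eventually.of_forall fun x => by simp [mul_comm]

lemma inner_iota (hL : 0 < L) (g h : C(Icc (0:ℝ) L, ℝ)) :
    ⟪iota L hL g, iota L hL h⟫ = ∫ x in (0:ℝ)..L, IccExtend hL.le g x * IccExtend hL.le h x := by
  rw [inner_HL hL, intervalIntegral.integral_of_le hL.le, intervalIntegral.integral_of_le hL.le]
  apply integral_congr_ae
  filter_upwards [iota_coe hL g, iota_coe hL h] with x h1 h2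
  rw [h1, h2]

lemma iota_mul_le (hL : 0 < L) (a b : C(Icc (0:ℝ) L, ℝ)) :
    ‖iota L hL (a * b)‖ ≤ ‖a‖ * ‖iota L hL b‖ := by
  apply Lp.norm_le_mul_norm_of_ae_le_mul
  filter_upwards [iota_coe hL (a * b), iota_coe hL b] with x h1 h2
  rw [h1, h2]
  have e : IccExtend hL.le (a * b : C(Icc (0:ℝ) L, ℝ)) x = IccExtend hL.le a x * IccExtend hL.le b x := rfl
  rw [e, norm_mul]
  gcongr
  exact a.norm_coe_le_norm _

lemma iota_abs (hL : 0 < L) (a : C(Icc (0:ℝ) L, ℝ)) : ‖iota L hL |a|‖ ≤ ‖iota L hL a‖ := by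
  apply Lp.norm_le_norm_of_ae_le
  filter_upwards [iota_coe hL |a|, iota_coe hL a] with x h1 h2
  rw [h1, h2]
  have e : IccExtend hL.le (|a| : C(Icc (0:ℝ) L, ℝ)) x = |IccExtend hL.le a x| := rfl
  rw [e, norm_abs_eq_norm]

/-- Cauchy-Schwarz -/
lemma cs (hL : 0 < L) (g h : C(Icc (0:ℝ) L, ℝ)) :
    ∫ x in (0:ℝ)..L, |IccExtend hL.le g x * IccExtend hL.le h x| ≤ ‖iota L hL g‖ * ‖iota L hL h‖ := by
  have h1 := inner_iota hL |g| |h|
  have h2 : ∫ x in (0:ℝ)..L, |IccExtend hL.le g x * IccExtend hL.le h x|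
      = ∫ x in (0:ℝ)..L, IccExtend hL.le (|g| : C(Icc (0:ℝ) L, ℝ)) x
        * IccExtend hL.le (|h| : C(Icc (0:ℝ) L, ℝ)) x := by
    apply intervalIntegral.integral_congr
    intro x _
    exact abs_mul _ _
  rw [h2, ← h1]
  calc ⟪iota L hL |g|, iota L hL |h|⟫ ≤ ‖iota L hL |g|‖ * ‖iota L hL |h|‖ := real_inner_le_norm _ _
    _ ≤ _ := by
      gcongr
      · exact iota_abs hL g
      · exact iota_abs hL h

/-- sup bound -/
lemma sup_sq (hL : 0 < L) (g h : C(Icc (0:ℝ) L, ℝ))
    (hd : ∀ x ∈ Icc 0 L, HasDerivWithinAt (IccExtend hL.le g) (IccExtend hL.le h x) (Icc 0 L) x)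
    {ξ : ℝ} (hξ : ξ ∈ Icc 0 L) (h0 : IccExtend hL.le g ξ = 0) :
    ‖g‖ ^ 2 ≤ 2 * (‖iota L hL g‖ * ‖iota L hL h‖) := by
  have cg : Continuous (IccExtend hL.le g) := g.continuous.Icc_extend'
  have ch : Continuous (IccExtend hL.le h) := h.continuous.Icc_extend'
  set I := ∫ x in (0:ℝ)..L, |IccExtend hL.le g x * IccExtend hL.le h x| with hI
  have hIcs := cs hL g h
  rw [← hI] at hIcs
  have hpt : ∀ x ∈ Icc 0 L, IccExtend hL.le g x ^ 2 ≤ 2 * I := by
    intro x hx
    have hdd : ∀ x ∈ Icc 0 L, HasDerivWithinAt (fun x => IccExtend hL.le g x ^ 2)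
        (2 * (IccExtend hL.le g x * IccExtend hL.le h x)) (Icc 0 L) x := by
      intro x hx
      refine ((hd x hx).pow 2).congr_deriv ?_
      simp; ring
    have hc2 : ContinuousOn (fun x => 2 * (IccExtend hL.le g x * IccExtend hL.le h x)) (Icc 0 L) := by
      fun_prop
    have f1 := ftc' hL hdd hc2 hx
    have f2 := ftc' hL hdd hc2 hξ
    have hii : ∀ a b : ℝ, IntervalIntegrable (fun x => 2 * (IccExtend hL.le g x * IccExtend hL.le h x)) volume a b := by
      intro a b
      apply Continuous.intervalIntegrable; fun_prop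
    have f3 : ∫ y in ξ..x, 2 * (IccExtend hL.le g y * IccExtend hL.le h y)
        = IccExtend hL.le g x ^ 2 := by
      rw [← intervalIntegral.integral_interval_sub_left (hii 0 x) (hii 0 ξ), f1, f2, h0]
      ring
    have hsub : Ι ξ x ⊆ Ι 0 L := by
      apply uIoc_subset_uIoc_of_uIcc_subset_uIcc
      apply uIcc_subset_uIcc
      · rw [uIcc_of_le hL.le]; exact hξ
      · rw [uIcc_of_le hL.le]; exact hx
    have f4 : |∫ y in ξ..x, 2 * (IccExtend hL.le g y * IccExtend hL.le h y)| ≤ 2 * I := by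
      have g1 := intervalIntegral.norm_integral_le_abs_integral_norm (μ := volume)
        (f := fun y => 2 * (IccExtend hL.le g y * IccExtend hL.le h y)) (a := ξ) (b := x)
      have g2 : |∫ y in ξ..x, ‖2 * (IccExtend hL.le g y * IccExtend hL.le h y)‖|
          ≤ |∫ y in (0:ℝ)..L, ‖2 * (IccExtend hL.le g y * IccExtend hL.le h y)‖| := by
        apply intervalIntegral.abs_integral_mono_interval hsub
        · exact Eventually.of_forall fun _ => norm_nonneg _
        · apply Continuous.intervalIntegrable; fun_prop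
      have g3 : ∫ y in (0:ℝ)..L, ‖2 * (IccExtend hL.le g y * IccExtend hL.le h y)‖ = 2 * I := by
        rw [hI, ← intervalIntegral.integral_const_mul]
        apply intervalIntegral.integral_congr
        intro y _
        simp [abs_mul]
      have g4 : 0 ≤ 2 * I := by
        rw [hI]
        have : 0 ≤ ∫ x in (0:ℝ)..L, |IccExtend hL.le g x * IccExtend hL.le h x| :=
          intervalIntegral.integral_nonneg hL.le (fun _ _ => abs_nonneg _)
        linarith
      rw [g3, abs_of_nonneg g4] at g2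
      exact g1.trans g2
    rw [← f3]
    exact (le_abs_self _).trans f4
  have hI0 : 0 ≤ 2 * I := (sq_nonneg _).trans (hpt 0 ⟨le_rfl, hL.le⟩)
  have hn : ‖g‖ ≤ Real.sqrt (2 * I) := by
    rw [ContinuousMap.norm_le _ (Real.sqrt_nonneg _)]
    intro x
    have := hpt x x.2
    rw [IccExtend_of_mem hL.le _ x.2] at this
    rw [Real.norm_eq_abs]
    exact Real.abs_le_sqrt this
  calc ‖g‖ ^ 2 ≤ Real.sqrt (2 * I) ^ 2 := by gcongr
    _ = 2 * I := Real.sq_sqrt hI0
    _ ≤ _ := by linarith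

end Pool.Agent.Helper420.KdVWp
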