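import Pool.Agent.Helper420.KdVWp.Calc

open MeasureTheory Set Filter Topology
open scoped RealInnerProductSpace Interval ENNReal

namespace Pool.Agent.Helper420.KdVWp

variable {L : ℝ}

noncomputable def Kop (L : ℝ) (hL : 0 < L) : HL L →L[ℝ] HL L := (iota L hL) ∘L (U0 L hL)

noncomputable def Bop (L : ℝ) (hL : 0 < L) : HL L →L[ℝ] HL L →L[ℝ] HL L :=
  (ContinuousLinearMap.compL ℝ (HL L) C(Icc (0:ℝ) L, ℝ) (HL L) (iota L hL)) ∘L
    ((ContinuousLinearMap.mul ℝ C(Icc (0:ℝ) L, ℝ)).bilinearComp (U0 L hL) (U1 L hL))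

lemma Kop_apply (hL : 0 < L) (f : HL L) : Kop L hL f = iota L hL (U0 L hL f) := rfl

lemma Bop_apply (hL : 0 < L) (f g : HL L) : Bop L hL f g = iota L hL (U0 L hL f * U1 L hL g) := rfl

lemma ext0 (hL : 0 < L) (f : HL L) {x : ℝ} (hx : x ∈ Icc 0 L) :
    IccExtend hL.le (U0 L hL f) x = u0 L f x := by
  rw [IccExtend_of_mem hL.le _ hx, U0_apply]

lemma ext1 (hL : 0 < L) (f : HL L) {x : ℝ} (hx : x ∈ Icc 0 L) :
    IccExtend hL.le (U1 L hL f) x = u1 L f x := by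
  rw [IccExtend_of_mem hL.le _ hx, U1_apply]

lemma ext2 (hL : 0 < L) (f : HL L) {x : ℝ} (hx : x ∈ Icc 0 L) :
    IccExtend hL.le (U2 L hL f) x = u2 L f x := by
  rw [IccExtend_of_mem hL.le _ hx, U2_apply]

lemma d01 (hL : 0 < L) (f : HL L) : ∀ x ∈ Icc 0 L, HasDerivWithinAt (IccExtend hL.le (U0 L hL f))
    (IccExtend hL.le (U1 L hL f) x) (Icc 0 L) x := by
  intro x hx
  rw [ext1 hL f hx]
  exact (du0 hL (ii hL f) x hx).congr (fun y hy => ext0 hL f hy) (ext0 hL f hx)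

lemma d12 (hL : 0 < L) (f : HL L) : ∀ x ∈ Icc 0 L, HasDerivWithinAt (IccExtend hL.le (U1 L hL f))
    (IccExtend hL.le (U2 L hL f) x) (Icc 0 L) x := by
  intro x hx
  rw [ext2 hL f hx]
  exact (du1 hL (ii hL f) x hx).congr (fun y hy => ext1 hL f hy) (ext1 hL f hx)

lemma skew' (hL : 0 < L) (f g : HL L) : ⟪Kop L hL f, g⟫ = -⟪f, Kop L hL g⟫ := by
  have h := u0_skew hL (Lp.memLp f) (Lp.memLp g)
  have e1 : ⟪Kop L hL f, g⟫ = ∫ x in (0:ℝ)..L, u0 L f x * g x := by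
    rw [inner_HL hL, intervalIntegral.integral_of_le hL.le, intervalIntegral.integral_of_le hL.le]
    apply integral_congr_ae
    filter_upwards [iota_coe hL (U0 L hL f), ae_restrict_mem measurableSet_Ioc] with x h1 h2
    rw [Kop_apply, h1, ext0 hL f (Ioc_subset_Icc_self h2)]
  have e2 : ⟪f, Kop L hL g⟫ = ∫ x in (0:ℝ)..L, f x * u0 L g x := by
    rw [inner_HL hL, intervalIntegral.integral_of_le hL.le, intervalIntegral.integral_of_le hL.le]
    apply integral_congr_ae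
    filter_upwards [iota_coe hL (U0 L hL g), ae_restrict_mem measurableSet_Ioc] with x h1 h2
    rw [Kop_apply, h1, ext0 hL g (Ioc_subset_Icc_self h2)]
  rw [e1, e2, h]

lemma inj' (hL : 0 < L) (f : HL L) (h : Kop L hL f = 0) : f = 0 := by
  rw [Lp.eq_zero_iff_ae_eq_zero]
  apply u0_inj hL (Lp.memLp f)
  have h1 : (Kop L hL f : ℝ → ℝ) =ᵐ[volume.restrict (Ioc 0 L)] 0 := by
    rw [h]; exact Lp.coeFn_zero _ _ _
  filter_upwards [iota_coe hL (U0 L hL f), ae_restrict_mem measurableSet_Ioc, h1] with x h1 h2 h3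
  rw [Kop_apply, h1, ext0 hL f (Ioc_subset_Icc_self h2)] at h3
  exact h3

/-- the trilinear identity -/
lemma B3' (hL : 0 < L) (f g : HL L) :
    |⟪Bop L hL f g + Bop L hL g f, Kop L hL g⟫| ≤ ‖U1 L hL f‖ * ‖Kop L hL g‖ ^ 2 := by
  set a := IccExtend hL.le (U0 L hL f) with ha
  set a' := IccExtend hL.le (U1 L hL f) with ha'
  set b := IccExtend hL.le (U0 L hL g) with hb
  set b' := IccExtend hL.le (U1 L hL g) with hb'
  have ca : Continuous a := (U0 L hL f).continuous.Icc_extend'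
  have ca' : Continuous a' := (U1 L hL f).continuous.Icc_extend'
  have cb : Continuous b := (U0 L hL g).continuous.Icc_extend'
  have cb' : Continuous b' := (U1 L hL g).continuous.Icc_extend'
  have e1 : ⟪Bop L hL f g + Bop L hL g f, Kop L hL g⟫ = ∫ x in (0:ℝ)..L, (a x * b' x + b x * a' x) * b x := by
    rw [Bop_apply, Bop_apply, Kop_apply, ← map_add, inner_iota]
    rfl
  have e2 : ∫ x in (0:ℝ)..L, (a' x * b x ^ 2 + 2 * (a x * b x * b' x)) = 0 := by
    rw [ftc' hL (G := fun x => a x * b x ^ 2) (x := L) _ _ ⟨hL.le, le_rfl⟩]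
    · have h1 : a L = 0 := by
        rw [ha, ext0 hL f ⟨hL.le, le_rfl⟩]; exact u0_L hL (ii hL f)
      have h2 : a 0 = 0 := by
        rw [ha, ext0 hL f ⟨le_rfl, hL.le⟩]; exact u0_zero
      rw [h1, h2]; ring
    · intro x hx
      refine ((d01 hL f x hx).mul ((d01 hL g x hx).pow 2)).congr_deriv ?_
      simp only [← ha, ← ha', ← hb, ← hb', Pi.pow_apply]
      simp
      ring
    · fun_prop
  have e3 : ∫ x in (0:ℝ)..L, (a x * b' x + b x * a' x) * b x = 1 / 2 * ∫ x in (0:ℝ)..L, a' x * b x ^ 2 := by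
    have i1 : IntervalIntegrable (fun x => a' x * b x ^ 2) volume 0 L := by
      apply Continuous.intervalIntegrable; fun_prop
    have i2 : IntervalIntegrable (fun x => a x * b x * b' x) volume 0 L := by
      apply Continuous.intervalIntegrable; fun_prop
    rw [intervalIntegral.integral_add i1 (i2.const_mul 2), intervalIntegral.integral_const_mul] at e2
    have e4 : ∫ x in (0:ℝ)..L, (a x * b' x + b x * a' x) * b x
        = (∫ x in (0:ℝ)..L, a x * b x * b' x) + ∫ x in (0:ℝ)..L, a' x * b x ^ 2 := by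
      rw [← intervalIntegral.integral_add i2 i1]
      apply intervalIntegral.integral_congr
      intro x _
      simp only; ring
    rw [e4]; linarith
  rw [e1, e3]
  have e5 : ‖Kop L hL g‖ ^ 2 = ∫ x in (0:ℝ)..L, b x * b x := by
    rw [← real_inner_self_eq_norm_sq, Kop_apply, inner_iota]
  rw [abs_mul, e5]
  have e6 : |∫ x in (0:ℝ)..L, a' x * b x ^ 2| ≤ ∫ x in (0:ℝ)..L, ‖U1 L hL f‖ * (b x * b x) := by
    refine (intervalIntegral.abs_integral_le_integral_abs hL.le).trans ?_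
    apply intervalIntegral.integral_mono_on hL.le
    · apply Continuous.intervalIntegrable; fun_prop
    · apply Continuous.intervalIntegrable; fun_prop
    · intro x _
      rw [abs_mul, abs_of_nonneg (sq_nonneg (b x)), sq]
      gcongr
      · exact mul_self_nonneg _
      · exact (U1 L hL f).norm_coe_le_norm _
  rw [intervalIntegral.integral_const_mul] at e6
  have e7 : |(1:ℝ) / 2| ≤ 1 := by norm_num
  calc |(1:ℝ) / 2| * |∫ x in (0:ℝ)..L, a' x * b x ^ 2| ≤ 1 * |∫ x in (0:ℝ)..L, a' x * b x ^ 2| := by gcongr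
    _ ≤ _ := by rw [one_mul]; exact e6

/-- the interpolation constant -/
noncomputable def C1 (L : ℝ) (hL : 0 < L) : ℝ := ‖(iota L hL) ∘L (U2 L hL)‖

lemma C1_nonneg (hL : 0 < L) : 0 ≤ C1 L hL := norm_nonneg _

lemma le_C1 (hL : 0 < L) (f : HL L) : ‖iota L hL (U2 L hL f)‖ ≤ C1 L hL * ‖f‖ :=
  ((iota L hL) ∘L (U2 L hL)).le_opNorm f

lemma I1' (hL : 0 < L) (f : HL L) : ‖iota L hL (U1 L hL f)‖ ^ 2 ≤ C1 L hL * ‖Kop L hL f‖ * ‖f‖ := by
  set a := IccExtend hL.le (U0 L hL f) with ha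
  set a' := IccExtend hL.le (U1 L hL f) with ha'
  set a'' := IccExtend hL.le (U2 L hL f) with ha''
  have ca : Continuous a := (U0 L hL f).continuous.Icc_extend'
  have ca' : Continuous a' := (U1 L hL f).continuous.Icc_extend'
  have ca'' : Continuous a'' := (U2 L hL f).continuous.Icc_extend'
  have e2 : ∫ x in (0:ℝ)..L, (a' x * a' x + a x * a'' x) = 0 := by
    rw [ftc' hL (G := fun x => a x * a' x) (x := L) _ _ ⟨hL.le, le_rfl⟩]
    · have h1 : a L = 0 := by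
        rw [ha, ext0 hL f ⟨hL.le, le_rfl⟩]; exact u0_L hL (ii hL f)
      have h2 : a 0 = 0 := by
        rw [ha, ext0 hL f ⟨le_rfl, hL.le⟩]; exact u0_zero
      rw [h1, h2]; ring
    · intro x hx
      exact ((d01 hL f x hx).mul (d12 hL f x hx))
    · fun_prop
  have i1 : IntervalIntegrable (fun x => a' x * a' x) volume 0 L := by
    apply Continuous.intervalIntegrable; fun_prop
  have i2 : IntervalIntegrable (fun x => a x * a'' x) volume 0 L := by
    apply Continuous.intervalIntegrable; fun_prop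
  rw [intervalIntegral.integral_add i1 i2] at e2
  have e3 : ‖iota L hL (U1 L hL f)‖ ^ 2 = ∫ x in (0:ℝ)..L, a' x * a' x := by
    rw [← real_inner_self_eq_norm_sq, inner_iota]
  have e4 : ⟪Kop L hL f, iota L hL (U2 L hL f)⟫ = ∫ x in (0:ℝ)..L, a x * a'' x := by
    rw [Kop_apply, inner_iota]
  have e5 := abs_real_inner_le_norm (Kop L hL f) (iota L hL (U2 L hL f))
  rw [e4] at e5
  have e6 := le_C1 hL f
  calc ‖iota L hL (U1 L hL f)‖ ^ 2 = -∫ x in (0:ℝ)..L, a x * a'' x := by rw [e3]; linarith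
    _ ≤ ‖Kop L hL f‖ * ‖iota L hL (U2 L hL f)‖ := (neg_le_abs _).trans e5
    _ ≤ ‖Kop L hL f‖ * (C1 L hL * ‖f‖) := by gcongr
    _ = _ := by ring

lemma I0' (hL : 0 < L) (f : HL L) :
    ‖U0 L hL f‖ ^ 4 ≤ 4 * C1 L hL * ‖Kop L hL f‖ ^ 3 * ‖f‖ := by
  have h1 := sup_sq hL (U0 L hL f) (U1 L hL f) (d01 hL f) (ξ := 0) ⟨le_rfl, hL.le⟩
    (by rw [ext0 hL f ⟨le_rfl, hL.le⟩]; exact u0_zero)
  rw [← Kop_apply] at h1
  have h2 := I1' hL f
  calc ‖U0 L hL f‖ ^ 4 = (‖U0 L hL f‖ ^ 2) ^ 2 := by ring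
    _ ≤ (2 * (‖Kop L hL f‖ * ‖iota L hL (U1 L hL f)‖)) ^ 2 := by gcongr
    _ = 4 * ‖Kop L hL f‖ ^ 2 * ‖iota L hL (U1 L hL f)‖ ^ 2 := by ring
    _ ≤ 4 * ‖Kop L hL f‖ ^ 2 * (C1 L hL * ‖Kop L hL f‖ * ‖f‖) := by gcongr
    _ = _ := by ring

lemma I2' (hL : 0 < L) (f : HL L) :
    ‖U1 L hL f‖ ^ 4 ≤ 4 * C1 L hL ^ 3 * ‖Kop L hL f‖ * ‖f‖ ^ 3 := by
  have hc : ContinuousOn (u0 L f) (Icc 0 L) := fun x hx => (du0 hL (ii hL f) x hx).continuousWithinAt
  obtain ⟨ξ, hξ, hξ0⟩ := exists_hasDerivAt_eq_zero (f := u0 L f) (f' := u1 L f) hL hc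
    (by rw [u0_zero, u0_L hL (ii hL f)]) (fun x hx => (du0 hL (ii hL f) x (Ioo_subset_Icc_self hx)).hasDerivAt
      (Icc_mem_nhds hx.1 hx.2))
  have hξ' := Ioo_subset_Icc_self hξ
  have h1 := sup_sq hL (U1 L hL f) (U2 L hL f) (d12 hL f) (ξ := ξ) hξ'
    (by rw [ext1 hL f hξ']; exact hξ0)
  have h2 := I1' hL f
  have h3 := le_C1 hL f
  have h0 := C1_nonneg hL
  calc ‖U1 L hL f‖ ^ 4 = (‖U1 L hL f‖ ^ 2) ^ 2 := by ring
    _ ≤ (2 * (‖iota L hL (U1 L hL f)‖ * ‖iota L hL (U2 L hL f)‖)) ^ 2 := by gcongr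
    _ = 4 * ‖iota L hL (U1 L hL f)‖ ^ 2 * ‖iota L hL (U2 L hL f)‖ ^ 2 := by ring
    _ ≤ 4 * (C1 L hL * ‖Kop L hL f‖ * ‖f‖) * (C1 L hL * ‖f‖) ^ 2 := by gcongr
    _ = _ := by ring

lemma R' (hL : 0 < L) (h : HL L) : ∃ q, Bop L hL (Kop L hL h) (Kop L hL h) = Kop L hL q ∧
    ‖q‖ ≤ ‖iota L hL‖ * (3 * ‖U2 L hL‖ ^ 2 * ‖Kop L hL‖ + 5 * ‖U1 L hL‖ * ‖U0 L hL‖)
      * ‖Kop L hL h‖ * ‖h‖ := by
  set f := Kop L hL h with hf
  set Q : C(Icc (0:ℝ) L, ℝ) := (-3 : ℝ) • (U2 L hL f * U2 L hL f) + (4 : ℝ) • (U1 L hL f * U0 L hL h)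
    + U0 L hL f * U1 L hL h with hQ
  refine ⟨iota L hL Q, ?_, ?_⟩
  · rw [Bop_apply, Kop_apply]
    congr 1
    -- functions
    have hfu : ∀ x ∈ Icc 0 L, prim f x = prim (u0 L h) x := by
      intro x hx
      unfold prim
      apply intervalIntegral.integral_congr_ae
      have h1 := (ae_restrict_iff' measurableSet_Ioc).1 (iota_coe hL (U0 L hL h))
      filter_upwards [h1] with y hy hy2
      rw [uIoc_of_le hx.1] at hy2
      have hy3 : y ∈ Ioc 0 L := ⟨hy2.1, hy2.2.trans hx.2⟩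
      rw [hf, Kop_apply, hy hy3, ext0 hL h (Ioc_subset_Icc_self hy3)]
    have ch0 : ContinuousOn (u0 L h) (Icc 0 L) := fun x hx => (du0 hL (ii hL h) x hx).continuousWithinAt
    have ch1 : ContinuousOn (u1 L h) (Icc 0 L) := fun x hx => (du1 hL (ii hL h) x hx).continuousWithinAt
    have cf0 : ContinuousOn (u0 L f) (Icc 0 L) := fun x hx => (du0 hL (ii hL f) x hx).continuousWithinAt
    have cf1 : ContinuousOn (u1 L f) (Icc 0 L) := fun x hx => (du1 hL (ii hL f) x hx).continuousWithinAt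
    -- derivative of u2 f
    have d2 : ∀ x ∈ Icc 0 L, HasDerivWithinAt (u2 L f) (-u0 L h x) (Icc 0 L) x := by
      intro x hx
      have h1 := (prim_deriv hL ch0 x hx).const_sub (mean L (prim f))
      refine h1.congr (fun y hy => ?_) ?_
      · unfold u2; rw [hfu y hy]
      · unfold u2; rw [hfu x hx]
    have cf2 : ContinuousOn (u2 L f) (Icc 0 L) := fun x hx => (d2 x hx).continuousWithinAt
    set q : ℝ → ℝ := fun x => -3 * u2 L f x ^ 2 + 4 * (u1 L f x * u0 L h x) + u0 L f x * u1 L h x with hq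
    have cq : ContinuousOn q (Icc 0 L) := by fun_prop
    have z1 := u1_L hL (ii hL f)
    have zz := u0_zero (L := L) (f := (f : ℝ → ℝ))
    have zL := u0_L hL (ii hL f)
    set v2 : ℝ → ℝ := fun x => 3 * (u1 L f x * u2 L f x) - u0 L f x * u0 L h x with hv2
    have dv2 : ∀ x ∈ Icc 0 L, HasDerivWithinAt v2 (-q x) (Icc 0 L) x := by
      intro x hx
      have a1 := ((du1 hL (ii hL f) x hx).mul (d2 x hx)).const_mul 3
      have a2 := (du0 hL (ii hL f) x hx).mul (du0 hL (ii hL h) x hx)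
      refine (a1.sub a2).congr_deriv ?_
      simp only [hq]; ring
    have hchar := char hL (v := fun x => u0 L f x * u1 L f x)
      (v1 := fun x => u1 L f x * u1 L f x + u0 L f x * u2 L f x) (v2 := v2) (q := q) ?_ ?_ ?_ ?_ ?_ ?_ ?_
    · ext x
      rw [U0_apply]
      show U0 L hL f x * U1 L hL f x = _
      rw [U0_apply, U1_apply]
      have h1 := (hchar x x.2).1
      rw [h1]
      -- u0 depends only on a.e. class
      have hp : ∀ y ∈ Icc 0 L, prim q y = prim (iota L hL Q) y := by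
        intro y hy
        unfold prim
        apply intervalIntegral.integral_congr_ae
        have h1 := (ae_restrict_iff' measurableSet_Ioc).1 (iota_coe hL Q)
        filter_upwards [h1] with s hs hs2
        rw [uIoc_of_le hy.1] at hs2
        have hs3 : s ∈ Ioc 0 L := ⟨hs2.1, hs2.2.trans hy.2⟩
        have hs4 := Ioc_subset_Icc_self hs3
        rw [hs hs3, IccExtend_of_mem hL.le _ hs4]
        show q s = (-3 : ℝ) • (U2 L hL f ⟨s, hs4⟩ * U2 L hL f ⟨s, hs4⟩)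
          + (4 : ℝ) • (U1 L hL f ⟨s, hs4⟩ * U0 L hL h ⟨s, hs4⟩)
          + U0 L hL f ⟨s, hs4⟩ * U1 L hL h ⟨s, hs4⟩
        rw [U2_apply, U1_apply, U0_apply, U0_apply, U1_apply]
        simp only [hq, smul_eq_mul]; ring
      have hu2 : ∀ y ∈ Icc 0 L, u2 L q y = u2 L (iota L hL Q) y := by
        intro y hy
        unfold u2 mean
        rw [hp y hy]
        congr 2
        apply intervalIntegral.integral_congr
        intro s hs
        rw [uIcc_of_le hL.le] at hs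
        exact hp s hs
      have hpu2 : ∀ y ∈ Icc 0 L, prim (u2 L q) y = prim (u2 L (iota L hL Q)) y := by
        intro y hy
        unfold prim
        apply intervalIntegral.integral_congr
        intro s hs
        rw [uIcc_of_le hy.1] at hs
        exact hu2 s ⟨hs.1, hs.2.trans hy.2⟩
      have hu1 : ∀ y ∈ Icc 0 L, u1 L q y = u1 L (iota L hL Q) y := by
        intro y hy
        unfold u1 mean
        rw [hpu2 y hy]
        congr 2
        apply intervalIntegral.integral_congr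
        intro s hs
        rw [uIcc_of_le hL.le] at hs
        exact hpu2 s hs
      unfold u0
      unfold prim
      apply intervalIntegral.integral_congr
      intro s hs
      rw [uIcc_of_le x.2.1] at hs
      exact hu1 s ⟨hs.1, hs.2.trans x.2.2⟩
    · intro x hx
      exact (du0 hL (ii hL f) x hx).mul (du1 hL (ii hL f) x hx)
    · intro x hx
      have a1 := (du1 hL (ii hL f) x hx).mul (du1 hL (ii hL f) x hx)
      have a2 := (du0 hL (ii hL f) x hx).mul (d2 x hx)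
      refine (a1.add a2).congr_deriv ?_
      simp only [hv2]; ring
    · intro x hx
      have h1 := ftc' hL dv2 cq.neg hx
      rw [intervalIntegral.integral_neg] at h1
      linarith
    · fun_prop
    · rw [zz]; ring
    · rw [zL]; ring
    · rw [zz, zL, z1]; ring
  · have hk0 : 0 ≤ ‖f‖ := norm_nonneg _
    have b2 : ‖U2 L hL f‖ ≤ ‖U2 L hL‖ * ‖f‖ := (U2 L hL).le_opNorm f
    have b1 : ‖U1 L hL f‖ ≤ ‖U1 L hL‖ * ‖f‖ := (U1 L hL).le_opNorm f
    have b0 : ‖U0 L hL f‖ ≤ ‖U0 L hL‖ * ‖f‖ := (U0 L hL).le_opNorm f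
    have c1 : ‖U1 L hL h‖ ≤ ‖U1 L hL‖ * ‖h‖ := (U1 L hL).le_opNorm h
    have c0 : ‖U0 L hL h‖ ≤ ‖U0 L hL‖ * ‖h‖ := (U0 L hL).le_opNorm h
    have ck : ‖f‖ ≤ ‖Kop L hL‖ * ‖h‖ := (Kop L hL).le_opNorm h
    have hQn : ‖Q‖ ≤ 3 * (‖U2 L hL f‖ * ‖U2 L hL f‖) + 4 * (‖U1 L hL f‖ * ‖U0 L hL h‖)
        + ‖U0 L hL f‖ * ‖U1 L hL h‖ := by
      rw [hQ]
      refine (norm_add_le _ _).trans ?_
      gcongr
      · refine (norm_add_le _ _).trans ?_
        gcongr
        · rw [norm_smul]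
          have : ‖(-3:ℝ)‖ = 3 := by norm_num
          rw [this]; gcongr; exact norm_mul_le _ _
        · rw [norm_smul]
          have : ‖(4:ℝ)‖ = 4 := by norm_num
          rw [this]; gcongr; exact norm_mul_le _ _
      · exact norm_mul_le _ _
    calc ‖iota L hL Q‖ ≤ ‖iota L hL‖ * ‖Q‖ := (iota L hL).le_opNorm Q
      _ ≤ ‖iota L hL‖ * (3 * (‖U2 L hL f‖ * ‖U2 L hL f‖) + 4 * (‖U1 L hL f‖ * ‖U0 L hL h‖)
        + ‖U0 L hL f‖ * ‖U1 L hL h‖) := by gcongr
      _ ≤ ‖iota L hL‖ * (3 * ((‖U2 L hL‖ * ‖f‖) * (‖U2 L hL‖ * (‖Kop L hL‖ * ‖h‖)))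
          + 4 * ((‖U1 L hL‖ * ‖f‖) * (‖U0 L hL‖ * ‖h‖)) + (‖U0 L hL‖ * ‖f‖) * (‖U1 L hL‖ * ‖h‖)) := by
        gcongr
        exact b2.trans (by gcongr)
      _ = _ := by ring

/-- the concrete setting -/
noncomputable def setting (L : ℝ) (hL : 0 < L) : Setting (HL L) where
  K := Kop L hL
  B := Bop L hL
  N0 f := ‖U0 L hL f‖
  N1 f := ‖U1 L hL f‖
  M1 f := ‖iota L hL (U1 L hL f)‖
  C := C1 L hL + 2 + ‖iota L hL‖ * (3 * ‖U2 L hL‖ ^ 2 * ‖Kop L hL‖ + 5 * ‖U1 L hL‖ * ‖U0 L hL‖)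
  C_one := by
    have := C1_nonneg hL
    have : 0 ≤ ‖iota L hL‖ * (3 * ‖U2 L hL‖ ^ 2 * ‖Kop L hL‖ + 5 * ‖U1 L hL‖ * ‖U0 L hL‖) := by positivity
    linarith
  N0_nonneg _ := norm_nonneg _
  N1_nonneg _ := norm_nonneg _
  M1_nonneg _ := norm_nonneg _
  skew := skew' hL
  inj := inj' hL
  B1 f g := by rw [Bop_apply]; exact iota_mul_le hL _ _
  B2 f g := by
    rw [Bop_apply, mul_comm (U0 L hL f), mul_comm ‖Kop L hL f‖, Kop_apply]
    exact iota_mul_le hL _ _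
  B3 := B3' hL
  I0 f := by
    refine (I0' hL f).trans ?_
    have h0 := C1_nonneg hL
    have h1 : 0 ≤ ‖iota L hL‖ * (3 * ‖U2 L hL‖ ^ 2 * ‖Kop L hL‖ + 5 * ‖U1 L hL‖ * ‖U0 L hL‖) := by positivity
    gcongr
    set c := C1 L hL
    calc 4 * c ≤ (c + 2) ^ 4 := by nlinarith [pow_nonneg h0 2, pow_nonneg h0 3, pow_nonneg h0 4]
      _ ≤ _ := pow_le_pow_left₀ (by positivity) (by linarith) _
  I1 f := by
    refine (I1' hL f).trans ?_
    have h0 := C1_nonneg hL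
    have h1 : 0 ≤ ‖iota L hL‖ * (3 * ‖U2 L hL‖ ^ 2 * ‖Kop L hL‖ + 5 * ‖U1 L hL‖ * ‖U0 L hL‖) := by positivity
    gcongr
    set c := C1 L hL
    calc c ≤ (c + 2) ^ 2 := by nlinarith
      _ ≤ _ := pow_le_pow_left₀ (by positivity) (by linarith) _
  I2 f := by
    refine (I2' hL f).trans ?_
    have h0 := C1_nonneg hL
    have h1 : 0 ≤ ‖iota L hL‖ * (3 * ‖U2 L hL‖ ^ 2 * ‖Kop L hL‖ + 5 * ‖U1 L hL‖ * ‖U0 L hL‖) := by positivity
    gcongr
    set c := C1 L hL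
    calc 4 * c ^ 3 ≤ (c + 2) ^ 4 := by nlinarith [pow_nonneg h0 2, pow_nonneg h0 3, pow_nonneg h0 4]
      _ ≤ _ := pow_le_pow_left₀ (by positivity) (by linarith) _
  R h := by
    obtain ⟨q, hq, hqn⟩ := R' hL h
    refine ⟨q, hq, hqn.trans ?_⟩
    have h0 := C1_nonneg hL
    gcongr
    linarith

end Pool.Agent.Helper420.KdVWp
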