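import Mathlib

/-!
# KdV on an interval with `L²`-conserving boundary conditions: definitions
-/

open MeasureTheory Set Filter Topology

namespace Pool.Agent.Helper420.KdVWp

/-- the `j`-th derivative of `v` on `[0,L]` at `x` (one-sided at the end points) -/
noncomputable def dx (L : ℝ) (j : ℕ) (v : ℝ → ℝ) (x : ℝ) : ℝ :=
  iteratedDerivWithin j v (Icc 0 L) x

/-- `v` belongs to the Sobolev space `H³(0,L)`: it is of class `C²` on `[0,L]`, its second
derivative is absolutely continuous, and its third derivative is square integrable. -/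
structure MemH3 (L : ℝ) (v : ℝ → ℝ) : Prop where
  contDiffOn : ContDiffOn ℝ 2 v (Icc 0 L)
  ac : AbsolutelyContinuousOnInterval (dx L 2 v) 0 L
  memLp : MemLp (dx L 3 v) 2 (volume.restrict (Ioc 0 L))

/-- the norm of `H³(0,L)` -/
noncomputable def h3norm (L : ℝ) (v : ℝ → ℝ) : ℝ :=
  Real.sqrt (∑ j ∈ Finset.range 4, ∫ x in (0:ℝ)..L, dx L j v x ^ 2)

/-- the boundary conditions `v(0) = 0`, `v(L) = 0`, `v'(0) = v'(L)` -/
structure BoundaryConditions (L : ℝ) (v : ℝ → ℝ) : Prop where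
  left : v 0 = 0
  right : v L = 0
  slope : dx L 1 v 0 = dx L 1 v L

/-- `u` (written `u t x`) is a solution in `C([0,T];H³(0,L))` of `u_t + u u_x + u_xxx = 0` on
`(0,L)` with `u(t,0) = u(t,L) = 0`, `u_x(t,0) = u_x(t,L)` and initial value `φ`; the time derivative
is the derivative of `t ↦ u t` as a function with values in `L²(0,L)`. -/
structure IsSolution (L T : ℝ) (φ : ℝ → ℝ) (u : ℝ → ℝ → ℝ) : Prop where
  mem : ∀ t ∈ Icc 0 T, MemH3 L (u t)
  cont : ∀ t₀ ∈ Icc 0 T,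
    Tendsto (fun t => h3norm L (fun x => u t x - u t₀ x)) (𝓝[Icc 0 T] t₀) (𝓝 0)
  pde : ∀ t₀ ∈ Icc 0 T,
    Tendsto (fun t => ∫ x in (0:ℝ)..L,
      ((u t x - u t₀ x) / (t - t₀) + u t₀ x * dx L 1 (u t₀) x + dx L 3 (u t₀) x) ^ 2)
      (𝓝[Icc 0 T \ {t₀}] t₀) (𝓝 0)
  bc : ∀ t ∈ Icc 0 T, BoundaryConditions L (u t)
  init : ∀ x ∈ Icc 0 L, u 0 x = φ x

/-- Well-posedness in `H³(0,L)`: for every `R` there is `T > 0` such that
* for every `φ ∈ H³(0,L)` with the compatibility conditions `φ(0) = φ(L) = 0`, `φ'(0) = φ'(L)` and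
  norm at most `R` there is a solution in `C([0,T];H³(0,L))`;
* the solution is unique in `C([0,T'];H³(0,L))`, for every `T' > 0`;
* the map `φ ↦ u` is continuous from (the ball of radius `R` of) `H³(0,L)` to `C([0,T];H³(0,L))`. -/
def WellPosedH3 (L : ℝ) : Prop :=
  ∀ R : ℝ, 0 < R → ∃ T : ℝ, 0 < T ∧
    (∀ φ, MemH3 L φ → BoundaryConditions L φ → h3norm L φ ≤ R → ∃ u, IsSolution L T φ u) ∧
    (∀ T' φ u v, 0 < T' → IsSolution L T' φ u → IsSolution L T' φ v →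
      ∀ t ∈ Icc 0 T', ∀ x ∈ Icc 0 L, u t x = v t x) ∧
    (∀ φ u, h3norm L φ ≤ R → IsSolution L T φ u → ∀ ε : ℝ, 0 < ε → ∃ δ : ℝ, 0 < δ ∧
      ∀ ψ v, h3norm L ψ ≤ R → h3norm L (fun x => ψ x - φ x) < δ → IsSolution L T ψ v →
        ∀ t ∈ Icc 0 T, h3norm L (fun x => v t x - u t x) < ε)

end Pool.Agent.Helper420.KdVWp
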