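import Pool.Agent.Helper420.KdVWp.Defs
import Pool.Agent.Helper420.KdVWp.Concrete

open MeasureTheory Set Filter Topology
open scoped RealInnerProductSpace Interval ENNReal

namespace Pool.Agent.Helper420.KdVWp

variable {L : ℝ}

lemma dx_zero (v : ℝ → ℝ) (x : ℝ) : dx L 0 v x = v x := by simp [dx]

lemma dx_succ (v : ℝ → ℝ) (j : ℕ) (x : ℝ) : dx L (j + 1) v x = derivWithin (dx L j v) (Icc 0 L) x := by
  unfold dx
  rw [iteratedDerivWithin_succ]

lemma dx_congr {v w : ℝ → ℝ} (h : ∀ x ∈ Icc 0 L, v x = w x) (j : ℕ) :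
    ∀ x ∈ Icc 0 L, dx L j v x = dx L j w x := by
  intro x hx
  unfold dx
  exact iteratedDerivWithin_congr h hx

lemma dx_one (hL : 0 < L) {v v1 : ℝ → ℝ} (h1 : ∀ x ∈ Icc 0 L, HasDerivWithinAt v (v1 x) (Icc 0 L) x) :
    ∀ x ∈ Icc 0 L, dx L 1 v x = v1 x := by
  intro x hx
  rw [dx_succ]
  have h : ∀ y ∈ Icc 0 L, dx L 0 v y = v y := fun y _ => dx_zero v y
  rw [derivWithin_congr h (h x hx)]
  exact (h1 x hx).derivWithin (uniqueDiffOn_Icc hL x hx)

lemma dx_two (hL : 0 < L) {v v1 v2 : ℝ → ℝ} (h1 : ∀ x ∈ Icc 0 L, HasDerivWithinAt v (v1 x) (Icc 0 L) x)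
    (h2 : ∀ x ∈ Icc 0 L, HasDerivWithinAt v1 (v2 x) (Icc 0 L) x) :
    ∀ x ∈ Icc 0 L, dx L 2 v x = v2 x := by
  intro x hx
  rw [dx_succ]
  have h := dx_one hL h1
  rw [derivWithin_congr h (h x hx)]
  exact (h2 x hx).derivWithin (uniqueDiffOn_Icc hL x hx)

lemma dx1_u0 (hL : 0 < L) (f : HL L) : ∀ x ∈ Icc 0 L, dx L 1 (u0 L f) x = u1 L f x :=
  dx_one hL (du0 hL (ii hL f))

lemma dx2_u0 (hL : 0 < L) (f : HL L) : ∀ x ∈ Icc 0 L, dx L 2 (u0 L f) x = u2 L f x :=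
  dx_two hL (du0 hL (ii hL f)) (du1 hL (ii hL f))

lemma dx3_u0 (hL : 0 < L) (f : HL L) :
    ∀ᵐ x ∂(volume.restrict (Ioc 0 L)), dx L 3 (u0 L f) x = - f x := by
  rw [ae_restrict_iff' measurableSet_Ioc]
  have h1 := (ii hL f).ae_hasDerivAt_integral
  have h2 : ∀ᵐ x : ℝ, x ≠ L := by
    simp [ae_iff, measure_singleton]
  filter_upwards [h1, h2] with x hx1 hx2 hx
  have hxI : x ∈ Icc 0 L := Ioc_subset_Icc_self hx
  have h3 := hx1 (by rw [uIcc_of_le hL.le]; exact hxI) 0 left_mem_uIcc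
  have h4 : HasDerivAt (u2 L f) (-f x) x := h3.const_sub _
  rw [dx_succ, derivWithin_congr (dx2_u0 hL f) (dx2_u0 hL f x hxI)]
  exact h4.hasDerivWithinAt.derivWithin (uniqueDiffOn_Icc hL x hxI)

lemma ac_congr {v w : ℝ → ℝ} (hL : 0 < L) (h : ∀ x ∈ Icc 0 L, v x = w x)
    (hv : AbsolutelyContinuousOnInterval v 0 L) : AbsolutelyContinuousOnInterval w 0 L := by
  rw [absolutelyContinuousOnInterval_iff] at hv ⊢
  intro ε hε
  obtain ⟨δ, hδ, H⟩ := hv ε hε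
  refine ⟨δ, hδ, fun E hE hE' => ?_⟩
  have := H E hE hE'
  refine lt_of_le_of_lt (le_of_eq ?_) this
  apply Finset.sum_congr rfl
  intro i hi
  have hi' := hE.1 i hi
  rw [uIcc_of_le hL.le] at hi'
  rw [h _ hi'.1, h _ hi'.2]

lemma contDiffOn_two (hL : 0 < L) {v v1 v2 : ℝ → ℝ}
    (h1 : ∀ x ∈ Icc 0 L, HasDerivWithinAt v (v1 x) (Icc 0 L) x)
    (h2 : ∀ x ∈ Icc 0 L, HasDerivWithinAt v1 (v2 x) (Icc 0 L) x)
    (hc : ContinuousOn v2 (Icc 0 L)) : ContDiffOn ℝ 2 v (Icc 0 L) := by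
  have e0 : ∀ x ∈ Icc 0 L, iteratedDerivWithin 0 v (Icc 0 L) x = v x := fun x _ => by simp
  have e1 := dx_one hL h1
  have e2 := dx_two hL h1 h2
  have c0 : ContinuousOn v (Icc 0 L) := fun x hx => (h1 x hx).continuousWithinAt
  have c1 : ContinuousOn v1 (Icc 0 L) := fun x hx => (h2 x hx).continuousWithinAt
  apply contDiffOn_of_continuousOn_differentiableOn_deriv (n := 2)
  · intro m hm
    have hm' : m ≤ 2 := by exact_mod_cast hm
    interval_cases m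
    · exact c0.congr e0
    · exact c1.congr e1
    · exact hc.congr e2
  · intro m hm
    have hm' : m < 2 := by exact_mod_cast hm
    interval_cases m
    · have : DifferentiableOn ℝ v (Icc 0 L) := fun x hx => (h1 x hx).differentiableWithinAt
      exact this.congr e0
    · have : DifferentiableOn ℝ v1 (Icc 0 L) := fun x hx => (h2 x hx).differentiableWithinAt
      exact this.congr e1

lemma memH3_u0 (hL : 0 < L) (f : HL L) : MemH3 L (u0 L f) := by
  refine ⟨?_, ?_, ?_⟩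
  · have h := u2_cont (ii hL f)
    rw [uIcc_of_le hL.le] at h
    exact contDiffOn_two hL (du0 hL (ii hL f)) (du1 hL (ii hL f)) h
  · apply ac_congr hL (v := u2 L f) (fun x hx => (dx2_u0 hL f x hx).symm)
    have h1 : AbsolutelyContinuousOnInterval (fun x => ∫ y in (0:ℝ)..x, f y) 0 L :=
      (ii hL f).absolutelyContinuousOnInterval_intervalIntegral (c := 0) (by simp)
    have h2 : AbsolutelyContinuousOnInterval (fun _ : ℝ => mean L (prim f)) 0 L := by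
      apply ContDiffOn.absolutelyContinuousOnInterval
      exact contDiffOn_const
    exact h2.sub h1
  · have h := (Lp.memLp f).neg
    refine h.ae_eq ?_
    filter_upwards [dx3_u0 hL f] with x hx
    rw [hx]; rfl

lemma bc_u0 (hL : 0 < L) (f : HL L) : BoundaryConditions L (u0 L f) := by
  refine ⟨u0_zero, u0_L hL (ii hL f), ?_⟩
  rw [dx1_u0 hL f 0 ⟨le_rfl, hL.le⟩, dx1_u0 hL f L ⟨hL.le, le_rfl⟩, u1_L hL (ii hL f)]

/-- the representative -/
noncomputable def Phi (L : ℝ) (v : ℝ → ℝ) (hv : MemH3 L v) : HL L := -(hv.memLp.toLp _)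

lemma Phi_coe {v : ℝ → ℝ} (hv : MemH3 L v) :
    (Phi L v hv : ℝ → ℝ) =ᵐ[volume.restrict (Ioc 0 L)] fun x => -dx L 3 v x := by
  have h1 := hv.memLp.coeFn_toLp
  have h2 := Lp.coeFn_neg (hv.memLp.toLp _)
  filter_upwards [h1, h2] with x hx1 hx2
  unfold Phi
  rw [hx2, Pi.neg_apply, hx1]

lemma rep (hL : 0 < L) {v : ℝ → ℝ} (hv : MemH3 L v) (hb : BoundaryConditions L v) :
    ∀ x ∈ Icc 0 L, v x = u0 L (Phi L v hv) x := by
  have hu : UniqueDiffOn ℝ (Icc 0 L) := uniqueDiffOn_Icc hL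
  have h1 : ∀ x ∈ Icc 0 L, HasDerivWithinAt v (dx L 1 v x) (Icc 0 L) x := by
    intro x hx
    have d : DifferentiableOn ℝ (dx L 0 v) (Icc 0 L) :=
      hv.contDiffOn.differentiableOn_iteratedDerivWithin (by norm_num) hu
    have := (d x hx).hasDerivWithinAt
    rw [← dx_succ] at this
    exact this.congr (fun y _ => (dx_zero v y).symm) (dx_zero v x).symm
  have h2 : ∀ x ∈ Icc 0 L, HasDerivWithinAt (dx L 1 v) (dx L 2 v x) (Icc 0 L) x := by
    intro x hx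
    have d : DifferentiableOn ℝ (dx L 1 v) (Icc 0 L) :=
      hv.contDiffOn.differentiableOn_iteratedDerivWithin (by norm_num) hu
    have := (d x hx).hasDerivWithinAt
    rwa [← dx_succ] at this
  have hc : ContinuousOn (dx L 2 v) (Icc 0 L) :=
    hv.contDiffOn.continuousOn_iteratedDerivWithin (by norm_num) hu
  have h3 : ∀ x ∈ Icc 0 L, dx L 2 v x = dx L 2 v 0 - ∫ y in (0:ℝ)..x, Phi L v hv y := by
    intro x hx
    have hac : AbsolutelyContinuousOnInterval (dx L 2 v) 0 x := hv.ac.mono (by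
      rw [uIcc_of_le hx.1, uIcc_of_le hL.le]; exact Icc_subset_Icc_right hx.2)
    have e1 := hac.integral_deriv_eq_sub
    have e2 : ∫ y in (0:ℝ)..x, Phi L v hv y = ∫ y in (0:ℝ)..x, -deriv (dx L 2 v) y := by
      apply intervalIntegral.integral_congr_ae
      have g1 := (ae_restrict_iff' measurableSet_Ioc).1 (Phi_coe hv)
      have g2 : ∀ᵐ x : ℝ, x ≠ L := by
        simp [ae_iff, measure_singleton]
      filter_upwards [g1, g2] with y hy hyL hy2
      rw [uIoc_of_le hx.1] at hy2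
      have hy3 : y ∈ Ioc 0 L := ⟨hy2.1, hy2.2.trans hx.2⟩
      rw [hy hy3, dx_succ, derivWithin_of_mem_nhds (Icc_mem_nhds hy3.1 (lt_of_le_of_ne hy3.2 hyL))]
    rw [e2, intervalIntegral.integral_neg, e1]; ring
  intro x hx
  exact (char hL h1 h2 h3 hc hb.left hb.right hb.slope x hx).1

/-! ### norms -/

lemma norm_sq_of_ae (hL : 0 < L) (F : HL L) {G : ℝ → ℝ} (h : (F : ℝ → ℝ) =ᵐ[volume.restrict (Ioc 0 L)] G) :
    ∫ x in (0:ℝ)..L, G x ^ 2 = ‖F‖ ^ 2 := by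
  rw [← real_inner_self_eq_norm_sq, inner_HL hL, intervalIntegral.integral_of_le hL.le,
    intervalIntegral.integral_of_le hL.le]
  apply integral_congr_ae
  filter_upwards [h] with x hx
  rw [hx]; ring

lemma h3norm_congr (hL : 0 < L) {v w : ℝ → ℝ} (h : ∀ x ∈ Icc 0 L, v x = w x) :
    h3norm L v = h3norm L w := by
  unfold h3norm
  congr 1
  apply Finset.sum_congr rfl
  intro j _
  apply intervalIntegral.integral_congr
  intro x hx
  rw [uIcc_of_le hL.le] at hx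
  simp only
  rw [dx_congr h j x hx]

lemma h3norm_u0 (hL : 0 < L) (f : HL L) : h3norm L (u0 L f) =
    Real.sqrt (‖Kop L hL f‖ ^ 2 + ‖iota L hL (U1 L hL f)‖ ^ 2 + ‖iota L hL (U2 L hL f)‖ ^ 2
      + ‖f‖ ^ 2) := by
  unfold h3norm
  congr 1
  rw [Finset.sum_range_succ, Finset.sum_range_succ, Finset.sum_range_succ, Finset.sum_range_succ,
    Finset.sum_range_zero, zero_add]
  have m : ∀ᵐ x ∂(volume.restrict (Ioc 0 L)), x ∈ Ioc 0 L := ae_restrict_mem measurableSet_Ioc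
  congr 1
  · congr 1
    · congr 1
      · apply norm_sq_of_ae hL
        filter_upwards [iota_coe hL (U0 L hL f), m] with x h1 h2
        rw [Kop_apply, h1, ext0 hL f (Ioc_subset_Icc_self h2), dx_zero]
      · apply norm_sq_of_ae hL
        filter_upwards [iota_coe hL (U1 L hL f), m] with x h1 h2
        rw [h1, ext1 hL f (Ioc_subset_Icc_self h2), dx1_u0 hL f x (Ioc_subset_Icc_self h2)]
    · apply norm_sq_of_ae hL
      filter_upwards [iota_coe hL (U2 L hL f), m] with x h1 h2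
      rw [h1, ext2 hL f (Ioc_subset_Icc_self h2), dx2_u0 hL f x (Ioc_subset_Icc_self h2)]
  · rw [← norm_neg f]
    apply norm_sq_of_ae hL
    filter_upwards [dx3_u0 hL f, Lp.coeFn_neg f] with x h1 h2
    rw [h1, h2]; rfl

lemma norm_le_h3 (hL : 0 < L) (f : HL L) : ‖f‖ ≤ h3norm L (u0 L f) := by
  rw [h3norm_u0 hL f]
  apply Real.le_sqrt_of_sq_le
  nlinarith [sq_nonneg ‖Kop L hL f‖, sq_nonneg ‖iota L hL (U1 L hL f)‖, sq_nonneg ‖iota L hL (U2 L hL f)‖]

/-- the constant of equivalence -/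
noncomputable def CH (L : ℝ) (hL : 0 < L) : ℝ :=
  ‖Kop L hL‖ + ‖(iota L hL) ∘L (U1 L hL)‖ + ‖(iota L hL) ∘L (U2 L hL)‖ + 1

lemma CH_pos (hL : 0 < L) : 0 < CH L hL := by
  unfold CH
  positivity

lemma h3_le (hL : 0 < L) (f : HL L) : h3norm L (u0 L f) ≤ CH L hL * ‖f‖ := by
  rw [h3norm_u0 hL f]
  have a0 := (Kop L hL).le_opNorm f
  have a1 : ‖iota L hL (U1 L hL f)‖ ≤ ‖(iota L hL) ∘L (U1 L hL)‖ * ‖f‖ :=
    ((iota L hL) ∘L (U1 L hL)).le_opNorm f
  have a2 : ‖iota L hL (U2 L hL f)‖ ≤ ‖(iota L hL) ∘L (U2 L hL)‖ * ‖f‖ :=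
    ((iota L hL) ∘L (U2 L hL)).le_opNorm f
  have b0 : 0 ≤ ‖Kop L hL f‖ := norm_nonneg _
  have b1 : 0 ≤ ‖iota L hL (U1 L hL f)‖ := norm_nonneg _
  have b2 : 0 ≤ ‖iota L hL (U2 L hL f)‖ := norm_nonneg _
  have b3 : 0 ≤ ‖f‖ := norm_nonneg _
  have h : ‖Kop L hL f‖ + ‖iota L hL (U1 L hL f)‖ + ‖iota L hL (U2 L hL f)‖ + ‖f‖ ≤ CH L hL * ‖f‖ := by
    unfold CH
    linarith
  refine le_trans ?_ h
  apply Real.sqrt_le_iff.2
  constructor
  · positivity
  · nlinarith [mul_nonneg b0 b1, mul_nonneg b0 b2, mul_nonneg b0 b3, mul_nonneg b1 b2,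
      mul_nonneg b1 b3, mul_nonneg b2 b3]

lemma u0_sub (hL : 0 < L) (f g : HL L) : ∀ x ∈ Icc 0 L, u0 L f x - u0 L g x = u0 L (f - g : HL L) x := by
  intro x hx
  have h1 := U0_apply hL f ⟨x, hx⟩
  have h2 := U0_apply hL g ⟨x, hx⟩
  have h3 := U0_apply hL (f - g) ⟨x, hx⟩
  rw [map_sub] at h3
  simp only at h1 h2 h3
  rw [← h1, ← h2, ← h3]
  rfl

lemma h3_sub (hL : 0 < L) {v w : ℝ → ℝ} {f g : HL L} (hv : ∀ x ∈ Icc 0 L, v x = u0 L f x)
    (hw : ∀ x ∈ Icc 0 L, w x = u0 L g x) :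
    h3norm L (fun x => v x - w x) = h3norm L (u0 L (f - g : HL L)) := by
  apply h3norm_congr hL
  intro x hx
  rw [hv x hx, hw x hx, u0_sub hL f g x hx]

/-- the expression in the definition of solutions -/
lemma pde_eq (hL : 0 < L) {v w : ℝ → ℝ} {f g : HL L} (hv : ∀ x ∈ Icc 0 L, v x = u0 L f x)
    (hw : ∀ x ∈ Icc 0 L, w x = u0 L g x) (τ : ℝ) :
    ∫ x in (0:ℝ)..L, ((v x - w x) / τ + w x * dx L 1 w x + dx L 3 w x) ^ 2
      = ‖τ⁻¹ • (Kop L hL f - Kop L hL g) - (g - Bop L hL g g)‖ ^ 2 := by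
  apply norm_sq_of_ae hL
  have m : ∀ᵐ x ∂(volume.restrict (Ioc 0 L)), x ∈ Ioc 0 L := ae_restrict_mem measurableSet_Ioc
  filter_upwards [m, iota_coe hL (U0 L hL f), iota_coe hL (U0 L hL g), dx3_u0 hL g,
    iota_coe hL (U0 L hL g * U1 L hL g),
    Lp.coeFn_sub (τ⁻¹ • (Kop L hL f - Kop L hL g)) (g - Bop L hL g g),
    Lp.coeFn_smul τ⁻¹ (Kop L hL f - Kop L hL g), Lp.coeFn_sub (Kop L hL f) (Kop L hL g),
    Lp.coeFn_sub g (Bop L hL g g)] with x h0 h1 h2 h3 h4 h5 h6 h7 h8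
  have hx := Ioc_subset_Icc_self h0
  rw [h5, Pi.sub_apply, h6, Pi.smul_apply, h7, Pi.sub_apply, h8, Pi.sub_apply, Kop_apply, Kop_apply,
    Bop_apply, h1, h2, h4, ext0 hL f hx, ext0 hL g hx]
  have e1 : IccExtend hL.le (U0 L hL g * U1 L hL g : C(Icc (0:ℝ) L, ℝ)) x
      = IccExtend hL.le (U0 L hL g) x * IccExtend hL.le (U1 L hL g) x := rfl
  rw [e1, ext0 hL g hx, ext1 hL g hx, hv x hx, hw x hx, dx_congr hw 1 x hx, dx_congr hw 3 x hx, h3,
    dx1_u0 hL g x hx, smul_eq_mul]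
  ring

/-- from solutions to abstract solutions -/
lemma sol_of_isSolution (hL : 0 < L) {T : ℝ} {φ : ℝ → ℝ} {u : ℝ → ℝ → ℝ} (hu : IsSolution L T φ u) :
    ∃ f : ℝ → HL L, Sol (setting L hL) T f ∧ ∀ t ∈ Icc 0 T, ∀ x ∈ Icc 0 L, u t x = u0 L (f t) x := by
  classical
  let f : ℝ → HL L := fun t => if ht : t ∈ Icc 0 T then Phi L (u t) (hu.mem t ht) else 0
  have hf : ∀ t ∈ Icc 0 T, ∀ x ∈ Icc 0 L, u t x = u0 L (f t) x := by
    intro t ht x hx
    simp only [f, dif_pos ht]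
    exact rep hL (hu.mem t ht) (hu.bc t ht) x hx
  refine ⟨f, ⟨?_, ?_⟩, hf⟩
  · intro t₀ ht₀
    rw [ContinuousWithinAt, tendsto_iff_norm_sub_tendsto_zero]
    have h1 := hu.cont t₀ ht₀
    refine squeeze_zero' (Eventually.of_forall fun _ => norm_nonneg _) ?_ h1
    filter_upwards [self_mem_nhdsWithin] with t ht
    rw [h3_sub hL (hf t ht) (hf t₀ ht₀)]
    exact norm_le_h3 hL _
  · intro t₀ ht₀
    show HasDerivWithinAt (fun t => Kop L hL (f t)) (f t₀ - Bop L hL (f t₀) (f t₀)) (Icc 0 T) t₀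
    rw [hasDerivWithinAt_iff_tendsto_slope, tendsto_iff_norm_sub_tendsto_zero]
    have h1 := (hu.pde t₀ ht₀).sqrt
    rw [Real.sqrt_zero] at h1
    refine h1.congr' ?_
    filter_upwards [self_mem_nhdsWithin] with t ht
    rw [pde_eq hL (hf t ht.1) (hf t₀ ht₀), Real.sqrt_sq (norm_nonneg _)]
    rfl

/-- from abstract solutions to solutions -/
lemma isSolution_of_sol (hL : 0 < L) {T : ℝ} (hT : 0 ≤ T) {f : ℝ → HL L} (hf : Sol (setting L hL) T f)
    {φ : ℝ → ℝ} (h0 : ∀ x ∈ Icc 0 L, u0 L (f 0) x = φ x) :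
    IsSolution L T φ (fun t => u0 L (f t)) := by
  refine ⟨fun t _ => memH3_u0 hL (f t), ?_, ?_, fun t _ => bc_u0 hL (f t), h0⟩
  · intro t₀ ht₀
    have h1 := hf.cont t₀ ht₀
    rw [ContinuousWithinAt, tendsto_iff_norm_sub_tendsto_zero] at h1
    have h2 := h1.const_mul (CH L hL)
    rw [mul_zero] at h2
    refine squeeze_zero' (Eventually.of_forall fun _ => Real.sqrt_nonneg _) ?_ h2
    filter_upwards with t
    rw [h3_sub hL (f := f t) (g := f t₀) (fun _ _ => rfl) (fun _ _ => rfl)]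
    exact h3_le hL _
  · intro t₀ ht₀
    have h1 : HasDerivWithinAt (fun t => Kop L hL (f t)) (f t₀ - Bop L hL (f t₀) (f t₀)) (Icc 0 T) t₀ :=
      hf.der t₀ ht₀
    rw [hasDerivWithinAt_iff_tendsto_slope, tendsto_iff_norm_sub_tendsto_zero] at h1
    have h2 := h1.pow 2
    rw [zero_pow (by norm_num)] at h2
    refine h2.congr' ?_
    filter_upwards [self_mem_nhdsWithin] with t ht
    rw [pde_eq hL (f := f t) (g := f t₀) (fun _ _ => rfl) (fun _ _ => rfl)]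
    rfl

theorem wellPosed (hL : 0 < L) : WellPosedH3 L := by
  intro R hR
  obtain ⟨T, hT, M, hRM, hex, hco⟩ := abstract_wp (setting L hL) hR.le
  refine ⟨T, hT, ?_, ?_, ?_⟩
  · intro φ hφ hb hφR
    have hr := rep hL hφ hb
    have hn : ‖Phi L φ hφ‖ ≤ R := by
      refine (norm_le_h3 hL _).trans ?_
      rw [← h3norm_congr hL hr]; exact hφR
    obtain ⟨f, hf, hf0, _⟩ := hex (Phi L φ hφ) hn
    exact ⟨_, isSolution_of_sol hL hT.le hf (fun x hx => by rw [hf0]; exact (hr x hx).symm)⟩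
  · intro T' φ u v hT' hu hv t ht x hx
    obtain ⟨f, hf, hfu⟩ := sol_of_isSolution hL hu
    obtain ⟨g, hg, hgv⟩ := sol_of_isSolution hL hv
    have h0' : (0:ℝ) ∈ Icc 0 T' := ⟨le_rfl, hT'.le⟩
    have h0 : f 0 = g 0 := by
      have h1 : h3norm L (u0 L (f 0 - g 0 : HL L)) = 0 := by
        rw [← h3_sub hL (hfu 0 h0') (hgv 0 h0')]
        have : h3norm L (fun x => u 0 x - v 0 x) = h3norm L (u0 L (0 : HL L)) := by
          have e := h3_sub hL (hfu 0 h0') (hfu 0 h0')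
          rw [sub_self] at e
          rw [← e]
          apply h3norm_congr hL
          intro x hx
          rw [hu.init x hx, hv.init x hx]
        rw [this]
        have h2 := h3_le hL (0 : HL L)
        rw [norm_zero, mul_zero] at h2
        exact le_antisymm h2 (Real.sqrt_nonneg _)
      have h2 := norm_le_h3 hL (f 0 - g 0)
      rw [h1] at h2
      exact sub_eq_zero.1 (norm_le_zero_iff.1 h2)
    have h3 := sol_unique (setting L hL) hf hg h0 t ht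
    rw [hfu t ht x hx, hgv t ht x hx, h3]
  · intro φ u hφR hu ε hε
    obtain ⟨f, hf, hfu⟩ := sol_of_isSolution hL hu
    have h0T : (0:ℝ) ∈ Icc 0 T := ⟨le_rfl, hT.le⟩
    have hφf : ∀ x ∈ Icc 0 L, φ x = u0 L (f 0) x := fun x hx => by
      rw [← hu.init x hx, hfu 0 h0T x hx]
    have hf0R : ‖f 0‖ ≤ R := by
      refine (norm_le_h3 hL _).trans ?_
      rw [← h3norm_congr hL hφf]; exact hφR
    have hCH := CH_pos hL
    obtain ⟨δ, hδ, hδ'⟩ := hco (f 0) hf0R (ε / (2 * CH L hL)) (by positivity)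
    refine ⟨δ, hδ, fun ψ v hψR hψφ hv t ht => ?_⟩
    obtain ⟨g, hg, hgv⟩ := sol_of_isSolution hL hv
    have hψg : ∀ x ∈ Icc 0 L, ψ x = u0 L (g 0) x := fun x hx => by
      rw [← hv.init x hx, hgv 0 h0T x hx]
    have hg0R : ‖g 0‖ ≤ R := by
      refine (norm_le_h3 hL _).trans ?_
      rw [← h3norm_congr hL hψg]; exact hψR
    rw [h3_sub hL hψg hφf] at hψφ
    have hgf : ‖g 0 - f 0‖ ≤ δ := (norm_le_h3 hL _).trans hψφ.le
    have h1 := hδ' (g 0) hg0R hgf f g hf hg rfl rfl t ht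
    rw [h3_sub hL (hgv t ht) (hfu t ht)]
    refine lt_of_le_of_lt (h3_le hL _) ?_
    rw [norm_sub_rev]
    calc CH L hL * ‖f t - g t‖ ≤ CH L hL * (ε / (2 * CH L hL)) := by gcongr
      _ = ε / 2 := by field_simp
      _ < ε := by linarith

end Pool.Agent.Helper420.KdVWp
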