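import Mathlib

open MeasureTheory Set Filter Topology

namespace Pool.Agent.Helper420.KdVWp

/-- primitive -/
noncomputable def prim (g : ℝ → ℝ) (x : ℝ) : ℝ := ∫ y in (0:ℝ)..x, g y

/-- mean value on `[0,L]` -/
noncomputable def mean (L : ℝ) (g : ℝ → ℝ) : ℝ := (1 / L) * ∫ y in (0:ℝ)..L, g y

/-- second derivative of the solution `u` of `-u''' = f`, `u(0) = u(L) = 0`, `u'(0) = u'(L)` -/
noncomputable def u2 (L : ℝ) (f : ℝ → ℝ) (x : ℝ) : ℝ := mean L (prim f) - prim f x

/-- first derivative -/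
noncomputable def u1 (L : ℝ) (f : ℝ → ℝ) (x : ℝ) : ℝ :=
  prim (u2 L f) x - mean L (prim (u2 L f))

/-- the solution `u` -/
noncomputable def u0 (L : ℝ) (f : ℝ → ℝ) (x : ℝ) : ℝ := prim (u1 L f) x

lemma prim_cont {L : ℝ} {f : ℝ → ℝ} (hf : IntervalIntegrable f volume 0 L) :
    ContinuousOn (prim f) (uIcc 0 L) :=
  intervalIntegral.continuousOn_primitive_interval' hf left_mem_uIcc

lemma u2_cont {L : ℝ} {f : ℝ → ℝ} (hf : IntervalIntegrable f volume 0 L) :
    ContinuousOn (u2 L f) (uIcc 0 L) := by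
  unfold u2
  exact continuousOn_const.sub (prim_cont hf)

lemma u2_int {L : ℝ} {f : ℝ → ℝ} (hf : IntervalIntegrable f volume 0 L) :
    IntervalIntegrable (u2 L f) volume 0 L := (u2_cont hf).intervalIntegrable

lemma u1_cont {L : ℝ} {f : ℝ → ℝ} (hf : IntervalIntegrable f volume 0 L) :
    ContinuousOn (u1 L f) (uIcc 0 L) := by
  unfold u1
  exact (prim_cont (u2_int hf)).sub continuousOn_const

lemma u1_int {L : ℝ} {f : ℝ → ℝ} (hf : IntervalIntegrable f volume 0 L) :
    IntervalIntegrable (u1 L f) volume 0 L := (u1_cont hf).intervalIntegrable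

lemma u0_cont {L : ℝ} {f : ℝ → ℝ} (hf : IntervalIntegrable f volume 0 L) :
    ContinuousOn (u0 L f) (uIcc 0 L) := by
  unfold u0
  exact prim_cont (u1_int hf)

lemma int_u2 {L : ℝ} (hL : 0 < L) {f : ℝ → ℝ} (hf : IntervalIntegrable f volume 0 L) :
    ∫ x in (0:ℝ)..L, u2 L f x = 0 := by
  unfold u2
  rw [intervalIntegral.integral_sub intervalIntegrable_const (prim_cont hf).intervalIntegrable,
    intervalIntegral.integral_const, mean, smul_eq_mul]
  field_simp
  ring

lemma int_u1 {L : ℝ} (hL : 0 < L) {f : ℝ → ℝ} (hf : IntervalIntegrable f volume 0 L) :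
    ∫ x in (0:ℝ)..L, u1 L f x = 0 := by
  unfold u1
  rw [intervalIntegral.integral_sub (prim_cont (u2_int hf)).intervalIntegrable
    intervalIntegrable_const, intervalIntegral.integral_const, mean, smul_eq_mul]
  field_simp
  ring

/-- integration by parts for primitives -/
lemma key {L : ℝ} {f g : ℝ → ℝ} (hf : IntervalIntegrable f volume 0 L)
    (hg : IntervalIntegrable g volume 0 L) :
    ∫ x in (0:ℝ)..L, prim f x * g x
      = (∫ x in (0:ℝ)..L, f x) * (∫ x in (0:ℝ)..L, g x) - ∫ x in (0:ℝ)..L, f x * prim g x := by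
  have hfa : AbsolutelyContinuousOnInterval (prim f) 0 L :=
    hf.absolutelyContinuousOnInterval_intervalIntegral left_mem_uIcc
  have hga : AbsolutelyContinuousOnInterval (prim g) 0 L :=
    hg.absolutelyContinuousOnInterval_intervalIntegral left_mem_uIcc
  have h := hfa.integral_mul_deriv_eq_deriv_mul hga
  have e1 : ∫ x in (0:ℝ)..L, prim f x * deriv (prim g) x = ∫ x in (0:ℝ)..L, prim f x * g x := by
    apply intervalIntegral.integral_congr_ae
    filter_upwards [hg.ae_hasDerivAt_integral] with x hx hx2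
    have := (hx (uIoc_subset_uIcc hx2) 0 left_mem_uIcc).deriv
    show prim f x * deriv (prim g) x = prim f x * g x
    unfold prim at *
    rw [this]
  have e2 : ∫ x in (0:ℝ)..L, deriv (prim f) x * prim g x = ∫ x in (0:ℝ)..L, f x * prim g x := by
    apply intervalIntegral.integral_congr_ae
    filter_upwards [hf.ae_hasDerivAt_integral] with x hx hx2
    have := (hx (uIoc_subset_uIcc hx2) 0 left_mem_uIcc).deriv
    show deriv (prim f) x * prim g x = f x * prim g x
    unfold prim at *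
    rw [this]
  rw [e1, e2] at h
  rw [h]
  simp [prim]

lemma stepA {L : ℝ} (hL : 0 < L) {f g : ℝ → ℝ} (hf : IntervalIntegrable f volume 0 L)
    (hg : IntervalIntegrable g volume 0 L) :
    ∫ x in (0:ℝ)..L, u0 L f x * g x = ∫ x in (0:ℝ)..L, u1 L f x * u2 L g x := by
  have h := key (u1_int hf) hg
  rw [int_u1 hL hf, zero_mul, zero_sub] at h
  have h2 : ∫ x in (0:ℝ)..L, u1 L f x * u2 L g x
      = mean L (prim g) * (∫ x in (0:ℝ)..L, u1 L f x) - ∫ x in (0:ℝ)..L, u1 L f x * prim g x := by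
    rw [← intervalIntegral.integral_const_mul, ← intervalIntegral.integral_sub]
    · apply intervalIntegral.integral_congr
      intro x _
      simp only [u2]
      ring
    · exact (u1_int hf).const_mul _
    · exact ((u1_cont hf).mul (prim_cont hg)).intervalIntegrable
  rw [h2, int_u1 hL hf, mul_zero, zero_sub, ← h]
  rfl

lemma stepB {L : ℝ} (hL : 0 < L) {f g : ℝ → ℝ} (hf : IntervalIntegrable f volume 0 L)
    (hg : IntervalIntegrable g volume 0 L) :
    ∫ x in (0:ℝ)..L, u1 L f x * u2 L g x = - ∫ x in (0:ℝ)..L, u2 L f x * u1 L g x := by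
  have h := key (u2_int hf) (u2_int hg)
  rw [int_u2 hL hf, zero_mul, zero_sub] at h
  have h1 : ∫ x in (0:ℝ)..L, u1 L f x * u2 L g x
      = (∫ x in (0:ℝ)..L, prim (u2 L f) x * u2 L g x)
        - mean L (prim (u2 L f)) * ∫ x in (0:ℝ)..L, u2 L g x := by
    rw [← intervalIntegral.integral_const_mul, ← intervalIntegral.integral_sub]
    · apply intervalIntegral.integral_congr
      intro x _
      simp only [u1]
      ring
    · exact ((prim_cont (u2_int hf)).mul (u2_cont hg)).intervalIntegrable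
    · exact (u2_int hg).const_mul _
  have h2 : ∫ x in (0:ℝ)..L, u2 L f x * u1 L g x
      = (∫ x in (0:ℝ)..L, u2 L f x * prim (u2 L g) x)
        - mean L (prim (u2 L g)) * ∫ x in (0:ℝ)..L, u2 L f x := by
    rw [← intervalIntegral.integral_const_mul, ← intervalIntegral.integral_sub]
    · apply intervalIntegral.integral_congr
      intro x _
      simp only [u1]
      ring
    · exact ((u2_cont hf).mul (prim_cont (u2_int hg))).intervalIntegrable
    · exact (u2_int hf).const_mul _
  rw [h1, h2, int_u2 hL hf, int_u2 hL hg, mul_zero, mul_zero, sub_zero, sub_zero, h]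

lemma int_of_memLp {L : ℝ} (hL : 0 < L) {f : ℝ → ℝ}
    (hf : MemLp f 2 (volume.restrict (Ioc 0 L))) : IntervalIntegrable f volume 0 L := by
  rw [intervalIntegrable_iff_integrableOn_Ioc_of_le hL.le]
  exact hf.integrable (by norm_num)

/-- skew-symmetry of the solution operator on `L²(0,L)` -/
theorem u0_skew {L : ℝ} (hL : 0 < L) {f g : ℝ → ℝ} (hf : MemLp f 2 (volume.restrict (Ioc 0 L)))
    (hg : MemLp g 2 (volume.restrict (Ioc 0 L))) :
    ∫ x in (0:ℝ)..L, u0 L f x * g x = - ∫ x in (0:ℝ)..L, f x * u0 L g x := by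
  have hf' := int_of_memLp hL hf
  have hg' := int_of_memLp hL hg
  rw [stepA hL hf' hg', stepB hL hf' hg']
  have h := stepA hL hg' hf'
  have e : ∫ x in (0:ℝ)..L, f x * u0 L g x = ∫ x in (0:ℝ)..L, u0 L g x * f x := by
    apply intervalIntegral.integral_congr
    intro x _
    simp only []
    ring
  have e2 : ∫ x in (0:ℝ)..L, u2 L f x * u1 L g x = ∫ x in (0:ℝ)..L, u1 L g x * u2 L f x := by
    apply intervalIntegral.integral_congr
    intro x _
    simp only []
    ring
  rw [e, e2, h]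

/-- an integrable function whose primitive is constant on the open interval vanishes a.e. -/
lemma ae_zero_of_prim_const {L : ℝ} (hL : 0 < L) {h : ℝ → ℝ} (hh : IntervalIntegrable h volume 0 L)
    (c : ℝ) (hc : ∀ x ∈ Ioo 0 L, prim h x = c) :
    ∀ᵐ x ∂(volume.restrict (Ioc 0 L)), h x = 0 := by
  have h2 : ∀ᵐ x : ℝ, x ≠ L := by simp [ae_iff, measure_singleton]
  rw [ae_restrict_iff' measurableSet_Ioc]
  filter_upwards [hh.ae_hasDerivAt_integral, h2] with x hx hxL hxI
  have hx1 : HasDerivAt (fun x => ∫ (t : ℝ) in (0:ℝ)..x, h t) (h x) x :=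
    hx (by rw [uIcc_of_le hL.le]; exact ⟨hxI.1.le, hxI.2⟩) 0 left_mem_uIcc
  have hxo : x ∈ Ioo 0 L := ⟨hxI.1, lt_of_le_of_ne hxI.2 hxL⟩
  have hx2 : HasDerivAt (fun x => ∫ (t : ℝ) in (0:ℝ)..x, h t) 0 x := by
    apply (hasDerivAt_const x c).congr_of_eventuallyEq
    filter_upwards [Ioo_mem_nhds hxo.1 hxo.2] with y hy
    exact hc y hy
  exact hx1.unique hx2

lemma zero_of_ae {L : ℝ} (hL : 0 < L) {h : ℝ → ℝ} (hc : ContinuousOn h (uIcc 0 L))
    (h0 : ∀ᵐ x ∂(volume.restrict (Ioc 0 L)), h x = 0) : ∀ x ∈ Ioo 0 L, h x = 0 := by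
  rw [uIcc_of_le hL.le] at hc
  have h1 : h =ᵐ[volume.restrict (Ioc 0 L)] (fun _ => (0 : ℝ)) := h0
  have := Measure.eqOn_Ioc_of_ae_eq volume h1 (hc.mono Ioc_subset_Icc_self) continuousOn_const
  intro x hx
  exact this ⟨hx.1, hx.2.le⟩

/-- injectivity of the solution operator -/
theorem u0_inj {L : ℝ} (hL : 0 < L) {f : ℝ → ℝ} (hf : MemLp f 2 (volume.restrict (Ioc 0 L)))
    (h : ∀ᵐ x ∂(volume.restrict (Ioc 0 L)), u0 L f x = 0) :
    ∀ᵐ x ∂(volume.restrict (Ioc 0 L)), f x = 0 := by
  have hf' := int_of_memLp hL hf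
  have a0 := zero_of_ae hL (u0_cont hf') h
  have a1 := zero_of_ae hL (u1_cont hf') (ae_zero_of_prim_const hL (u1_int hf') 0 a0)
  have a2 := zero_of_ae hL (u2_cont hf') (ae_zero_of_prim_const hL (u2_int hf')
    (mean L (prim (u2 L f))) (fun x hx => by
      have := a1 x hx
      unfold u1 at this
      linarith))
  exact ae_zero_of_prim_const hL hf' (mean L (prim f)) (fun x hx => by
      have := a2 x hx
      unfold u2 at this
      linarith)

end Pool.Agent.Helper420.KdVWp
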