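import Pool.Agent.Helper420.KdVWp.Abs3
import Pool.Agent.Helper420.KdVWp.Volt

open MeasureTheory Set Filter Topology
open scoped RealInnerProductSpace Interval ENNReal

namespace Pool.Agent.Helper420.KdVWp

/-- the Hilbert space `L²(0,L)` -/
noncomputable abbrev HL (L : ℝ) := Lp ℝ 2 (volume.restrict (Ioc (0:ℝ) L))

variable {L : ℝ}

lemma memLp_ext (hL : 0 < L) (g : C(Icc (0:ℝ) L, ℝ)) :
    MemLp (IccExtend hL.le g) 2 (volume.restrict (Ioc 0 L)) := by
  apply MemLp.of_bound (C := ‖g‖)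
  · exact (g.continuous.Icc_extend' (h := hL.le)).aestronglyMeasurable
  · exact Eventually.of_forall fun x => g.norm_coe_le_norm _

/-- embedding of continuous functions -/
noncomputable def iota (L : ℝ) (hL : 0 < L) : C(Icc (0:ℝ) L, ℝ) →L[ℝ] HL L :=
  LinearMap.mkContinuous
    { toFun := fun g => (memLp_ext hL g).toLp _
      map_add' := fun f g => by
        rw [← MemLp.toLp_add]
        rfl
      map_smul' := fun c g => by
        rw [RingHom.id_apply, ← MemLp.toLp_const_smul]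
        rfl }
    (measureUnivNNReal (volume.restrict (Ioc (0:ℝ) L)) ^ (2 : ℝ≥0∞).toReal⁻¹ : NNReal)
    (fun g => by
      have := Lp.norm_le_of_ae_bound (f := (memLp_ext hL g).toLp _) (C := ‖g‖) (norm_nonneg _) (by
        filter_upwards [(memLp_ext hL g).coeFn_toLp] with x hx
        rw [hx]
        exact g.norm_coe_le_norm _)
      exact this)

lemma iota_coe (hL : 0 < L) (g : C(Icc (0:ℝ) L, ℝ)) :
    (iota L hL g : ℝ → ℝ) =ᵐ[volume.restrict (Ioc 0 L)] IccExtend hL.le g :=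
  (memLp_ext hL g).coeFn_toLp

lemma ii (hL : 0 < L) (f : HL L) : IntervalIntegrable f volume 0 L :=
  (intervalIntegrable_iff_integrableOn_Ioc_of_le hL.le).2 ((Lp.memLp f).integrable (by norm_num))

lemma abs_prim_le (hL : 0 < L) (f : HL L) {x : ℝ} (hx : x ∈ Icc 0 L) :
    |∫ y in (0:ℝ)..x, f y| ≤ Real.sqrt L * ‖f‖ := by
  have hms : MeasurableSet (Ioc (0:ℝ) x) := measurableSet_Ioc
  have hfin : (volume.restrict (Ioc (0:ℝ) L)) (Ioc 0 x) ≠ ∞ := measure_ne_top _ _
  have h1 : ∫ y in (0:ℝ)..x, f y = ⟪indicatorConstLp 2 hms hfin (1:ℝ), f⟫ := by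
    rw [L2.inner_indicatorConstLp_one, intervalIntegral.integral_of_le hx.1,
      Measure.restrict_restrict hms, inter_eq_left.2 (Ioc_subset_Ioc_right hx.2)]
  rw [h1]
  refine (abs_real_inner_le_norm _ _).trans ?_
  gcongr
  rw [norm_indicatorConstLp (by norm_num) (by norm_num)]
  rw [norm_one, one_mul, Real.sqrt_eq_rpow]
  simp only [ENNReal.toReal_ofNat]
  apply Real.rpow_le_rpow (by positivity) _ (by norm_num)
  rw [measureReal_def, Measure.restrict_apply hms, inter_eq_left.2 (Ioc_subset_Ioc_right hx.2)]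
  rw [Real.volume_Ioc, ENNReal.toReal_ofReal (by linarith [hx.1])]
  linarith [hx.2]

/-- the primitive -/
noncomputable def Pm (L : ℝ) (hL : 0 < L) : HL L →L[ℝ] C(Icc (0:ℝ) L, ℝ) :=
  LinearMap.mkContinuous
    { toFun := fun f => ⟨fun x => ∫ y in (0:ℝ)..x, f y, by
        have h := intervalIntegral.continuousOn_primitive_interval' (ii hL f) left_mem_uIcc
        rw [uIcc_of_le hL.le] at h
        exact h.comp_continuous continuous_subtype_val (fun x => x.2)⟩
      map_add' := fun f g => by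
        ext x
        have h0 : ∀ f : HL L, IntervalIntegrable f volume 0 x := fun f =>
          (ii hL f).mono_set (by
            rw [uIcc_of_le hL.le, uIcc_of_le x.2.1]; exact Icc_subset_Icc_right x.2.2)
        show ∫ y in (0:ℝ)..x, (f + g) y = (∫ y in (0:ℝ)..x, f y) + ∫ y in (0:ℝ)..x, g y
        rw [← intervalIntegral.integral_add (h0 f) (h0 g)]
        apply intervalIntegral.integral_congr_ae
        have h1 := (ae_restrict_iff' measurableSet_Ioc).1 (Lp.coeFn_add f g)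
        filter_upwards [h1] with y hy hy2
        rw [uIoc_of_le x.2.1] at hy2
        exact hy ⟨hy2.1, hy2.2.trans x.2.2⟩
      map_smul' := fun c f => by
        ext x
        show ∫ y in (0:ℝ)..x, (c • f) y = c • ∫ y in (0:ℝ)..x, f y
        rw [← intervalIntegral.integral_smul]
        apply intervalIntegral.integral_congr_ae
        have h1 := (ae_restrict_iff' measurableSet_Ioc).1 (Lp.coeFn_smul c f)
        filter_upwards [h1] with y hy hy2
        rw [uIoc_of_le x.2.1] at hy2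
        exact hy ⟨hy2.1, hy2.2.trans x.2.2⟩ }
    (Real.sqrt L)
    (fun f => by
      rw [ContinuousMap.norm_le _ (by positivity)]
      intro x
      exact abs_prim_le hL f x.2)

lemma Pm_apply (hL : 0 < L) (f : HL L) (x : Icc (0:ℝ) L) : Pm L hL f x = ∫ y in (0:ℝ)..x, f y := rfl

lemma Pm_iota (hL : 0 < L) (g : C(Icc (0:ℝ) L, ℝ)) (x : Icc (0:ℝ) L) :
    Pm L hL (iota L hL g) x = ∫ y in (0:ℝ)..x, IccExtend hL.le g y := by
  rw [Pm_apply]
  apply intervalIntegral.integral_congr_ae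
  have h1 := (ae_restrict_iff' measurableSet_Ioc).1 (iota_coe hL g)
  filter_upwards [h1] with y hy hy2
  rw [uIoc_of_le x.2.1] at hy2
  exact hy ⟨hy2.1, hy2.2.trans x.2.2⟩

/-- average of a continuous function -/
noncomputable def avg (L : ℝ) (hL : 0 < L) : C(Icc (0:ℝ) L, ℝ) →L[ℝ] ℝ :=
  (1 / L) • ((ContinuousMap.evalCLM ℝ (⟨L, hL.le, le_rfl⟩ : Icc (0:ℝ) L)) ∘L (Pm L hL) ∘L (iota L hL))

lemma avg_apply (hL : 0 < L) (g : C(Icc (0:ℝ) L, ℝ)) :
    avg L hL g = (1 / L) * ∫ y in (0:ℝ)..L, IccExtend hL.le g y := by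
  show (1 / L) • (Pm L hL (iota L hL g) ⟨L, hL.le, le_rfl⟩) = _
  rw [Pm_iota]; rfl

/-- constants -/
noncomputable def cst (L : ℝ) : ℝ →L[ℝ] C(Icc (0:ℝ) L, ℝ) :=
  ContinuousLinearMap.toSpanSingleton ℝ (1 : C(Icc (0:ℝ) L, ℝ))

lemma cst_apply (c : ℝ) (x : Icc (0:ℝ) L) : cst L c x = c := by
  simp [cst, ContinuousLinearMap.toSpanSingleton_apply]

noncomputable def U2 (L : ℝ) (hL : 0 < L) : HL L →L[ℝ] C(Icc (0:ℝ) L, ℝ) :=
  (cst L) ∘L (avg L hL) ∘L (Pm L hL) - Pm L hL

noncomputable def U1 (L : ℝ) (hL : 0 < L) : HL L →L[ℝ] C(Icc (0:ℝ) L, ℝ) :=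
  (Pm L hL) ∘L (iota L hL) ∘L (U2 L hL)
    - (cst L) ∘L (avg L hL) ∘L (Pm L hL) ∘L (iota L hL) ∘L (U2 L hL)

noncomputable def U0 (L : ℝ) (hL : 0 < L) : HL L →L[ℝ] C(Icc (0:ℝ) L, ℝ) :=
  (Pm L hL) ∘L (iota L hL) ∘L (U1 L hL)

lemma U2_apply (hL : 0 < L) (f : HL L) (x : Icc (0:ℝ) L) : U2 L hL f x = u2 L f x := by
  show cst L (avg L hL (Pm L hL f)) x - Pm L hL f x = _
  rw [cst_apply, avg_apply, Pm_apply]
  unfold u2 mean prim
  congr 2
  apply intervalIntegral.integral_congr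
  intro y hy
  rw [uIcc_of_le hL.le] at hy
  simp only
  rw [IccExtend_of_mem hL.le _ hy, Pm_apply]

lemma U1_apply (hL : 0 < L) (f : HL L) (x : Icc (0:ℝ) L) : U1 L hL f x = u1 L f x := by
  show Pm L hL (iota L hL (U2 L hL f)) x
    - cst L (avg L hL (Pm L hL (iota L hL (U2 L hL f)))) x = _
  have e : ∀ x : Icc (0:ℝ) L, Pm L hL (iota L hL (U2 L hL f)) x = prim (u2 L f) x := by
    intro x
    rw [Pm_iota]
    unfold prim
    apply intervalIntegral.integral_congr
    intro y hy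
    rw [uIcc_of_le x.2.1] at hy
    rw [IccExtend_of_mem hL.le _ ⟨hy.1, hy.2.trans x.2.2⟩, U2_apply]
  rw [cst_apply, avg_apply, e]
  unfold u1 mean
  congr 2
  apply intervalIntegral.integral_congr
  intro y hy
  rw [uIcc_of_le hL.le] at hy
  rw [IccExtend_of_mem hL.le _ hy, e]

lemma U0_apply (hL : 0 < L) (f : HL L) (x : Icc (0:ℝ) L) : U0 L hL f x = u0 L f x := by
  show Pm L hL (iota L hL (U1 L hL f)) x = _
  rw [Pm_iota]
  unfold u0 prim
  apply intervalIntegral.integral_congr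
  intro y hy
  rw [uIcc_of_le x.2.1] at hy
  rw [IccExtend_of_mem hL.le _ ⟨hy.1, hy.2.trans x.2.2⟩, U1_apply]

end Pool.Agent.Helper420.KdVWp
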